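import Pool.Agent.Lib.MP_0775d3_lc.Sl2.Rect
import Pool.Agent.Lib.MP_0775d3_lc.Kron.Invariant

/-! Power saving for pulled back group matrices of finite abelian groups, from `inv_dec`. -/

set_option linter.unusedSectionVars false

namespace MP0775d3.Sl2

open Matrix MP0775d3.Kron

/-- Pulled back group matrices of finite abelian groups, modulo a subgroup `Z`. -/
theorem group_dec (δ : ℝ) (hδ : 0 < δ) (hδ1 : δ ≤ 1) : ∃ γ : ℝ, 0 < γ ∧ γ ≤ 1 ∧ ∃ C : ℝ, 1 ≤ C ∧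
    ∀ (Γ : Type) [CommGroup Γ] [Finite Γ] (Z : Subgroup Γ) (h : Γ → ℂ)
      (_ : ∀ z ∈ Z, ∀ g, h (z * g) = h g)
      (X Y : Type) [Fintype X] [Fintype Y] (α : X → Γ) (β : Y → Γ) (t : ℝ) (_ : 0 ≤ t)
      (_ : ∀ x₀, (({x | α x * (α x₀)⁻¹ ∈ Z} : Set X).ncard : ℝ) ≤ t)
      (_ : ∀ y₀, (({y | β y * (β y₀)⁻¹ ∈ Z} : Set Y).ncard : ℝ) ≤ t),
      RDec (Matrix.of fun x y => h (α x * (β y)⁻¹))
        (C * ((Nat.card Γ : ℝ) / (Nat.card Z : ℝ)) ^ (1 - γ))
        (t * ((Nat.card Γ : ℝ) / (Nat.card Z : ℝ)) ^ δ) := by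
  classical
  obtain ⟨γ, hγ, C, hC, hmain⟩ := inv_dec.{0, 0} (δ / 8) (by positivity) (by linarith)
  refine ⟨min γ 1, lt_min hγ one_pos, min_le_right _ _, max C 1, le_max_right _ _, ?_⟩
  intro Γ _ _ Z h hZ X Y _ _ α β t ht hα hβ
  have hfin : Fintype (Γ ⧸ Z) := Fintype.ofFinite _
  set K : Γ ⧸ Z → Γ ⧸ Z → ℂ := fun a b => h (Quotient.out (a * b⁻¹)) with hK
  have hout : ∀ g : Γ, h (Quotient.out (g : Γ ⧸ Z)) = h g := by
    intro g
    obtain ⟨z, hz⟩ := QuotientGroup.mk_out_eq_mul Z g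
    rw [hz, mul_comm]
    exact hZ z z.2 g
  have hinv : ∀ (g : Γ ⧸ Z) x y, K (g • x) (g • y) = K x y := by
    intro g x y
    simp only [hK, smul_eq_mul]
    congr 2
    rw [mul_inv]
    have : g * x * (g⁻¹ * y⁻¹) = (g * g⁻¹) * (x * y⁻¹) := by
      rw [mul_mul_mul_comm]
    rw [this, mul_inv_cancel, one_mul]
  have hdec := hmain ℂ (Γ ⧸ Z) (fun g h => mul_comm g h) (Γ ⧸ Z) K hinv
  have horb : Nat.card (MulAction.orbitRel.Quotient (Γ ⧸ Z) (Γ ⧸ Z)) = 1 := by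
    have h1 : Subsingleton (MulAction.orbitRel.Quotient (Γ ⧸ Z) (Γ ⧸ Z)) := by
      rw [← MulAction.pretransitive_iff_subsingleton_quotient]
      infer_instance
    have h2 : Nonempty (MulAction.orbitRel.Quotient (Γ ⧸ Z) (Γ ⧸ Z)) :=
      ⟨Quotient.mk (MulAction.orbitRel (Γ ⧸ Z) (Γ ⧸ Z)) (1 : Γ ⧸ Z)⟩
    have := Unique.mk' (MulAction.orbitRel.Quotient (Γ ⧸ Z) (Γ ⧸ Z))
    exact Nat.card_unique
  set n : ℝ := (Nat.card (Γ ⧸ Z) : ℝ) with hn
  have hZpos : (0 : ℝ) < Nat.card Z := by exact_mod_cast Nat.card_pos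
  have hcard : (Nat.card Γ : ℝ) / (Nat.card Z : ℝ) = n := by
    rw [Subgroup.card_eq_card_quotient_mul_card_subgroup Z]
    push_cast
    rw [mul_div_cancel_right₀ _ hZpos.ne']
  have hn1 : 1 ≤ n := by
    have : 0 < Nat.card (Γ ⧸ Z) := Nat.card_pos
    rw [hn]
    exact_mod_cast this
  have hn0 : 0 < n := by linarith
  rw [horb, Nat.cast_one, one_mul, one_mul] at hdec
  have hr : C * Real.exp ((1 - γ) * Real.log n) ≤ max C 1 * n ^ (1 - min γ 1) := by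
    have e1 : Real.exp ((1 - γ) * Real.log n) = n ^ (1 - γ) := by
      rw [Real.rpow_def_of_pos hn0, mul_comm]
    rw [e1]
    refine mul_le_mul (le_max_left _ _) ?_ (by positivity) (by positivity)
    exact Real.rpow_le_rpow_of_exponent_le hn1 (by linarith [min_le_left γ 1])
  have hs : Real.exp (8 * (δ / 8) * Real.log n) = n ^ δ := by
    rw [Real.rpow_def_of_pos hn0]
    congr 1
    ring
  rw [hs] at hdec
  have hR := (rdec_of_dec hdec).mono hr (le_refl _)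
  have hsub := hR.submatrix (by positivity) ht (fun x => ((α x : Γ) : Γ ⧸ Z))
    (fun y => ((β y : Γ) : Γ ⧸ Z)) ?_ ?_
  · rw [hcard]
    have : (Matrix.of fun x y => h (α x * (β y)⁻¹)) = (Matrix.of K).submatrix
        (fun x => ((α x : Γ) : Γ ⧸ Z)) (fun y => ((β y : Γ) : Γ ⧸ Z)) := by
      ext x y
      rw [Matrix.submatrix_apply, Matrix.of_apply, Matrix.of_apply]
      simp only [hK]
      rw [← QuotientGroup.mk_inv, ← QuotientGroup.mk_mul, hout]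
    rw [this]
    exact hsub
  · intro a
    by_cases hne : ∃ x₀, ((α x₀ : Γ) : Γ ⧸ Z) = a
    · obtain ⟨x₀, hx₀⟩ := hne
      refine le_trans ?_ (hα x₀)
      have : ({x' | ((α x' : Γ) : Γ ⧸ Z) = a} : Set X) = {x | α x * (α x₀)⁻¹ ∈ Z} := by
        ext x
        rw [Set.mem_ofPred_eq, Set.mem_ofPred_eq, ← hx₀, eq_comm, QuotientGroup.eq, mul_comm]
      rw [this]
    · have : ({x' | ((α x' : Γ) : Γ ⧸ Z) = a} : Set X) = ∅ := by
        ext x
        simp only [Set.mem_ofPred_eq, Set.mem_empty_iff_false, iff_false]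
        exact fun hx => hne ⟨x, hx⟩
      rw [this, Set.ncard_empty]
      simpa using ht
  · intro a
    by_cases hne : ∃ x₀, ((β x₀ : Γ) : Γ ⧸ Z) = a
    · obtain ⟨x₀, hx₀⟩ := hne
      refine le_trans ?_ (hβ x₀)
      have : ({x' | ((β x' : Γ) : Γ ⧸ Z) = a} : Set Y) = {x | β x * (β x₀)⁻¹ ∈ Z} := by
        ext x
        rw [Set.mem_ofPred_eq, Set.mem_ofPred_eq, ← hx₀, eq_comm, QuotientGroup.eq, mul_comm]
      rw [this]
    · have : ({x' | ((β x' : Γ) : Γ ⧸ Z) = a} : Set Y) = ∅ := by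
        ext x
        simp only [Set.mem_ofPred_eq, Set.mem_empty_iff_false, iff_false]
        exact fun hx => hne ⟨x, hx⟩
      rw [this, Set.ncard_empty]
      simpa using ht

end MP0775d3.Sl2
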