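import Pool.Agent.Lib.MP_0775d3_lc.Sl2.Real

/-! The statement over `ℝ` and `ℂ` with named definitions. -/

set_option linter.unusedSectionVars false

namespace MP0775d3.Sl2

open Matrix MP0775d3.Kron

/-- `G` is a homomorphic image of a group `N` of invertible `2 × 2` matrices over a finite field `k`
that contains `SL₂(k)`. -/
def IsSL2Type (G : Type) [Group G] : Prop :=
  ∃ (k : Type) (_ : Field k) (_ : Finite k) (N : Type) (_ : Group N)
    (ι : N →* Matrix (Fin 2) (Fin 2) k) (φ : N →* G),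
    Function.Injective ι ∧ (∀ M : Matrix (Fin 2) (Fin 2) k, M.det = 1 → ∃ g : N, ι g = M) ∧
      Function.Surjective φ

/-- `f` is a class function on the group `G`. -/
def IsClassFun {G F : Type} [Group G] (f : G → F) : Prop := ∀ g x : G, f (g * x * g⁻¹) = f x

/-- The matrix with entries `f (x y⁻¹)`. -/
def groupMat {G F : Type} [Group G] (f : G → F) : Matrix G G F :=
  Matrix.of fun x y => f (x * y⁻¹)

theorem main_statement (δ : ℝ) (hδ : 0 < δ) : ∃ γ : ℝ, 0 < γ ∧ ∃ n₀ : ℕ,
    ∀ (G : Type) [Group G] [Fintype G], IsSL2Type G → n₀ ≤ Fintype.card G →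
    ∀ (F : Type) [RCLike F] (f : G → F), IsClassFun f →
      Dec (groupMat f) ((Fintype.card G : ℝ) ^ (1 - γ)) ((Fintype.card G : ℝ) ^ δ) := by
  classical
  obtain ⟨γ, hγ, n₀, h⟩ := main_rclike δ hδ
  refine ⟨γ, hγ, n₀, ?_⟩
  rintro G _ _ ⟨k, _, _, N, _, ι, φ, hι, hN, hφ⟩ hn F _ f hf
  set ι' : N →* GL (Fin 2) k := ι.toHomUnits with hι'
  have hval : ∀ g : N, ((ι' g : GL (Fin 2) k) : Matrix (Fin 2) (Fin 2) k) = ι g := fun g => rfl
  have hinj : Function.Injective ι' := by
    intro a b hab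
    apply hι
    rw [← hval, ← hval, hab]
  let e : N ≃* ι'.range := MonoidHom.ofInjective hinj
  refine h k ι'.range ?_ G (φ.comp e.symm.toMonoidHom) ?_ hn F f hf
  · intro g hg
    obtain ⟨a, ha⟩ := hN (g : Matrix (Fin 2) (Fin 2) k) (by
      have := congrArg (fun u : kˣ => (u : k)) hg
      simpa using this)
    exact ⟨a, Units.ext ((hval a).trans ha)⟩
  · intro y
    obtain ⟨x, rfl⟩ := hφ y
    exact ⟨e x, by simp⟩

end MP0775d3.Sl2
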