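import Mathlib

/-! Kernels of homomorphisms from groups between `SL₂(k)` and `GL₂(k)`. -/

set_option linter.unusedSectionVars false

namespace MP0775d3.Sl2

open Matrix

private theorem kerAlt_perfect {k : Type} [Field k] [Fintype k] [DecidableEq k]
    (hq : 4 ≤ Fintype.card k) :
    commutator (Matrix.SpecialLinearGroup (Fin 2) k) = ⊤ := by
  obtain ⟨x, hx⟩ : IsCyclic kˣ := by infer_instance
  refine Matrix.SL2.commutator_eq_top (a := (x : k)) (Units.ne_zero x)
    fun h => ?_
  have h1 : Nat.card k = Nat.card kˣ + 1 := Nat.card_eq_card_units_add_one k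
  have h2 : orderOf x = Nat.card kˣ := orderOf_eq_card_of_forall_mem_zpowers hx
  have h3 : orderOf x ≤ 2 := orderOf_le_of_pow_eq_one zero_lt_two (Units.ext <| by simpa using h)
  rw [Nat.card_eq_fintype_card] at h1
  omega

/-- The kernel of a homomorphism on `SL₂(k)` is everything or central. -/
private theorem kerAlt_dich {k : Type} [Field k] [Fintype k] [DecidableEq k]
    (hq : 4 ≤ Fintype.card k) {G : Type} [Group G]
    (f : Matrix.SpecialLinearGroup (Fin 2) k →* G) :
    (∀ s, f s = 1) ∨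
    (∀ s, f s = 1 → s ∈ Subgroup.center (Matrix.SpecialLinearGroup (Fin 2) k)) := by
  have hsim : IsSimpleGroup (Matrix.ProjectiveSpecialLinearGroup (Fin 2) k) :=
    Matrix.ProjectiveSpecialLinearGroup.rank_two_simple (by rwa [Nat.card_eq_fintype_card])
  have hn : (Subgroup.map (QuotientGroup.mk' (Subgroup.center
      (Matrix.SpecialLinearGroup (Fin 2) k))) f.ker).Normal :=
    Subgroup.Normal.map f.normal_ker _ (QuotientGroup.mk'_surjective _)
  rcases hsim.eq_bot_or_eq_top_of_normal _ hn with h | h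
  · right
    intro s hs
    have h1 : QuotientGroup.mk' (Subgroup.center (Matrix.SpecialLinearGroup (Fin 2) k)) s ∈
        Subgroup.map (QuotientGroup.mk' (Subgroup.center
          (Matrix.SpecialLinearGroup (Fin 2) k))) f.ker :=
      Subgroup.mem_map_of_mem _ (f.mem_ker.2 hs)
    rw [h, Subgroup.mem_bot] at h1
    exact (QuotientGroup.eq_one_iff s).1 h1
  · left
    have h1 : ∀ s : Matrix.SpecialLinearGroup (Fin 2) k,
        ∃ z ∈ Subgroup.center (Matrix.SpecialLinearGroup (Fin 2) k), f s = f z := by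
      intro s
      have h2 : QuotientGroup.mk' (Subgroup.center (Matrix.SpecialLinearGroup (Fin 2) k)) s ∈
          Subgroup.map (QuotientGroup.mk' (Subgroup.center
            (Matrix.SpecialLinearGroup (Fin 2) k))) f.ker := by
        rw [h]; exact Subgroup.mem_top _
      obtain ⟨t, ht, hts⟩ := h2
      have h3 : t⁻¹ * s ∈ Subgroup.center (Matrix.SpecialLinearGroup (Fin 2) k) :=
        QuotientGroup.eq.1 hts
      refine ⟨t⁻¹ * s, h3, ?_⟩
      have ht1 : f t = 1 := f.mem_ker.1 ht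
      rw [map_mul, map_inv, ht1, inv_one, one_mul]
    have h2 : commutator (Matrix.SpecialLinearGroup (Fin 2) k) ≤ f.ker := by
      rw [commutator_def, Subgroup.commutator_le]
      intro s _ t _
      obtain ⟨z, hz, hsz⟩ := h1 s
      obtain ⟨w, hw, htw⟩ := h1 t
      rw [f.mem_ker, commutatorElement_def, map_mul, map_mul, map_mul, map_inv, map_inv, hsz,
        htw, ← map_inv, ← map_inv, ← map_mul, ← map_mul, ← map_mul]
      have h4 : z * w * z⁻¹ * w⁻¹ = 1 := by
        rw [(Subgroup.mem_center_iff.1 hz w).symm]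
        group
      rw [h4, map_one]
    intro s
    have h3 : s ∈ commutator (Matrix.SpecialLinearGroup (Fin 2) k) := by
      rw [kerAlt_perfect hq]; exact Subgroup.mem_top _
    exact f.mem_ker.1 (h2 h3)

/-- Let `SL₂(k) ≤ N ≤ GL₂(k)`, `|k| ≥ 4`. A homomorphism on `N` has a kernel that consists of
scalar matrices or contains `SL₂(k)`. -/
theorem ker_scalar_or {k : Type} [Field k] [Fintype k] [DecidableEq k] (hq : 4 ≤ Fintype.card k)
    (N : Subgroup (GL (Fin 2) k))
    (hN : ∀ g : GL (Fin 2) k, Matrix.GeneralLinearGroup.det g = 1 → g ∈ N)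
    {G : Type} [Group G] (φ : N →* G) :
    (∀ x : N, φ x = 1 → ∃ c : kˣ,
      (x : GL (Fin 2) k) = Matrix.GeneralLinearGroup.scalar (Fin 2) c) ∨
    (∀ x : N, Matrix.GeneralLinearGroup.det (x : GL (Fin 2) k) = 1 → φ x = 1) := by
  have hdet : ∀ s : Matrix.SpecialLinearGroup (Fin 2) k,
      Matrix.GeneralLinearGroup.det (Matrix.SpecialLinearGroup.toGL s) = 1 := by
    intro s
    ext
    simp
  let ψ : Matrix.SpecialLinearGroup (Fin 2) k →* N :=
    Matrix.SpecialLinearGroup.toGL.codRestrict N fun s => hN _ (hdet s)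
  have hψ : ∀ s, ((ψ s : N) : GL (Fin 2) k) = Matrix.SpecialLinearGroup.toGL s := fun s => rfl
  have hsurj : ∀ x : N, Matrix.GeneralLinearGroup.det (x : GL (Fin 2) k) = 1 →
      ∃ s, ψ s = x := by
    intro x hx
    have hx' : ((x : GL (Fin 2) k) : Matrix (Fin 2) (Fin 2) k).det = 1 := by
      have := congrArg Units.val hx
      simpa using this
    refine ⟨⟨((x : GL (Fin 2) k) : Matrix (Fin 2) (Fin 2) k), hx'⟩, ?_⟩
    apply Subtype.ext
    rw [hψ]
    apply Units.ext
    rfl
  rcases kerAlt_dich hq (φ.comp ψ) with h | h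
  · right
    intro x hx
    obtain ⟨s, rfl⟩ := hsurj x hx
    exact h s
  · left
    intro x hx
    -- the conjugate of `ψ s` by `x` is `ψ (z s)` with `z` central
    have hz : ∀ s, ∃ z ∈ Subgroup.center (Matrix.SpecialLinearGroup (Fin 2) k),
        x * ψ s * x⁻¹ = ψ (z * s) := by
      intro s
      have h1 : Matrix.GeneralLinearGroup.det
          ((x * ψ s * x⁻¹ * (ψ s)⁻¹ : N) : GL (Fin 2) k) = 1 := by
        rw [Subgroup.coe_mul, Subgroup.coe_mul, Subgroup.coe_mul, Subgroup.coe_inv,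
          Subgroup.coe_inv, hψ, map_mul, map_mul, map_mul, map_inv, map_inv, hdet]
        simp
      obtain ⟨z, hz⟩ := hsurj _ h1
      refine ⟨z, h z ?_, ?_⟩
      · change φ (ψ z) = 1
        rw [hz, map_mul, map_mul, map_mul, map_inv, map_inv, hx]
        simp
      · rw [map_mul, hz]
        group
    let C : Subgroup (Matrix.SpecialLinearGroup (Fin 2) k) :=
      (Subgroup.centralizer {x}).comap ψ
    have hC : commutator (Matrix.SpecialLinearGroup (Fin 2) k) ≤ C := by
      rw [commutator_def, Subgroup.commutator_le]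
      intro s _ t _
      obtain ⟨z, hz1, hz2⟩ := hz s
      obtain ⟨w, hw1, hw2⟩ := hz t
      rw [commutatorElement_def, Subgroup.mem_comap, Subgroup.mem_centralizer_singleton_iff]
      have h3 : x * ψ (s * t * s⁻¹ * t⁻¹) * x⁻¹ = ψ (s * t * s⁻¹ * t⁻¹) := by
        have h4 : x * ψ (s * t * s⁻¹ * t⁻¹) * x⁻¹ = (x * ψ s * x⁻¹) * (x * ψ t * x⁻¹) *
            (x * ψ s * x⁻¹)⁻¹ * (x * ψ t * x⁻¹)⁻¹ := by
          rw [map_mul, map_mul, map_mul, map_inv, map_inv]
          group
        rw [h4, hz2, hw2, ← map_inv, ← map_inv, ← map_mul, ← map_mul, ← map_mul]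
        congr 1
        have hz3 := Subgroup.mem_center_iff.1 hz1
        have hw3 := Subgroup.mem_center_iff.1 hw1
        rw [_root_.mul_inv_rev, _root_.mul_inv_rev]
        calc z * s * (w * t) * (s⁻¹ * z⁻¹) * (t⁻¹ * w⁻¹)
            = z * (s * w) * (t * (s⁻¹ * z⁻¹) * (t⁻¹ * w⁻¹)) := by group
          _ = z * (w * s) * (t * (s⁻¹ * z⁻¹) * (t⁻¹ * w⁻¹)) := by rw [hw3 s]
          _ = (z * w) * (s * t * s⁻¹ * z⁻¹ * t⁻¹ * w⁻¹) := by group
          _ = (w * z) * (s * t * s⁻¹ * z⁻¹ * t⁻¹ * w⁻¹) := by rw [hw3 z]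
          _ = w * (z * (s * t * s⁻¹)) * (z⁻¹ * t⁻¹ * w⁻¹) := by group
          _ = w * ((s * t * s⁻¹) * z) * (z⁻¹ * t⁻¹ * w⁻¹) := by rw [hz3 (s * t * s⁻¹)]
          _ = w * (s * t * s⁻¹ * t⁻¹) * w⁻¹ := by group
          _ = (s * t * s⁻¹ * t⁻¹) * w * w⁻¹ := by rw [← hw3 (s * t * s⁻¹ * t⁻¹)]
          _ = s * t * s⁻¹ * t⁻¹ := by group
      symm
      calc x * ψ (s * t * s⁻¹ * t⁻¹) = (x * ψ (s * t * s⁻¹ * t⁻¹) * x⁻¹) * x := by group
        _ = ψ (s * t * s⁻¹ * t⁻¹) * x := by rw [h3]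
    have hcom : ∀ s, x * ψ s = ψ s * x := by
      intro s
      have h3 : s ∈ commutator (Matrix.SpecialLinearGroup (Fin 2) k) := by
        rw [kerAlt_perfect hq]; exact Subgroup.mem_top _
      have h4 := hC h3
      rw [Subgroup.mem_comap, Subgroup.mem_centralizer_singleton_iff] at h4
      exact h4.symm
    have hcm : ∀ s : Matrix.SpecialLinearGroup (Fin 2) k,
        ((x : GL (Fin 2) k) : Matrix (Fin 2) (Fin 2) k) * (s : Matrix (Fin 2) (Fin 2) k) =
          (s : Matrix (Fin 2) (Fin 2) k) * ((x : GL (Fin 2) k) : Matrix (Fin 2) (Fin 2) k) := by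
      intro s
      have h1 := congrArg (fun y : N => ((y : GL (Fin 2) k) : Matrix (Fin 2) (Fin 2) k)) (hcom s)
      exact h1
    set M : Matrix (Fin 2) (Fin 2) k := ((x : GL (Fin 2) k) : Matrix (Fin 2) (Fin 2) k) with hM
    have h1 := hcm ⟨!![1, 1; 0, 1], by simp [Matrix.det_fin_two_of]⟩
    have h2 := hcm ⟨!![1, 0; 1, 1], by simp [Matrix.det_fin_two_of]⟩
    have e1 := congrFun (congrFun h1 0) 0
    have e2 := congrFun (congrFun h1 0) 1
    have e3 := congrFun (congrFun h2 0) 0
    simp [Matrix.mul_apply, Fin.sum_univ_two] at e1 e2 e3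
    have hdetM : M.det ≠ 0 := by
      have := (Matrix.isUnit_iff_isUnit_det _).1 (x : GL (Fin 2) k).isUnit
      exact this.ne_zero
    rw [Matrix.det_fin_two] at hdetM
    have h00 : M 0 0 ≠ 0 := by
      intro h0
      apply hdetM
      rw [h0, e3]
      ring
    refine ⟨Units.mk0 (M 0 0) h00, ?_⟩
    apply Units.ext
    rw [Matrix.GeneralLinearGroup.coe_scalar]
    ext i j
    fin_cases i <;> fin_cases j
    · simp [← hM]
    · simp [← hM, e3]
    · simp [← hM, e1]
    · have e4 : M 1 1 = M 0 0 := by linear_combination -e2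
      simp [← hM, e4]

end MP0775d3.Sl2
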