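import Pool.Agent.Lib.MP_0775d3_lc.Sl2.Final
import Pool.Agent.Lib.MP_0775d3_lc.Sl2.KerAlt
import Pool.Agent.Lib.MP_0775d3_lc.Kron.Final

/-! All homomorphic images of groups between `SL₂(k)` and `GL₂(k)`. -/

set_option linter.unusedSectionVars false

namespace MP0775d3.Sl2

open Matrix MP0775d3.Kron

theorem main_group (δ : ℝ) (hδ : 0 < δ) : ∃ γ : ℝ, 0 < γ ∧ ∃ n₀ : ℕ,
    ∀ (k : Type) [Field k] [Fintype k] [DecidableEq k] (N : Subgroup (GL (Fin 2) k))
      (_ : ∀ g : GL (Fin 2) k, Matrix.GeneralLinearGroup.det g = 1 → g ∈ N)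
      (G : Type) [Group G] [Fintype G] [DecidableEq G] (φ : N →* G) (_ : Function.Surjective φ),
      n₀ ≤ Fintype.card G → ∀ f : G → ℂ, (∀ g x, f (g * x * g⁻¹) = f x) →
      Dec (Matrix.of fun x y : G => f (x * y⁻¹)) ((Fintype.card G : ℝ) ^ (1 - γ))
        ((Fintype.card G : ℝ) ^ δ) := by
  obtain ⟨γ₁, hγ₁, n₁, h₁⟩ := main_scalar δ hδ
  obtain ⟨γ₂, hγ₂, n₂, h₂⟩ := partA.{0, 0} δ hδ
  refine ⟨min γ₁ γ₂, lt_min hγ₁ hγ₂, max n₁ (max n₂ 256), ?_⟩
  intro k _ _ _ N hN G _ _ _ φ hφ hn f hf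
  have hn1 : n₁ ≤ Fintype.card G := (le_max_left _ _).trans hn
  have hn2 : n₂ ≤ Fintype.card G := (le_max_left _ _).trans ((le_max_right _ _).trans hn)
  have hn3 : 256 ≤ Fintype.card G := (le_max_right _ _).trans ((le_max_right _ _).trans hn)
  have hn4 : (1 : ℝ) ≤ Fintype.card G := by
    have : 1 ≤ Fintype.card G := by omega
    exact_mod_cast this
  have hcardGL : Nat.card (GL (Fin 2) k) ≤ Fintype.card k ^ 4 := by
    have h3 : Nat.card (GL (Fin 2) k) ≤ Nat.card (Matrix (Fin 2) (Fin 2) k) :=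
      Nat.card_le_card_of_injective (fun g : GL (Fin 2) k => (g : Matrix (Fin 2) (Fin 2) k))
        Units.val_injective
    have h4 : Nat.card (Matrix (Fin 2) (Fin 2) k) = Fintype.card k ^ 4 := by
      rw [Nat.card_eq_fintype_card]
      show Fintype.card (Fin 2 → Fin 2 → k) = _
      rw [Fintype.card_fun, Fintype.card_fun, Fintype.card_fin, ← pow_mul]
    rwa [h4] at h3
  have hGk : Fintype.card G ≤ Fintype.card k ^ 4 := by
    have h5 : Nat.card G ≤ Nat.card N := Nat.card_le_card_of_surjective φ hφ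
    have h6 : Nat.card N ≤ Nat.card (GL (Fin 2) k) :=
      Nat.card_le_card_of_injective _ Subtype.val_injective
    rw [Nat.card_eq_fintype_card (α := G)] at h5
    exact h5.trans (h6.trans hcardGL)
  have hq : 4 ≤ Fintype.card k := by
    by_contra hcon
    have h5 : Fintype.card k ≤ 3 := by omega
    have h6 : Fintype.card k ^ 4 ≤ 3 ^ 4 := Nat.pow_le_pow_left h5 4
    omega
  rcases ker_scalar_or hq N hN φ with h | h
  · refine (h₁ k N hN G φ hφ h hn1 f hf).mono ?_ le_rfl
    exact Real.rpow_le_rpow_of_exponent_le hn4 (by linarith [min_le_left γ₁ γ₂])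
  · -- `G` is abelian
    have hcomm : ∀ x y : G, x * y = y * x := by
      intro x y
      obtain ⟨x', rfl⟩ := hφ x
      obtain ⟨y', rfl⟩ := hφ y
      have h5 : φ (x' * y' * x'⁻¹ * y'⁻¹) = 1 := by
        apply h
        rw [Subgroup.coe_mul, Subgroup.coe_mul, Subgroup.coe_mul, Subgroup.coe_inv,
          Subgroup.coe_inv, map_mul, map_mul, map_mul, map_inv, map_inv]
        rw [mul_comm (Matrix.GeneralLinearGroup.det (x' : GL (Fin 2) k)), mul_inv_cancel_right,
          mul_inv_cancel]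
      rw [map_mul, map_mul, map_mul, map_inv, map_inv] at h5
      have h6 := mul_inv_eq_one.mp h5
      have h7 := mul_inv_eq_iff_eq_mul.mp h6
      exact h7
    set n := Fintype.card G with hndef
    let e : Fin n ≃ G := (Fintype.equivFin G).symm
    have h5 := partC δ γ₂ n ℂ (fun A X _ _ _ _ => h₂ n hn2 ℂ A X) G (⊤ : Subgroup G)
      (fun g _ h _ => hcomm g h) (by
        rw [Subgroup.index_top, Nat.cast_one]
        exact Real.one_le_rpow hn4 (by positivity)) (by
        rw [Nat.card_eq_fintype_card]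
        calc (n : ℝ) = (n : ℝ) ^ (1 : ℝ) := (Real.rpow_one _).symm
          _ ≤ (n : ℝ) ^ (1 + γ₂) := Real.rpow_le_rpow_of_exponent_le hn4 (by linarith))
      e e e.injective e.injective f
    have h6 := (h5.submatrix e.symm e.symm).mono
      (Real.rpow_le_rpow_of_exponent_le hn4 (by linarith [min_le_right γ₁ γ₂] :
        1 - γ₂ ≤ 1 - min γ₁ γ₂)) (le_refl _)
    refine Eq.subst (motive := fun M => Dec M _ _) ?_ h6
    ext x y
    simp [e]

end MP0775d3.Sl2
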