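import Pool.Agent.Lib.MP_0775d3_lc.Sl2.Group
import Pool.Agent.Lib.MP_0775d3_lc.Kron.Descend

/-! The version over `ℝ` and `ℂ`. -/

set_option linter.unusedSectionVars false

namespace MP0775d3.Sl2

open Matrix MP0775d3.Kron

theorem dec_ringEquiv {F E : Type*} [Field F] [Field E] {X : Type*} [Fintype X] [DecidableEq X]
    (e : F ≃+* E) (M : Matrix X X F) {r s : ℝ} (h : Dec (M.map e) r s) : Dec M r s := by
  letI : Algebra F E := e.toRingHom.toAlgebra
  let L : F ≃ₗ[F] E :=
    { toFun := e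
      map_add' := map_add e
      map_smul' := fun a b => map_mul e a b
      invFun := e.symm
      left_inv := e.symm_apply_apply
      right_inv := e.apply_symm_apply }
  haveI : FiniteDimensional F E := Module.Finite.equiv L
  have h1 : Module.finrank F E = 1 := by
    rw [← L.finrank_eq, Module.finrank_self]
  have h2 := descend (F := F) (E := E) M h
  rwa [h1, Nat.cast_one, one_mul] at h2

/-- A decomposition over `ℂ` gives one over `F = ℝ` or `F = ℂ`. -/
theorem dec_rclike {F : Type*} [RCLike F] {X : Type*} [Fintype X] [DecidableEq X]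
    (M : Matrix X X F) {r s : ℝ} (hr : 0 ≤ r)
    (h : Dec (M.map fun z => ((RCLike.re z : ℝ) : ℂ) + ((RCLike.im z : ℝ) : ℂ) * Complex.I) r s) :
    Dec M (2 * r) s := by
  rcases RCLike.I_eq_zero_or_im_I_eq_one (K := F) with hI | hI
  · have h1 : Dec (M.map (RCLike.realRingEquiv hI)) (2 * r) s := by
      have h2 := descend (F := ℝ) (E := ℂ) (M.map (RCLike.realRingEquiv hI)) (r := r) (s := s) (by
        refine Eq.subst (motive := fun A => Dec A r s) ?_ h
        ext x y
        rw [Matrix.map_apply, Matrix.map_apply, Matrix.map_apply, RCLike.im_eq_zero hI]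
        simp)
      rwa [Complex.finrank_real_complex, Nat.cast_ofNat] at h2
    exact dec_ringEquiv _ M h1
  · have h1 : Dec (M.map (RCLike.complexRingEquiv hI)) r s := h
    exact (dec_ringEquiv _ M h1).mono (by linarith) le_rfl

theorem main_rclike (δ : ℝ) (hδ : 0 < δ) : ∃ γ : ℝ, 0 < γ ∧ ∃ n₀ : ℕ,
    ∀ (k : Type) [Field k] [Finite k] (N : Subgroup (GL (Fin 2) k))
      (_ : ∀ g : GL (Fin 2) k, Matrix.GeneralLinearGroup.det g = 1 → g ∈ N)
      (G : Type) [Group G] [Fintype G] [DecidableEq G] (φ : N →* G) (_ : Function.Surjective φ),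
      n₀ ≤ Fintype.card G → ∀ (F : Type) [RCLike F] (f : G → F), (∀ g x, f (g * x * g⁻¹) = f x) →
      Dec (Matrix.of fun x y : G => f (x * y⁻¹)) ((Fintype.card G : ℝ) ^ (1 - γ))
        ((Fintype.card G : ℝ) ^ δ) := by
  classical
  obtain ⟨γ, hγ, n₁, h₁⟩ := main_group δ hδ
  obtain ⟨n₂, hn₂⟩ : ∃ n₂ : ℕ, (2 : ℝ) ^ (2 / γ) ≤ n₂ := exists_nat_ge _
  refine ⟨γ / 2, by positivity, max n₁ (max n₂ 1), ?_⟩
  intro k _ _ N hN G _ _ _ φ hφ hn F _ f hf
  have hn1 : n₁ ≤ Fintype.card G := (le_max_left _ _).trans hn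
  have hn2 : n₂ ≤ Fintype.card G := (le_max_left _ _).trans ((le_max_right _ _).trans hn)
  have hn3 : 1 ≤ Fintype.card G := (le_max_right _ _).trans ((le_max_right _ _).trans hn)
  haveI : Fintype k := Fintype.ofFinite k
  set n : ℝ := (Fintype.card G : ℝ) with hndef
  have hn0 : 0 < n := by
    have : 0 < Fintype.card G := hn3
    rw [hndef]
    exact_mod_cast this
  have h2 : (2 : ℝ) ≤ n ^ (γ / 2) := by
    have h3 : (2 : ℝ) ^ (2 / γ) ≤ n := hn₂.trans (by rw [hndef]; exact_mod_cast hn2)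
    have h4 : ((2 : ℝ) ^ (2 / γ)) ^ (γ / 2) ≤ n ^ (γ / 2) :=
      Real.rpow_le_rpow (by positivity) h3 (by positivity)
    rw [← Real.rpow_mul (by norm_num)] at h4
    have h5 : 2 / γ * (γ / 2) = 1 := by field_simp
    rwa [h5, Real.rpow_one] at h4
  have key := h₁ k N hN G φ hφ hn1
    (fun g => ((RCLike.re (f g) : ℝ) : ℂ) + ((RCLike.im (f g) : ℝ) : ℂ) * Complex.I)
    (fun g x => by simp only [hf])
  have h3 : Dec ((Matrix.of fun x y : G => f (x * y⁻¹)).map fun z =>
      ((RCLike.re z : ℝ) : ℂ) + ((RCLike.im z : ℝ) : ℂ) * Complex.I) (n ^ (1 - γ)) (n ^ δ) := key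
  refine (dec_rclike _ (by positivity) h3).mono ?_ le_rfl
  calc 2 * n ^ (1 - γ) ≤ n ^ (γ / 2) * n ^ (1 - γ) :=
        mul_le_mul_of_nonneg_right h2 (by positivity)
    _ = n ^ (1 - γ / 2) := by
        rw [← Real.rpow_add hn0]
        congr 1
        ring

end MP0775d3.Sl2
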