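import Pool.Agent.Lib.MP_0775d3_lc.Sl2.Defs

/-! Fourier inversion on `k × k`. -/

set_option linter.unusedSectionVars false

namespace MP0775d3.Sl2

open Matrix

variable {k : Type} [Field k] [Fintype k] [DecidableEq k]

/-- Fourier inversion on `k × k`. -/
theorem inversion (ψ : AddChar k ℂ) (hψ : ψ ≠ 1) (g : k → k → ℂ) (U V : k) :
    (Fintype.card k : ℂ) ^ 2 * g U V =
      ∑ ξ : k, ∑ ζ : k, ψ (-(ξ * U + ζ * V)) * ∑ p : k, ∑ r : k, g p r * ψ (ξ * p + ζ * r) := by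
  have hp : ψ.IsPrimitive := AddChar.IsPrimitive.of_ne_one hψ
  have h1 : ∀ ξ ζ : k, ψ (-(ξ * U + ζ * V)) * ∑ p : k, ∑ r : k, g p r * ψ (ξ * p + ζ * r) =
      ∑ p : k, ∑ r : k, g p r * (ψ (ξ * (p - U)) * ψ (ζ * (r - V))) := by
    intro ξ ζ
    rw [Finset.mul_sum]
    refine Finset.sum_congr rfl fun p _ => ?_
    rw [Finset.mul_sum]
    refine Finset.sum_congr rfl fun r _ => ?_
    rw [mul_left_comm, ← AddChar.map_add_eq_mul, ← AddChar.map_add_eq_mul]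
    congr 2
    ring
  simp_rw [h1]
  have h2 : ∑ ξ : k, ∑ ζ : k, ∑ p : k, ∑ r : k, g p r * (ψ (ξ * (p - U)) * ψ (ζ * (r - V))) =
      ∑ p : k, ∑ r : k, g p r * ((∑ ξ : k, ψ (ξ * (p - U))) * ∑ ζ : k, ψ (ζ * (r - V))) := by
    calc ∑ ξ : k, ∑ ζ : k, ∑ p : k, ∑ r : k, g p r * (ψ (ξ * (p - U)) * ψ (ζ * (r - V)))
        = ∑ ξ : k, ∑ p : k, ∑ ζ : k, ∑ r : k, g p r * (ψ (ξ * (p - U)) * ψ (ζ * (r - V))) := by
          refine Finset.sum_congr rfl fun ξ _ => Finset.sum_comm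
      _ = ∑ p : k, ∑ ξ : k, ∑ ζ : k, ∑ r : k, g p r * (ψ (ξ * (p - U)) * ψ (ζ * (r - V))) :=
          Finset.sum_comm
      _ = ∑ p : k, ∑ ξ : k, ∑ r : k, ∑ ζ : k, g p r * (ψ (ξ * (p - U)) * ψ (ζ * (r - V))) := by
          refine Finset.sum_congr rfl fun p _ => Finset.sum_congr rfl fun ξ _ => Finset.sum_comm
      _ = ∑ p : k, ∑ r : k, ∑ ξ : k, ∑ ζ : k, g p r * (ψ (ξ * (p - U)) * ψ (ζ * (r - V))) := by
          refine Finset.sum_congr rfl fun p _ => Finset.sum_comm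
      _ = ∑ p : k, ∑ r : k, g p r * ((∑ ξ : k, ψ (ξ * (p - U))) * ∑ ζ : k, ψ (ζ * (r - V))) := by
          refine Finset.sum_congr rfl fun p _ => Finset.sum_congr rfl fun r _ => ?_
          rw [Finset.sum_mul_sum, Finset.mul_sum]
          refine Finset.sum_congr rfl fun ξ _ => ?_
          rw [Finset.mul_sum]
  rw [h2]
  simp_rw [AddChar.sum_mulShift _ hp, sub_eq_zero]
  rw [Finset.sum_eq_single U]
  · rw [Finset.sum_eq_single V]
    · simp
      ring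
    · intro r _ hr
      rw [if_neg hr]
      simp
    · intro h
      exact absurd (Finset.mem_univ _) h
  · intro p _ hp'
    refine Finset.sum_eq_zero fun r _ => ?_
    rw [if_neg hp']
    simp
  · intro h
    exact absurd (Finset.mem_univ _) h

theorem exists_char (k : Type) [Field k] [Fintype k] : ∃ ψ : AddChar k ℂ, ψ ≠ 1 := by
  obtain ⟨ψ, hψ⟩ := AddChar.exists_apply_ne_zero.2 (one_ne_zero (α := k))
  exact ⟨ψ, fun h => hψ (by rw [h]; simp)⟩

end MP0775d3.Sl2
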