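import Pool.Agent.Lib.MP_0775d3_lc.Sl2.Defs
import Pool.Agent.Lib.MP_0775d3_lc.Kron.Calc

/-! Calculus of rectangular matrices that are low rank plus sparse. -/

set_option linter.unusedSectionVars false
set_option linter.unusedVariables false
set_option linter.deprecated false

namespace MP0775d3.Sl2

open Matrix MP0775d3.Kron

variable {F : Type*} [Field F]
variable {X Y W : Type*} [Fintype X] [Fintype Y] [Fintype W]

private theorem rank_add_le' (A B : Matrix X Y F) : (A + B).rank ≤ A.rank + B.rank := by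
  unfold Matrix.rank
  have h : LinearMap.range (A + B).mulVecLin ≤
      LinearMap.range A.mulVecLin ⊔ LinearMap.range B.mulVecLin := by
    rintro _ ⟨v, rfl⟩
    rw [Matrix.mulVecLin_add, LinearMap.add_apply]
    exact Submodule.add_mem_sup ⟨v, rfl⟩ ⟨v, rfl⟩
  exact (Submodule.finrank_mono h).trans (Submodule.finrank_add_le_finrank_add_finrank _ _)

private theorem ncard_le_of_cover {T : Set W} {U : W → Set Y} {V : Set Y} {s t : ℝ}
    (ht : 0 ≤ t) (hT : (T.ncard : ℝ) ≤ s) (hU : ∀ z, ((U z).ncard : ℝ) ≤ t)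
    (hV : ∀ y ∈ V, ∃ z ∈ T, y ∈ U z) : (V.ncard : ℝ) ≤ s * t := by
  classical
  have h1 : V ⊆ ((T.toFinset.biUnion fun z => (U z).toFinset : Finset Y) : Set Y) := by
    intro y hy
    obtain ⟨z, hz, hyz⟩ := hV y hy
    rw [Finset.coe_biUnion, Set.mem_iUnion₂]
    exact ⟨z, by simpa using hz, by simpa using hyz⟩
  have h2 : V.ncard ≤ ∑ z ∈ T.toFinset, (U z).toFinset.card := by
    refine (Set.ncard_le_ncard h1 (Finset.finite_toSet _)).trans ?_
    rw [Set.ncard_coe_finset]
    exact Finset.card_biUnion_le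
  calc (V.ncard : ℝ) ≤ ((∑ z ∈ T.toFinset, (U z).toFinset.card : ℕ) : ℝ) := by exact_mod_cast h2
    _ = ∑ z ∈ T.toFinset, ((U z).toFinset.card : ℝ) := by push_cast; rfl
    _ ≤ ∑ z ∈ T.toFinset, t := by
        refine Finset.sum_le_sum fun z _ => ?_
        rw [← Set.ncard_eq_toFinset_card']
        exact hU z
    _ = (T.ncard : ℝ) * t := by
        rw [Finset.sum_const, nsmul_eq_mul, ← Set.ncard_eq_toFinset_card']
    _ ≤ s * t := mul_le_mul_of_nonneg_right hT ht

theorem RDec.mono {A : Matrix X Y F} {r s r' s' : ℝ} (h : RDec A r s) (hr : r ≤ r')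
    (hs : s ≤ s') : RDec A r' s' := by
  obtain ⟨R, S, h1, h2, h3, h4⟩ := h
  exact ⟨R, S, h1, h2.trans hr, fun x => (h3 x).trans hs, fun y => (h4 y).trans hs⟩

theorem rdec_of_dec [DecidableEq X] {A : Matrix X X F} {r s : ℝ} (h : Dec A r s) :
    RDec A r s := by
  obtain ⟨R, S, h1, h2, h3⟩ := h
  exact ⟨R, S, h1, h2, h3.1, h3.2⟩

theorem RDec.dec [DecidableEq X] {A : Matrix X X F} {r s : ℝ} (h : RDec A r s) :
    Dec A r s := by
  obtain ⟨R, S, h1, h2, h3, h4⟩ := h
  exact ⟨R, S, h1, h2, h3, h4⟩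

theorem rdec_zero : RDec (0 : Matrix X Y F) 0 0 := by
  refine ⟨0, 0, by rw [add_zero], by simp, ?_, ?_⟩ <;> intro x <;> simp

theorem RDec.add {A B : Matrix X Y F} {r s r' s' : ℝ} (h : RDec A r s) (h' : RDec B r' s') :
    RDec (A + B) (r + r') (s + s') := by
  obtain ⟨R, S, rfl, h2, h3, h4⟩ := h
  obtain ⟨R', S', rfl, h2', h3', h4'⟩ := h'
  have key : ∀ {Z : Type _} [Fintype Z] (f g : Z → F), (({y | f y + g y ≠ 0} : Set Z).ncard : ℝ) ≤
      (({y | f y ≠ 0} : Set Z).ncard : ℝ) + (({y | g y ≠ 0} : Set Z).ncard : ℝ) := by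
    intro Z _ f g
    have h1 : ({y | f y + g y ≠ 0} : Set Z) ⊆ {y | f y ≠ 0} ∪ {y | g y ≠ 0} := by
      intro y hy
      by_contra hcon
      simp only [Set.mem_union, Set.mem_setOf_eq, not_or, not_not] at hcon hy
      exact hy (by rw [hcon.1, hcon.2, add_zero])
    have h2 := (Set.ncard_le_ncard h1 (Set.toFinite _)).trans (Set.ncard_union_le _ _)
    exact_mod_cast h2
  have key2 : ∀ {Z : Type _} [Fintype Z] (f g : Z → F), (({y | f y + g y ≠ 0} : Set Z).ncard : ℝ) ≤
      (({y | f y ≠ 0} : Set Z).ncard : ℝ) + (({y | g y ≠ 0} : Set Z).ncard : ℝ) := by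
    intro Z _ f g
    have h1 : ({y | f y + g y ≠ 0} : Set Z) ⊆ {y | f y ≠ 0} ∪ {y | g y ≠ 0} := by
      intro y hy
      by_contra hcon
      simp only [Set.mem_union, Set.mem_setOf_eq, not_or, not_not] at hcon hy
      exact hy (by rw [hcon.1, hcon.2, add_zero])
    have h2 := (Set.ncard_le_ncard h1 (Set.toFinite _)).trans (Set.ncard_union_le _ _)
    exact_mod_cast h2
  refine ⟨R + R', S + S', by abel, ?_, ?_, ?_⟩
  · have h5 : ((R + R').rank : ℝ) ≤ R.rank + R'.rank := by exact_mod_cast rank_add_le' R R'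
    linarith
  · exact fun x => (key (S x) (S' x)).trans (add_le_add (h3 x) (h3' x))
  · exact fun y => (key2 (fun x => S x y) (fun x => S' x y)).trans (add_le_add (h4 y) (h4' y))

theorem RDec.smul {A : Matrix X Y F} {r s : ℝ} (h : RDec A r s) (c : F) :
    RDec (c • A) r s := by
  obtain ⟨R, S, rfl, h2, h3, h4⟩ := h
  refine ⟨c • R, c • S, by rw [smul_add], ?_, ?_, ?_⟩
  · classical
    have h5 : (c • R).rank ≤ R.rank := by
      rw [show c • R = (c • (1 : Matrix X X F)) * R by rw [Matrix.smul_mul, Matrix.one_mul]]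
      exact Matrix.rank_mul_le_right _ _
    exact le_trans (by exact_mod_cast h5) h2
  · intro x
    refine le_trans ?_ (h3 x)
    have h5 : ({y | (c • S) x y ≠ 0} : Set Y) ⊆ {y | S x y ≠ 0} := by
      intro y hy hy2
      apply hy
      rw [Matrix.smul_apply, hy2, smul_zero]
    exact_mod_cast Set.ncard_le_ncard h5 (Set.toFinite _)
  · intro y
    refine le_trans ?_ (h4 y)
    have h5 : ({x | (c • S) x y ≠ 0} : Set X) ⊆ {x | S x y ≠ 0} := by
      intro x hx hx2
      apply hx
      rw [Matrix.smul_apply, hx2, smul_zero]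
    exact_mod_cast Set.ncard_le_ncard h5 (Set.toFinite _)

theorem RDec.mul {A : Matrix X W F} {B : Matrix W Y F} {r s r' s' : ℝ} (hs : 0 ≤ s)
    (hs' : 0 ≤ s') (h : RDec A r s) (h' : RDec B r' s') : RDec (A * B) (r + r') (s * s') := by
  obtain ⟨R, S, rfl, h2, h3, h4⟩ := h
  obtain ⟨R', S', rfl, h2', h3', h4'⟩ := h'
  refine ⟨R * (R' + S') + S * R', S * S', ?_, ?_, ?_, ?_⟩
  · rw [Matrix.add_mul, Matrix.mul_add S, add_assoc]
  · have e1 : (R * (R' + S') + S * R').rank ≤ R.rank + R'.rank :=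
      (rank_add_le' _ _).trans (add_le_add (Matrix.rank_mul_le_left _ _)
        (Matrix.rank_mul_le_right _ _))
    have e2 : ((R * (R' + S') + S * R').rank : ℝ) ≤ R.rank + R'.rank := by exact_mod_cast e1
    linarith
  · intro x
    refine ncard_le_of_cover (U := fun z => {y | S' z y ≠ 0}) hs' (h3 x) h3' ?_
    intro y hy
    rw [Set.mem_setOf_eq, Matrix.mul_apply] at hy
    obtain ⟨z, _, hz⟩ := Finset.exists_ne_zero_of_sum_ne_zero hy
    exact ⟨z, left_ne_zero_of_mul hz, right_ne_zero_of_mul hz⟩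
  · intro y
    rw [mul_comm]
    refine ncard_le_of_cover (U := fun z => {x | S x z ≠ 0}) hs (h4' y) h4 ?_
    intro x hx
    rw [Set.mem_setOf_eq, Matrix.mul_apply] at hx
    obtain ⟨z, _, hz⟩ := Finset.exists_ne_zero_of_sum_ne_zero hx
    exact ⟨z, right_ne_zero_of_mul hz, left_ne_zero_of_mul hz⟩

theorem RDec.transpose {A : Matrix X Y F} {r s : ℝ} (h : RDec A r s) : RDec Aᵀ r s := by
  obtain ⟨R, S, rfl, h2, h3, h4⟩ := h
  exact ⟨Rᵀ, Sᵀ, by rw [Matrix.transpose_add], by rwa [Matrix.rank_transpose], h4, h3⟩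

private theorem rank_submatrix_le' {X' Y' : Type*} [Fintype X'] [Fintype Y'] (A : Matrix X Y F)
    (f : X' → X) (g : Y' → Y) : (A.submatrix f g).rank ≤ A.rank := by
  classical
  have h : A.submatrix f g = ((1 : Matrix X X F).submatrix f id) * A *
      ((1 : Matrix Y Y F).submatrix id g) := by
    ext x y
    simp [Matrix.mul_apply, Matrix.one_apply]
  rw [h]
  exact (Matrix.rank_mul_le_left _ _).trans (Matrix.rank_mul_le_right _ _)

/-- Pulling back along maps with fibres of size at most `t`. -/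
theorem RDec.submatrix {X' Y' : Type*} [Fintype X'] [Fintype Y'] {A : Matrix X Y F} {r s t : ℝ}
    (h : RDec A r s) (hs : 0 ≤ s) (ht : 0 ≤ t) (f : X' → X) (g : Y' → Y)
    (hf : ∀ x, (({x' | f x' = x} : Set X').ncard : ℝ) ≤ t)
    (hg : ∀ y, (({y' | g y' = y} : Set Y').ncard : ℝ) ≤ t) :
    RDec (A.submatrix f g) r (t * s) := by
  obtain ⟨R, S, rfl, h2, h3, h4⟩ := h
  refine ⟨R.submatrix f g, S.submatrix f g, rfl, ?_, ?_, ?_⟩
  · exact le_trans (by exact_mod_cast rank_submatrix_le' R f g) h2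
  · intro x
    rw [mul_comm]
    refine ncard_le_of_cover (U := fun z => {y' | g y' = z}) ht (h3 (f x)) hg ?_
    intro y hy
    exact ⟨g y, hy, rfl⟩
  · intro y
    rw [mul_comm]
    refine ncard_le_of_cover (U := fun z => {x' | f x' = z}) ht (h4 (g y)) hf ?_
    intro x hx
    exact ⟨f x, hx, rfl⟩

/-- Multiplying rows and columns by scalars. -/
theorem RDec.diag {A : Matrix X Y F} {r s : ℝ} (h : RDec A r s) (d : X → F) (e : Y → F) :
    RDec (Matrix.of fun x y => d x * A x y * e y) r s := by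
  classical
  obtain ⟨R, S, rfl, h2, h3, h4⟩ := h
  have e1 : ∀ B : Matrix X Y F, (Matrix.of fun x y => d x * B x y * e y) =
      Matrix.diagonal d * B * Matrix.diagonal e := by
    intro B
    ext x y
    rw [Matrix.mul_diagonal, Matrix.diagonal_mul, Matrix.of_apply]
  refine ⟨Matrix.of fun x y => d x * R x y * e y, Matrix.of fun x y => d x * S x y * e y,
    ?_, ?_, ?_, ?_⟩
  · ext x y
    simp only [Matrix.of_apply, Matrix.add_apply]
    ring
  · have h5 : (Matrix.of fun x y => d x * R x y * e y).rank ≤ R.rank := by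
      rw [e1]
      exact (Matrix.rank_mul_le_left _ _).trans (Matrix.rank_mul_le_right _ _)
    exact le_trans (by exact_mod_cast h5) h2
  · intro x
    refine le_trans ?_ (h3 x)
    have h5 : ({y | (Matrix.of fun x y => d x * S x y * e y) x y ≠ 0} : Set Y) ⊆
        {y | S x y ≠ 0} := by
      intro y hy hy2
      apply hy
      rw [Matrix.of_apply, hy2, mul_zero, zero_mul]
    exact_mod_cast Set.ncard_le_ncard h5 (Set.toFinite _)
  · intro y
    refine le_trans ?_ (h4 y)
    have h5 : ({x | (Matrix.of fun x y => d x * S x y * e y) x y ≠ 0} : Set X) ⊆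
        {x | S x y ≠ 0} := by
      intro x hx hx2
      apply hx
      rw [Matrix.of_apply, hx2, mul_zero, zero_mul]
    exact_mod_cast Set.ncard_le_ncard h5 (Set.toFinite _)

/-- A matrix that factors through `W`. -/
theorem rdec_factor (P : Matrix X W F) (Q : Matrix W Y F) : RDec (P * Q) (Fintype.card W) 0 := by
  refine ⟨P * Q, 0, by rw [add_zero], ?_, ?_, ?_⟩
  · have h1 : (P * Q).rank ≤ Fintype.card W :=
      (Matrix.rank_mul_le_left _ _).trans (Matrix.rank_le_card_width _)
    exact_mod_cast h1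
  · intro x; simp
  · intro x; simp

/-- Extension by zero. -/
private theorem rdec_support' {A : Matrix X Y F} {r s : ℝ} (hs : 0 ≤ s) (P : Set X) (Q : Set Y)
    [Fintype P] [Fintype Q]
    (h : RDec (A.submatrix (Subtype.val : P → X) (Subtype.val : Q → Y)) r s)
    (h0 : ∀ x y, x ∉ P ∨ y ∉ Q → A x y = 0) : RDec A r s := by
  classical
  obtain ⟨R, S, h1, h2, h3, h4⟩ := h
  let EP : Matrix X P F := Matrix.of fun x p => if x = p.1 then 1 else 0
  let EQ : Matrix Q Y F := Matrix.of fun q y => if q.1 = y then 1 else 0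
  have hEl : ∀ (B : Matrix P Q F) (x : X) (y : Y) (hx : x ∈ P) (hy : y ∈ Q),
      (EP * B * EQ) x y = B ⟨x, hx⟩ ⟨y, hy⟩ := by
    intro B x y hx hy
    rw [Matrix.mul_apply, Finset.sum_eq_single (⟨y, hy⟩ : Q)]
    · rw [Matrix.mul_apply, Finset.sum_eq_single (⟨x, hx⟩ : P)]
      · simp [EP, EQ]
      · intro b _ hb
        have : x ≠ b.1 := fun hc => hb (Subtype.ext hc.symm)
        simp [EP, this]
      · intro hc
        exact absurd (Finset.mem_univ _) hc
    · intro b _ hb
      have : b.1 ≠ y := fun hc => hb (Subtype.ext hc)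
      simp [EQ, this]
    · intro hc
      exact absurd (Finset.mem_univ _) hc
  have hEx : ∀ (B : Matrix P Q F) (x : X) (y : Y), x ∉ P → (EP * B * EQ) x y = 0 := by
    intro B x y hx
    rw [Matrix.mul_assoc, Matrix.mul_apply]
    apply Finset.sum_eq_zero
    intro p _
    have : x ≠ p.1 := fun hc => hx (hc ▸ p.2)
    simp [EP, this]
  have hEy : ∀ (B : Matrix P Q F) (x : X) (y : Y), y ∉ Q → (EP * B * EQ) x y = 0 := by
    intro B x y hy
    rw [Matrix.mul_apply]
    apply Finset.sum_eq_zero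
    intro q _
    have : q.1 ≠ y := fun hc => hy (hc ▸ q.2)
    simp [EQ, this]
  refine ⟨EP * R * EQ, EP * S * EQ, ?_, ?_, ?_, ?_⟩
  · ext x y
    rw [← Matrix.add_mul, ← Matrix.mul_add]
    by_cases hx : x ∈ P
    · by_cases hy : y ∈ Q
      · rw [hEl _ x y hx hy, ← h1]
        rfl
      · rw [hEy _ x y hy, h0 x y (Or.inr hy)]
    · rw [hEx _ x y hx, h0 x y (Or.inl hx)]
  · have h5 : (EP * R * EQ).rank ≤ R.rank :=
      (Matrix.rank_mul_le_left _ _).trans (Matrix.rank_mul_le_right _ _)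
    exact le_trans (by exact_mod_cast h5) h2
  · intro x
    by_cases hx : x ∈ P
    · have h5 : ({y | (EP * S * EQ) x y ≠ 0} : Set Y) ⊆
          (Subtype.val : Q → Y) '' {q | S ⟨x, hx⟩ q ≠ 0} := by
        intro y hy
        by_cases hyQ : y ∈ Q
        · refine ⟨⟨y, hyQ⟩, ?_, rfl⟩
          rw [Set.mem_setOf_eq, hEl _ x y hx hyQ] at hy
          exact hy
        · exact absurd (hEy S x y hyQ) hy
      have h6 := (Set.ncard_le_ncard h5 (Set.toFinite _)).trans
        (Set.ncard_image_le (Set.toFinite _))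
      exact le_trans (by exact_mod_cast h6) (h3 ⟨x, hx⟩)
    · have h5 : ({y | (EP * S * EQ) x y ≠ 0} : Set Y) = ∅ := by
        ext y
        simp [hEx S x y hx]
      rw [h5, Set.ncard_empty]
      simpa using hs
  · intro y
    by_cases hy : y ∈ Q
    · have h5 : ({x | (EP * S * EQ) x y ≠ 0} : Set X) ⊆
          (Subtype.val : P → X) '' {p | S p ⟨y, hy⟩ ≠ 0} := by
        intro x hx
        by_cases hxP : x ∈ P
        · refine ⟨⟨x, hxP⟩, ?_, rfl⟩
          rw [Set.mem_setOf_eq, hEl _ x y hxP hy] at hx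
          exact hx
        · exact absurd (hEx S x y hxP) hx
      have h6 := (Set.ncard_le_ncard h5 (Set.toFinite _)).trans
        (Set.ncard_image_le (Set.toFinite _))
      exact le_trans (by exact_mod_cast h6) (h4 ⟨y, hy⟩)
    · have h5 : ({x | (EP * S * EQ) x y ≠ 0} : Set X) = ∅ := by
        ext x
        simp [hEy S x y hy]
      rw [h5, Set.ncard_empty]
      simpa using hs

/-- Cutting out rows and columns. -/
theorem rdec_cut {A : Matrix X Y F} {r s : ℝ} (hs : 0 ≤ s) (P : Set X) (Q : Set Y) [Fintype P]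
    [Fintype Q] (h : RDec (A.submatrix (Subtype.val : P → X) (Subtype.val : Q → Y)) r s) :
    RDec A (r + (Pᶜ : Set X).ncard + (Qᶜ : Set Y).ncard) s := by
  classical
  let A₀ : Matrix X Y F := Matrix.of fun x y => if x ∈ P ∧ y ∈ Q then A x y else 0
  let R₁ : Matrix X Y F := Matrix.of fun x y => if x ∈ P then 0 else A x y
  let R₂ : Matrix X Y F := Matrix.of fun x y => if x ∈ P ∧ y ∉ Q then A x y else 0
  have h1 : RDec A₀ r s := by
    apply rdec_support' hs P Q
    · have e1 : A₀.submatrix (Subtype.val : P → X) (Subtype.val : Q → Y) =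
          A.submatrix (Subtype.val : P → X) (Subtype.val : Q → Y) := by
        ext x y
        simp only [Matrix.submatrix_apply, Matrix.of_apply, A₀]
        rw [if_pos ⟨x.2, y.2⟩]
      rw [e1]
      exact h
    · intro x y hxy
      simp only [Matrix.of_apply, A₀]
      rw [if_neg]
      rintro ⟨h2, h3⟩
      rcases hxy with h4 | h4
      · exact h4 h2
      · exact h4 h3
  have e0 : A = A₀ + R₁ + R₂ := by
    ext x y
    simp only [Matrix.add_apply, Matrix.of_apply, A₀, R₁, R₂]
    by_cases h1 : x ∈ P <;> by_cases h2 : y ∈ Q <;> simp [h1, h2]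
  have e1 : R₁.rank ≤ (Pᶜ : Set X).ncard := by
    rw [show (Pᶜ : Set X).ncard = (Finset.univ.filter (fun x => x ∉ P)).card by
      rw [← Set.ncard_coe_finset]
      congr 1
      ext x
      simp]
    refine Matrix.rank_le_card_of_support_subset _ _ ?_
    intro x hx
    simp only [Finset.coe_filter, Finset.mem_univ, true_and, Set.mem_setOf_eq]
    intro hxG
    apply hx
    ext y
    simp [R₁, Matrix.row, hxG]
  have e2 : R₂.rank ≤ (Qᶜ : Set Y).ncard := by
    rw [show (Qᶜ : Set Y).ncard = (Finset.univ.filter (fun x => x ∉ Q)).card by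
      rw [← Set.ncard_coe_finset]
      congr 1
      ext x
      simp, ← Matrix.rank_transpose]
    refine Matrix.rank_le_card_of_support_subset _ _ ?_
    intro x hx
    simp only [Finset.coe_filter, Finset.mem_univ, true_and, Set.mem_setOf_eq]
    intro hxG
    apply hx
    ext y
    simp [R₂, Matrix.row, hxG]
  obtain ⟨R, S, k1, k2, k3, k4⟩ := h1
  refine ⟨R + R₁ + R₂, S, ?_, ?_, k3, k4⟩
  · rw [e0, k1]
    abel
  · have e3 : (R + R₁ + R₂).rank ≤ R.rank + (Pᶜ : Set X).ncard + (Qᶜ : Set Y).ncard :=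
      (rank_add_le' _ _).trans (add_le_add ((rank_add_le' _ _).trans
        (add_le_add le_rfl e1)) e2)
    have e4 : ((R + R₁ + R₂).rank : ℝ) ≤ R.rank + (Pᶜ : Set X).ncard + (Qᶜ : Set Y).ncard := by
      exact_mod_cast e3
    linarith

/-- Extension by zero. -/
theorem rdec_support {A : Matrix X Y F} {r s : ℝ} (hs : 0 ≤ s) (P : Set X) (Q : Set Y) [Fintype P]
    [Fintype Q] (h : RDec (A.submatrix (Subtype.val : P → X) (Subtype.val : Q → Y)) r s)
    (h0 : ∀ x y, x ∉ P ∨ y ∉ Q → A x y = 0) : RDec A r s :=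
  rdec_support' hs P Q h h0

end MP0775d3.Sl2
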