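import Pool.Agent.Lib.MP_0775d3_lc.Sl2.Defs

/-! Products `X Y⁻¹` in coordinates. -/

set_option linter.unusedSectionVars false

namespace MP0775d3.Sl2

open Matrix

section
variable {k : Type} [Field k]

private theorem coord_mat_coe (u v : k) (a D : kˣ) :
    ((mat u v a D : GL (Fin 2) k) : Matrix (Fin 2) (Fin 2) k) = matM u v a D := rfl

theorem mat_det (u v : k) (a D : kˣ) : Matrix.GeneralLinearGroup.det (mat u v a D) = D := by
  ext
  rw [Matrix.GeneralLinearGroup.val_det_apply, coord_mat_coe, matM_det]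

/-- Every element with nonzero lower left entry has coordinates. -/
theorem exists_mat (g : GL (Fin 2) k) (hg : (g : Matrix (Fin 2) (Fin 2) k) 1 0 ≠ 0) :
    ∃ (u v : k) (a : kˣ), g = mat u v a (Matrix.GeneralLinearGroup.det g) := by
  refine ⟨(g : Matrix (Fin 2) (Fin 2) k) 0 0 / (g : Matrix (Fin 2) (Fin 2) k) 1 0,
    (g : Matrix (Fin 2) (Fin 2) k) 1 1 / (g : Matrix (Fin 2) (Fin 2) k) 1 0,
    (Units.mk0 _ hg)⁻¹, ?_⟩
  apply Units.ext
  rw [coord_mat_coe]
  ext i j
  have hd : ((Matrix.GeneralLinearGroup.det g : kˣ) : k) =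
      (g : Matrix (Fin 2) (Fin 2) k) 0 0 * (g : Matrix (Fin 2) (Fin 2) k) 1 1 -
      (g : Matrix (Fin 2) (Fin 2) k) 0 1 * (g : Matrix (Fin 2) (Fin 2) k) 1 0 := by
    rw [Matrix.GeneralLinearGroup.val_det_apply, Matrix.det_fin_two]
  fin_cases i <;> fin_cases j <;> simp [matM, hd] <;> field_simp
  ring

theorem mat_inj {u v u' v' : k} {a D b D' : kˣ} (h : mat u v a D = mat u' v' b D') :
    u = u' ∧ v = v' ∧ a = b ∧ D = D' := by
  have hD : D = D' := by
    rw [← mat_det u v a D, h, mat_det]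
  have hM : matM u v a D = matM u' v' b D' := by
    rw [← coord_mat_coe, h, coord_mat_coe]
  have h10 := congrFun (congrFun hM 1) 0
  have h11 := congrFun (congrFun hM 1) 1
  have h00 := congrFun (congrFun hM 0) 0
  simp only [matM, Matrix.of_apply, Matrix.cons_val', Matrix.cons_val_zero, Matrix.cons_val_one,
    Matrix.cons_val_fin_one] at h10 h11 h00
  have ha : (a : k) ≠ 0 := a.ne_zero
  have hb : (b : k) ≠ 0 := b.ne_zero
  have hab : (a : k) = b := by
    field_simp at h10
    exact h10.symm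
  rw [hab] at h11 h00
  have hab' : a = b := Units.ext hab
  refine ⟨?_, ?_, hab', hD⟩
  · field_simp at h00
    exact h00
  · field_simp at h11
    exact h11

private theorem coord_inv_coe (u v : k) (a D : kˣ) :
    (((mat u v a D)⁻¹ : GL (Fin 2) k) : Matrix (Fin 2) (Fin 2) k) =
      !![v / (a * D), -(u * v / a - D * a) / D; -1 / (a * D), u / (a * D)] := by
  have ha : (a : k) ≠ 0 := a.ne_zero
  have hD : (D : k) ≠ 0 := D.ne_zero
  have h : (!![v / (a * D), -(u * v / a - D * a) / D; -1 / (a * D), u / (a * D)] :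
      Matrix (Fin 2) (Fin 2) k) * matM u v a D = 1 := by
    rw [matM, Matrix.mul_fin_two, Matrix.one_fin_two]
    congr 1
    ext i j
    fin_cases i <;> fin_cases j <;> simp <;> field_simp <;> ring
  rw [Matrix.coe_units_inv, coord_mat_coe]
  exact Matrix.inv_eq_left_inv h

private theorem coord_mul (u v u' v' : k) (a D b D' : kˣ) :
    ((mat u v a D * (mat u' v' b D')⁻¹ : GL (Fin 2) k) : Matrix (Fin 2) (Fin 2) k) =
      matM u v a D *
        !![v' / (b * D'), -(u' * v' / b - D' * b) / D'; -1 / (b * D'), u' / (b * D')] := by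
  rw [Units.val_mul, coord_inv_coe, coord_mat_coe]

theorem mul_inv_trace (u v u' v' : k) (a D b D' : kˣ) :
    Matrix.trace ((mat u v a D * (mat u' v' b D')⁻¹ : GL (Fin 2) k) : Matrix (Fin 2) (Fin 2) k) =
      (D * a ^ 2 + D' * b ^ 2 - (u - u') * (v - v')) / (a * b * D') := by
  have ha : (a : k) ≠ 0 := a.ne_zero
  have hb : (b : k) ≠ 0 := b.ne_zero
  have hD : (D' : k) ≠ 0 := D'.ne_zero
  rw [coord_mul, matM, Matrix.mul_fin_two, Matrix.trace_fin_two_of]
  field_simp
  ring

theorem mul_inv_entry (u v u' v' : k) (a D b D' : kˣ) :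
    ((mat u v a D * (mat u' v' b D')⁻¹ : GL (Fin 2) k) : Matrix (Fin 2) (Fin 2) k) 1 0 =
      -(v - v') / (a * b * D') := by
  have ha : (a : k) ≠ 0 := a.ne_zero
  have hb : (b : k) ≠ 0 := b.ne_zero
  have hD : (D' : k) ≠ 0 := D'.ne_zero
  rw [coord_mul, matM, Matrix.mul_fin_two]
  simp
  field_simp
  ring

theorem mul_inv_entry' (u u' v : k) (a D b D' : kˣ) :
    ((mat u v a D * (mat u' v b D')⁻¹ : GL (Fin 2) k) : Matrix (Fin 2) (Fin 2) k) 0 1 =
      (u * (D' * b ^ 2) - u' * (D * a ^ 2)) / (a * b * D') := by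
  have ha : (a : k) ≠ 0 := a.ne_zero
  have hb : (b : k) ≠ 0 := b.ne_zero
  have hD : (D' : k) ≠ 0 := D'.ne_zero
  rw [coord_mul, matM, Matrix.mul_fin_two]
  simp
  field_simp
  ring

end

end MP0775d3.Sl2
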