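import Pool.Agent.Lib.MP_0775d3_lc.Sl2.Decomp
import Pool.Agent.Lib.MP_0775d3_lc.Sl2.Coord

/-! The matrix of an invariant function on the big cell. -/

set_option linter.unusedSectionVars false

namespace MP0775d3.Sl2

open Matrix

section
variable {k : Type} [Field k]

theorem scalar_coe_apply (c : kˣ) (i j : Fin 2) :
    ((Matrix.GeneralLinearGroup.scalar (Fin 2) c : GL (Fin 2) k) : Matrix (Fin 2) (Fin 2) k) i j =
      if i = j then (c : k) else 0 := by
  have : ((Matrix.GeneralLinearGroup.scalar (Fin 2) c : GL (Fin 2) k) :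
      Matrix (Fin 2) (Fin 2) k) = Matrix.scalar (Fin 2) (c : k) := rfl
  rw [this, Matrix.scalar_apply, Matrix.diagonal_apply]

theorem mat_coe (u v : k) (a D : kˣ) :
    ((mat u v a D : GL (Fin 2) k) : Matrix (Fin 2) (Fin 2) k) = matM u v a D := rfl

theorem scalar_mul_mat (c : kˣ) (u v : k) (a D : kˣ) :
    Matrix.GeneralLinearGroup.scalar (Fin 2) c * mat u v a D = mat u v (a / c) (c ^ 2 * D) := by
  apply Matrix.GeneralLinearGroup.ext
  intro i j
  have ha : (a : k) ≠ 0 := a.ne_zero
  have hc : (c : k) ≠ 0 := c.ne_zero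
  have h1 : ((a / c : kˣ) : k) = a / c := by
    simp [div_eq_mul_inv]
  rw [Units.val_mul, Matrix.mul_apply, Fin.sum_univ_two, scalar_coe_apply, scalar_coe_apply,
    mat_coe, mat_coe, matM, matM, h1]
  fin_cases i <;> fin_cases j <;> simp <;> field_simp

theorem mat_div_eq_scalar {u v u' v' : k} {a D b D' c : kˣ} :
    mat u v a D * (mat u' v' b D')⁻¹ = Matrix.GeneralLinearGroup.scalar (Fin 2) c ↔
      u = u' ∧ v = v' ∧ b = c * a ∧ D = c ^ 2 * D' := by
  rw [mul_inv_eq_iff_eq_mul, scalar_mul_mat]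
  constructor
  · intro h
    obtain ⟨h1, h2, h3, h4⟩ := mat_inj h
    refine ⟨h1, h2, ?_, h4⟩
    rw [h3, mul_div_cancel]
  · rintro ⟨rfl, rfl, rfl, rfl⟩
    rw [mul_div_cancel_left]

end

variable {k : Type} [Field k] [Fintype k] [DecidableEq k]

/-- The matrix of an invariant function on the big cell. -/
theorem cell_eq (S : Setup k) (f : GL (Fin 2) k → ℂ)
    (hf : ∀ p g : GL (Fin 2) k, Matrix.GeneralLinearGroup.det p = 1 → f (p * g * p⁻¹) = f g)
    (hZ : ∀ c ∈ S.Z, ∀ g, f (Matrix.GeneralLinearGroup.scalar (Fin 2) c * g) = f g) :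
    ∃ (Φ : k → kˣ → ℂ) (β σ : kˣ → ℂ),
      (∀ c ∈ S.Z, ∀ t D, Φ (c * t) (c ^ 2 * D) = Φ t D) ∧
      (∀ c ∈ S.Z, ∀ d, β (c * d) = β d) ∧ (∀ c ∈ S.Z, ∀ d, σ (c * d) = σ d) ∧
      (ringChar k = 2 → β = 0) ∧
      (Matrix.of fun x y : Cell S => f (cellMat S x * (cellMat S y)⁻¹)) =
        kerPhi S Φ + kerSg S β + kerSc S σ := by
  obtain ⟨Φ, β, σ, h1, h2, h3, h4, hA, hB, hC⟩ := decomp f hf S.Z hZ
  refine ⟨Φ, β, σ, h1, h2, h3, h4, ?_⟩
  ext x y
  obtain ⟨u, v, a, ⟨D, hD⟩⟩ := x
  obtain ⟨u', v', b, ⟨D', hD'⟩⟩ := y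
  simp only [Matrix.add_apply, Matrix.of_apply, kerPhi, kerSg, kerSc, cellMat]
  set g : GL (Fin 2) k := mat u v a D * (mat u' v' b D')⁻¹ with hg
  have ha : (a : k) ≠ 0 := a.ne_zero
  have hb : (b : k) ≠ 0 := b.ne_zero
  have hD0 : (D : k) ≠ 0 := D.ne_zero
  have hD0' : (D' : k) ≠ 0 := D'.ne_zero
  have htr : Matrix.trace (g : Matrix (Fin 2) (Fin 2) k) =
      (D * a ^ 2 + D' * b ^ 2 - (u - u') * (v - v')) / (a * b * D') := by
    rw [hg]; exact mul_inv_trace u v u' v' a D b D'
  have hdet : Matrix.GeneralLinearGroup.det g = D / D' := by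
    rw [hg, map_mul, map_inv, mat_det, mat_det, div_eq_mul_inv]
  have hsc : ∀ c : kˣ, (u = u' ∧ v = v' ∧ b = c * a ∧ D = c ^ 2 * D') ↔
      g = Matrix.GeneralLinearGroup.scalar (Fin 2) c := fun c => mat_div_eq_scalar.symm
  have hcond : ∀ c : kˣ, (D = c ^ 2 * D' ∧ (u - u') * (v - v') =
      (D' : k) * ((c : k) * (a : k) - (b : k)) ^ 2) ↔
      (Matrix.trace (g : Matrix (Fin 2) (Fin 2) k) = 2 * c ∧
        Matrix.GeneralLinearGroup.det g = c ^ 2) := by
    intro c
    rw [htr, hdet]
    have e1 : (D / D' = c ^ 2) ↔ D = c ^ 2 * D' := by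
      rw [div_eq_iff_eq_mul]
    rw [e1]
    constructor
    · rintro ⟨hc1, hc2⟩
      refine ⟨?_, hc1⟩
      have hk : (D : k) = (c : k) ^ 2 * D' := by rw [hc1]; push_cast; ring
      rw [hc2, hk]
      field_simp
      ring
    · rintro ⟨hc2, hc1⟩
      refine ⟨hc1, ?_⟩
      have hk : (D : k) = (c : k) ^ 2 * D' := by rw [hc1]; push_cast; ring
      rw [div_eq_iff (mul_ne_zero (mul_ne_zero ha hb) hD0')] at hc2
      rw [hk] at hc2
      linear_combination -hc2
  have hphi : ∀ c : kˣ, Matrix.trace (g : Matrix (Fin 2) (Fin 2) k) = 2 * c →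
      Matrix.GeneralLinearGroup.det g = c ^ 2 →
      Φ ((D * a ^ 2 + D' * b ^ 2 - (u - u') * (v - v')) / (a * b * D')) (D / D') =
        Φ (2 * c) (c ^ 2) := by
    intro c h h'
    rw [← htr, ← hdet, h, h']
  have huniq : ringChar k ≠ 2 → ∀ c c' : kˣ, (2 : k) * c = 2 * c' → c = c' := by
    intro h2 c c' h
    have h20 : (2 : k) ≠ 0 := Ring.two_ne_zero h2
    exact Units.ext (mul_left_cancel₀ h20 h)
  by_cases hs : ∃ c : kˣ, g = Matrix.GeneralLinearGroup.scalar (Fin 2) c
  · obtain ⟨c, hc⟩ := hs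
    obtain ⟨hu, hv, hbc, hDc⟩ := (hsc c).2 hc
    have htc : Matrix.trace (g : Matrix (Fin 2) (Fin 2) k) = 2 * c := by
      rw [hc, Matrix.trace_fin_two, scalar_coe_apply, scalar_coe_apply]
      simp; ring
    have hdc : Matrix.GeneralLinearGroup.det g = c ^ 2 := by
      rw [hdet, div_eq_iff_eq_mul]; exact hDc
    rw [hphi c htc hdc, hc, hC c]
    have e1 : (∑ c' : kˣ, if D = c' ^ 2 * D' ∧ (u - u') * (v - v') =
        (D' : k) * ((c' : k) * (a : k) - (b : k)) ^ 2
      then β c' * (quadraticChar k (if v = v' then -(u - u') else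
        -(v - v') * ((a : k) * (b : k) * (D' : k) * (c' : k))) : ℤ)
      else 0) = 0 := by
      refine Finset.sum_eq_zero fun c' _ => ?_
      split_ifs with h
      · rw [hu]; simp
      · rfl
    have e2 : (∑ c' : kˣ, if u = u' ∧ v = v' ∧ b = c' * a ∧ D = c' ^ 2 * D' then σ c' else 0) =
        σ c := by
      rw [Finset.sum_eq_single c]
      · rw [if_pos ((hsc c).2 hc)]
      · intro c' _ hne
        rw [if_neg]
        rintro ⟨_, _, h, _⟩
        exact hne (mul_right_cancel (h.symm.trans hbc))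
      · intro h; exact absurd (Finset.mem_univ c) h
    rw [e1, e2]; ring
  · have e2 : (∑ c' : kˣ, if u = u' ∧ v = v' ∧ b = c' * a ∧ D = c' ^ 2 * D' then σ c' else 0) =
        0 := by
      refine Finset.sum_eq_zero fun c' _ => ?_
      rw [if_neg]
      intro h
      exact hs ⟨c', (hsc c').1 h⟩
    rw [e2, add_zero]
    by_cases hex : ∃ c : kˣ, Matrix.trace (g : Matrix (Fin 2) (Fin 2) k) = 2 * c ∧
        Matrix.GeneralLinearGroup.det g = c ^ 2
    · obtain ⟨c, hc1, hc2⟩ := hex
      have hne : g ≠ Matrix.GeneralLinearGroup.scalar (Fin 2) c := fun h => hs ⟨c, h⟩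
      rw [hphi c hc1 hc2, hB g c hc1 hc2 hne]
      congr 1
      by_cases h2 : ringChar k = 2
      · rw [h4 h2]; simp
      · rw [Finset.sum_eq_single c]
        · rw [if_pos ((hcond c).2 ⟨hc1, hc2⟩)]
          obtain ⟨hDc, hUV⟩ := (hcond c).2 ⟨hc1, hc2⟩
          congr 2
          have hc0 : (c : k) ≠ 0 := c.ne_zero
          by_cases hv : v = v'
          · subst hv
            have hg10 : (g : Matrix (Fin 2) (Fin 2) k) 1 0 = 0 := by
              rw [hg, mul_inv_entry]; simp
            have hba : (b : k) = c * a := by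
              have : (D' : k) * ((c : k) * (a : k) - (b : k)) ^ 2 = 0 := by
                rw [← hUV]; ring
              have h0 := (mul_eq_zero.1 this).resolve_left hD0'
              have h00 := pow_eq_zero_iff (two_ne_zero) |>.1 h0
              linear_combination -h00
            have hk : (D : k) = (c : k) ^ 2 * D' := by rw [hDc]; push_cast; ring
            rw [if_pos hg10, if_pos rfl, hg, mul_inv_entry', hk, hba]
            congr 1
            field_simp
          · have hvv : v - v' ≠ 0 := sub_ne_zero.2 hv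
            have hg10 : (g : Matrix (Fin 2) (Fin 2) k) 1 0 ≠ 0 := by
              rw [hg, mul_inv_entry]
              exact div_ne_zero (neg_ne_zero.2 hvv) (mul_ne_zero (mul_ne_zero ha hb) hD0')
            rw [if_neg hg10, if_neg hv, hg, mul_inv_entry]
            have e3 : -(v - v') / ((a : k) * b * D') / c =
                (-(v - v') * ((a : k) * b * D' * c)) * ((1 / ((a : k) * b * D' * c)) ^ 2) := by
              field_simp
            rw [e3, map_mul, map_pow]
            have e4 : quadraticChar k (1 / ((a : k) * b * D' * c)) ^ 2 = 1 := by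
              apply quadraticChar_sq_one
              exact one_div_ne_zero (mul_ne_zero (mul_ne_zero (mul_ne_zero ha hb) hD0') hc0)
            rw [e4, mul_one]
        · intro c' _ hne'
          rw [if_neg]
          intro h
          obtain ⟨h5, _⟩ := (hcond c').1 h
          exact hne' (huniq h2 c' c (h5.symm.trans hc1))
        · intro h; exact absurd (Finset.mem_univ c) h
    · have hno : ∀ c : kˣ, ¬ (Matrix.trace (g : Matrix (Fin 2) (Fin 2) k) = 2 * c ∧
          Matrix.GeneralLinearGroup.det g = c ^ 2) := fun c h => hex ⟨c, h⟩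
      rw [hA g hno, Finset.sum_eq_zero, add_zero, htr, hdet]
      intro c _
      rw [if_neg]
      intro h
      exact hno c ((hcond c).1 h)

end MP0775d3.Sl2
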