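import Pool.Agent.Lib.MP_0775d3_lc.Sl2.Defs

/-! Sizes: the numbers `|H| / |Z|`, `|T|` and `B`. -/

set_option linter.unusedSectionVars false

namespace MP0775d3.Sl2

variable {k : Type} [Field k] [Fintype k] [DecidableEq k]

theorem card_units : Nat.card kˣ = Fintype.card k - 1 := by
  rw [Nat.card_eq_fintype_card, Fintype.card_units]

theorem two_le_q : (2 : ℝ) ≤ Fintype.card k := by
  have h : 1 < Fintype.card k := Fintype.one_lt_card
  exact_mod_cast h

theorem card_pos_sub (H : Subgroup kˣ) : (0 : ℝ) < Nat.card H := by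
  exact_mod_cast Nat.card_pos

theorem card_sub_le (H : Subgroup kˣ) : (Nat.card H : ℝ) ≤ Fintype.card k := by
  have h1 : Nat.card H ≤ Nat.card kˣ := Subgroup.card_le_card_group H
  have h2 : Nat.card kˣ = Fintype.card k - 1 := card_units
  have h3 : Nat.card H ≤ Fintype.card k := by omega
  exact_mod_cast h3

/-- Each element has at most two square roots. -/
theorem sq_fibre (x : kˣ) (s : Finset kˣ) (hs : ∀ c ∈ s, c ^ 2 = x) : s.card ≤ 2 := by
  by_contra hc
  obtain ⟨a, b, c, ha, hb, hc', hab, hac, hbc⟩ := Finset.two_lt_card_iff.mp (not_le.mp hc)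
  have key : ∀ y ∈ s, ∀ z ∈ s, y ≠ z → (y : k) = -(z : k) := by
    intro y hy z hz hyz
    have h1 : y ^ 2 = z ^ 2 := by rw [hs y hy, hs z hz]
    have h2 : (y : k) ^ 2 = (z : k) ^ 2 := by
      have := congrArg (fun w : kˣ => (w : k)) h1
      simpa using this
    rcases sq_eq_sq_iff_eq_or_eq_neg.mp h2 with h | h
    · exact absurd (Units.ext h) hyz
    · exact h
  have e1 := key a ha b hb hab
  have e2 := key c hc' b hb (Ne.symm hbc)
  exact hac (Units.ext (by rw [e1, e2]))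

/-- The products `c² d`, `c ∈ Z`, `d ∈ T`, are elements of `H`; each is obtained at most twice. -/
theorem card_mul_le (S : Setup k) (T : Finset kˣ) (hT : ∀ d ∈ T, d ∈ S.H)
    (hi : ∀ d ∈ T, ∀ d' ∈ T, ∀ c ∈ S.Z, d = c ^ 2 * d' → d = d') :
    T.card * Nat.card S.Z ≤ 2 * Nat.card S.H := by
  classical
  haveI : Fintype S.Z := Fintype.ofFinite _
  haveI : Fintype S.H := Fintype.ofFinite _
  let A : Finset (kˣ × kˣ) := (Finset.univ.filter fun c : kˣ => c ∈ S.Z) ×ˢ T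
  let B : Finset kˣ := Finset.univ.filter fun c : kˣ => c ∈ S.H
  have hA : A.card = Nat.card S.Z * T.card := by
    rw [Finset.card_product, Nat.card_eq_fintype_card, Fintype.card_subtype]
  have hB : B.card = Nat.card S.H := by
    rw [Nat.card_eq_fintype_card, Fintype.card_subtype]
  have hmap : ∀ p ∈ A, p.1 ^ 2 * p.2 ∈ B := by
    intro p hp
    simp only [A, Finset.mem_product, Finset.mem_filter, Finset.mem_univ, true_and] at hp
    simp only [B, Finset.mem_filter, Finset.mem_univ, true_and]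
    exact S.H.mul_mem (S.sq_mem _ hp.1) (hT _ hp.2)
  have hfib : ∀ b ∈ B, (A.filter fun p => p.1 ^ 2 * p.2 = b).card ≤ 2 := by
    intro b _
    by_cases hne : (A.filter fun p => p.1 ^ 2 * p.2 = b).Nonempty
    · obtain ⟨p0, hp0⟩ := hne
      simp only [A, Finset.mem_filter, Finset.mem_product, Finset.mem_univ, true_and] at hp0
      have hsnd : ∀ p ∈ (A.filter fun p => p.1 ^ 2 * p.2 = b), p.2 = p0.2 := by
        intro p hp
        simp only [A, Finset.mem_filter, Finset.mem_product, Finset.mem_univ, true_and] at hp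
        refine hi p.2 hp.1.2 p0.2 hp0.1.2 (p.1⁻¹ * p0.1)
          (S.Z.mul_mem (S.Z.inv_mem hp.1.1) hp0.1.1) ?_
        have h1 : p.1 ^ 2 * p.2 = p0.1 ^ 2 * p0.2 := by rw [hp.2, hp0.2]
        rw [mul_pow, mul_assoc, ← h1, inv_pow, inv_mul_cancel_left]
      have hinj : Set.InjOn Prod.fst
          ((A.filter fun p => p.1 ^ 2 * p.2 = b : Finset (kˣ × kˣ)) : Set (kˣ × kˣ)) := by
        intro p hp p' hp' h
        exact Prod.ext h ((hsnd p hp).trans (hsnd p' hp').symm)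
      rw [← Finset.card_image_of_injOn hinj]
      apply sq_fibre (b * p0.2⁻¹)
      intro c hc
      obtain ⟨p, hp, rfl⟩ := Finset.mem_image.mp hc
      have h2 := hsnd p hp
      simp only [A, Finset.mem_filter, Finset.mem_product, Finset.mem_univ, true_and] at hp
      rw [← hp.2, ← h2, mul_inv_cancel_right]
    · rw [Finset.not_nonempty_iff_eq_empty] at hne
      rw [hne]; simp
  have := Finset.card_le_mul_card_image_of_maps_to hmap 2 hfib
  rw [hA, hB] at this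
  rw [mul_comm]
  exact this

/-- `Z → H`, `c ↦ c²` has fibres of size at most two. -/
theorem half_le_m (S : Setup k) : (1 / 2 : ℝ) ≤ S.m := by
  have h := card_mul_le S {1} (by simp [S.H.one_mem]) (by simp)
  rw [Finset.card_singleton, one_mul] at h
  have hZ := card_pos_sub S.Z
  have h' : (Nat.card S.Z : ℝ) ≤ 2 * Nat.card S.H := by exact_mod_cast h
  rw [Setup.m, le_div_iff₀ hZ]
  linarith

theorem m_le (S : Setup k) : S.m ≤ Fintype.card k := by
  have hZ : (1 : ℝ) ≤ Nat.card S.Z := by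
    exact_mod_cast Nat.card_pos
  have hH := card_sub_le S.H
  rw [Setup.m]
  exact (div_le_self (Nat.cast_nonneg _) hZ).trans hH

/-- The products `c² d`, `c ∈ Z`, `d ∈ T`, are elements of `H`; each is obtained at most twice. -/
theorem card_T_le (S : Setup k) : (S.T.card : ℝ) ≤ 2 * S.m := by
  have h := card_mul_le S S.T S.T_sub S.T_inj
  have hZ := card_pos_sub S.Z
  have h' : (S.T.card : ℝ) * Nat.card S.Z ≤ 2 * Nat.card S.H := by exact_mod_cast h
  rw [Setup.m, ← mul_div_assoc, le_div_iff₀ hZ]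
  exact h'

theorem B_lower (S : Setup k) : (Fintype.card k : ℝ) ^ 2 ≤ S.B := by
  have hq := two_le_q (k := k)
  have hm := half_le_m S
  have h2 : (0 : ℝ) ≤ (Fintype.card k : ℝ) ^ 2 := by positivity
  rw [Setup.B]
  calc (Fintype.card k : ℝ) ^ 2 = (Fintype.card k : ℝ) ^ 2 * (2 * (1 / 2)) := by ring
    _ ≤ (Fintype.card k : ℝ) ^ 2 * (Fintype.card k * S.m) := by
        apply mul_le_mul_of_nonneg_left _ h2
        exact mul_le_mul hq hm (by norm_num) (by linarith)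
    _ = (Fintype.card k : ℝ) ^ 3 * S.m := by ring

theorem B_upper (S : Setup k) : S.B ≤ (Fintype.card k : ℝ) ^ 4 := by
  have hm := m_le S
  have h3 : (0 : ℝ) ≤ (Fintype.card k : ℝ) ^ 3 := by positivity
  rw [Setup.B]
  calc (Fintype.card k : ℝ) ^ 3 * S.m ≤ (Fintype.card k : ℝ) ^ 3 * Fintype.card k :=
        mul_le_mul_of_nonneg_left hm h3
    _ = (Fintype.card k : ℝ) ^ 4 := by ring

theorem q_le_B (S : Setup k) : (Fintype.card k : ℝ) ≤ S.B := by
  have hq := two_le_q (k := k)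
  have h := B_lower S
  nlinarith

/-- How the bounds of `group_dec` are used: a group of size (modulo a subgroup) at most `c B`,
`c ≤ 4`. -/
theorem pow_le_B (S : Setup k) (γ : ℝ) (hγ : 0 < γ) (hγ1 : γ ≤ 1) (g : ℝ) (hg : 0 ≤ g)
    (hgB : g ≤ 4 * S.B) : g ^ (1 - γ) ≤ 4 * (S.B * (Fintype.card k : ℝ) ^ (-γ)) := by
  have hq := two_le_q (k := k)
  have hqB := q_le_B S
  have hB0 : (0 : ℝ) < S.B := by linarith
  have hq0 : (0 : ℝ) < Fintype.card k := by linarith
  have h1 : g ^ (1 - γ) ≤ (4 * S.B) ^ (1 - γ) :=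
    Real.rpow_le_rpow hg hgB (by linarith)
  have h2 : (4 * S.B) ^ (1 - γ) = (4 : ℝ) ^ (1 - γ) * S.B ^ (1 - γ) :=
    Real.mul_rpow (by norm_num) hB0.le
  have h3 : (4 : ℝ) ^ (1 - γ) ≤ 4 := by
    calc (4 : ℝ) ^ (1 - γ) ≤ (4 : ℝ) ^ (1 : ℝ) :=
          Real.rpow_le_rpow_of_exponent_le (by norm_num) (by linarith)
      _ = 4 := Real.rpow_one 4
  have h4 : S.B ^ (1 - γ) = S.B * S.B ^ (-γ) := by
    rw [sub_eq_add_neg, Real.rpow_add hB0, Real.rpow_one]
  have h5 : S.B ^ (-γ) ≤ (Fintype.card k : ℝ) ^ (-γ) :=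
    Real.rpow_le_rpow_of_nonpos hq0 hqB (by linarith)
  have h6 : S.B ^ (1 - γ) ≤ S.B * (Fintype.card k : ℝ) ^ (-γ) := by
    rw [h4]
    exact mul_le_mul_of_nonneg_left h5 hB0.le
  have h7 : (0 : ℝ) ≤ S.B ^ (1 - γ) := Real.rpow_nonneg hB0.le _
  calc g ^ (1 - γ) ≤ (4 : ℝ) ^ (1 - γ) * S.B ^ (1 - γ) := by rw [← h2]; exact h1
    _ ≤ 4 * (S.B * (Fintype.card k : ℝ) ^ (-γ)) :=
        mul_le_mul h3 h6 h7 (by norm_num)

theorem pow_le_q (S : Setup k) (δ : ℝ) (hδ : 0 < δ) (hδ1 : δ ≤ 1) (g : ℝ) (hg : 0 ≤ g)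
    (hgB : g ≤ 4 * S.B) : g ^ δ ≤ 4 * (Fintype.card k : ℝ) ^ (4 * δ) := by
  have hq := two_le_q (k := k)
  have hq0 : (0 : ℝ) < Fintype.card k := by linarith
  have hB := B_upper S
  have h0 : g ≤ 4 * (Fintype.card k : ℝ) ^ 4 := by linarith
  have h1 : g ^ δ ≤ (4 * (Fintype.card k : ℝ) ^ 4) ^ δ := Real.rpow_le_rpow hg h0 hδ.le
  have h2 : (4 * (Fintype.card k : ℝ) ^ 4) ^ δ = (4 : ℝ) ^ δ * ((Fintype.card k : ℝ) ^ 4) ^ δ :=
    Real.mul_rpow (by norm_num) (by positivity)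
  have h3 : (4 : ℝ) ^ δ ≤ 4 := by
    calc (4 : ℝ) ^ δ ≤ (4 : ℝ) ^ (1 : ℝ) :=
          Real.rpow_le_rpow_of_exponent_le (by norm_num) hδ1
      _ = 4 := Real.rpow_one 4
  have h4 : ((Fintype.card k : ℝ) ^ 4) ^ δ = (Fintype.card k : ℝ) ^ (4 * δ) := by
    rw [Real.rpow_mul hq0.le]
    congr 1
    norm_cast
  have h5 : (0 : ℝ) ≤ (Fintype.card k : ℝ) ^ (4 * δ) := Real.rpow_nonneg hq0.le _
  calc g ^ δ ≤ (4 : ℝ) ^ δ * (Fintype.card k : ℝ) ^ (4 * δ) := by rw [← h4, ← h2]; exact h1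
    _ ≤ 4 * (Fintype.card k : ℝ) ^ (4 * δ) := mul_le_mul_of_nonneg_right h3 h5

end MP0775d3.Sl2
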