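import Pool.Agent.Lib.MP_0775d3_lc.Sl2.GroupDec
import Pool.Agent.Lib.MP_0775d3_lc.Sl2.Sizes

/-! The kernels supported on scalars times unipotent elements. -/

set_option linter.unusedSectionVars false

namespace MP0775d3.Sl2

open Matrix

section
variable {k : Type} [Field k] [Fintype k] [DecidableEq k]

theorem eta_split (d U V A B : k) (hA : A ≠ 0) (hd : d ≠ 0)
    (h : U * V = d * (A - B) ^ 2) :
    quadraticChar k (if V = 0 then -U else -V * (d * A * B)) =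
      quadraticChar k A * quadraticChar k B * quadraticChar k (if V = 0 then -U else -(d * V)) := by
  by_cases hV : V = 0
  · rw [if_pos hV, if_pos hV]
    have h1 : d * (A - B) ^ 2 = 0 := by rw [← h, hV, mul_zero]
    have h2 : A - B = 0 := by
      rcases mul_eq_zero.mp h1 with h3 | h3
      · exact absurd h3 hd
      · exact pow_eq_zero_iff (two_ne_zero) |>.mp h3
    have h3 : B = A := (sub_eq_zero.mp h2).symm
    rw [h3, ← map_mul, ← sq, quadraticChar_sq_one' hA, one_mul]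
  · rw [if_neg hV, if_neg hV, ← map_mul, ← map_mul]
    congr 1
    ring

/-- The set of cells with determinant in `d (kˣ)²`. -/
def clsP (S : Setup k) (d : kˣ) : Set (Cell S) := {x | ∃ s : kˣ, x.2.2.2.1 = d * s ^ 2}

open Classical in
/-- One lift. -/
noncomputable def termM (S : Setup k) (β : kˣ → ℂ) (d : kˣ) (s : kˣ → kˣ) (ε : kˣ) :
    Matrix (Cell S) (Cell S) ℂ :=
  Matrix.of fun x y => if x ∈ clsP S d ∧ y ∈ clsP S d then
    (if (x.1 - y.1) * (x.2.1 - y.2.1) = (d : k) * ((ε * s x.2.2.2.1 * x.2.2.1 : kˣ) -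
        (s y.2.2.2.1 * y.2.2.1 : kˣ)) ^ 2
      then (quadraticChar k ((ε * s x.2.2.2.1 * x.2.2.1 : kˣ) : k) : ℂ) *
        (β (ε * s x.2.2.2.1 / s y.2.2.2.1) * (quadraticChar k (if x.2.1 - y.2.1 = 0 then
          -(x.1 - y.1) else -(d * (x.2.1 - y.2.1))) : ℤ)) *
        (quadraticChar k ((s y.2.2.2.1 * y.2.2.1 : kˣ) : k) : ℂ)
      else 0)
    else 0

theorem eq_or_of_sq (c e : kˣ) (h : c ^ 2 = e ^ 2) : c = e ∨ c = -e := by
  have h1 : (c : k) ^ 2 = (e : k) ^ 2 := by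
    rw [← Units.val_pow_eq_pow_val, h, Units.val_pow_eq_pow_val]
  rcases sq_eq_sq_iff_eq_or_eq_neg.mp h1 with h2 | h2
  · exact Or.inl (Units.ext h2)
  · exact Or.inr (Units.ext (by rw [h2, Units.val_neg]))

theorem neg_ne_self' (hk : ringChar k ≠ 2) (e : kˣ) : -e ≠ e := by
  intro h
  have h1 : -(e : k) = e := by
    rw [← Units.val_neg, h]
  have h2 : (2 : k) * e = 0 := by linear_combination -h1
  rcases mul_eq_zero.mp h2 with h3 | h3
  · exact Ring.two_ne_zero hk h3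
  · exact e.ne_zero h3

/-- The value of `kerSg` for two cells of the same class. -/
theorem kerSg_same (hk : ringChar k ≠ 2) (S : Setup k) (β : kˣ → ℂ) (d : kˣ) (s : kˣ → kˣ)
    (x y : Cell S) (hx : x.2.2.2.1 = d * s x.2.2.2.1 ^ 2) (hy : y.2.2.2.1 = d * s y.2.2.2.1 ^ 2) :
    kerSg S β x y = termM S β d s 1 x y + termM S β d s (-1) x y := by
  classical
  obtain ⟨u, v, a, D, hD⟩ := x
  obtain ⟨u', v', b, D', hD'⟩ := y
  simp only at hx hy
  have hxP : (⟨u, v, a, D, hD⟩ : Cell S) ∈ clsP S d := ⟨_, hx⟩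
  have hyP : (⟨u', v', b, D', hD'⟩ : Cell S) ∈ clsP S d := ⟨_, hy⟩
  have key : ∀ c ε : kˣ, c = ε * (s D / s D') → ε ^ 2 = 1 →
      (if D = c ^ 2 * D' ∧ (u - u') * (v - v') = (D' : k) * ((c : k) * (a : k) - (b : k)) ^ 2
        then β c * (quadraticChar k (if v = v' then -(u - u') else
          -(v - v') * ((a : k) * (b : k) * (D' : k) * (c : k))) : ℤ) else 0) =
        termM S β d s ε ⟨u, v, a, D, hD⟩ ⟨u', v', b, D', hD'⟩ := by
    intro c ε hc hε
    have hT : termM S β d s ε ⟨u, v, a, D, hD⟩ ⟨u', v', b, D', hD'⟩ =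
        (if (u - u') * (v - v') = (d : k) * ((ε * s D * a : kˣ) - (s D' * b : kˣ)) ^ 2
          then (quadraticChar k ((ε * s D * a : kˣ) : k) : ℂ) *
            (β (ε * s D / s D') * (quadraticChar k (if v - v' = 0 then
              -(u - u') else -(d * (v - v'))) : ℤ)) *
            (quadraticChar k ((s D' * b : kˣ) : k) : ℂ)
          else 0) := by
      rw [termM, Matrix.of_apply]
      exact if_pos ⟨hxP, hyP⟩
    rw [hT]
    have hs0 : (s D' : k) ≠ 0 := (s D').ne_zero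
    have hcv : (c : k) = ε * s D / s D' := by
      rw [hc, mul_div_assoc', Units.val_div_eq_div_val, Units.val_mul]
    have hDv : (D' : k) = d * (s D' : k) ^ 2 := by
      conv_lhs => rw [hy]
      rw [Units.val_mul, Units.val_pow_eq_pow_val]
    have h1 : D = c ^ 2 * D' := by
      conv_lhs => rw [hx]
      conv_rhs => rw [hy]
      rw [hc, mul_pow, hε, one_mul, div_pow]
      rw [mul_comm d (s D' ^ 2), ← mul_assoc, div_mul_cancel, mul_comm]
    have h2 : (D' : k) * ((c : k) * (a : k) - (b : k)) ^ 2 =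
        (d : k) * ((ε * s D * a : kˣ) - (s D' * b : kˣ)) ^ 2 := by
      rw [hDv, hcv, Units.val_mul, Units.val_mul, Units.val_mul]
      field_simp
    rw [h2]
    by_cases hcond : (u - u') * (v - v') = (d : k) * ((ε * s D * a : kˣ) - (s D' * b : kˣ)) ^ 2
    · rw [if_pos ⟨h1, hcond⟩, if_pos hcond]
      have h3 := eta_split (d : k) (u - u') (v - v') ((ε * s D * a : kˣ) : k)
        ((s D' * b : kˣ) : k) (Units.ne_zero _) d.ne_zero hcond
      have h4 : (if v = v' then -(u - u') else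
          -(v - v') * ((a : k) * (b : k) * (D' : k) * (c : k))) =
          (if v - v' = 0 then -(u - u') else
            -(v - v') * ((d : k) * ((ε * s D * a : kˣ) : k) * ((s D' * b : kˣ) : k))) := by
        have h5 : (v = v') ↔ (v - v' = 0) := sub_eq_zero.symm
        by_cases h6 : v = v'
        · rw [if_pos h6, if_pos (h5.mp h6)]
        · rw [if_neg h6, if_neg (fun h => h6 (h5.mpr h))]
          rw [hDv, hcv, Units.val_mul, Units.val_mul, Units.val_mul]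
          field_simp
      rw [h4, h3]
      have h5 : c = ε * s D / s D' := by rw [hc, mul_div_assoc']
      rw [h5]
      push_cast
      ring
    · rw [if_neg (fun h => hcond h.2), if_neg hcond]
  rw [kerSg, Matrix.of_apply]
  simp only
  have hne : -(s D / s D') ≠ s D / s D' := neg_ne_self' hk _
  rw [← key (s D / s D') 1 (one_mul _).symm (one_pow _),
    ← key (-(s D / s D')) (-1) (by rw [neg_one_mul]) (by rw [neg_one_sq])]
  rw [← Finset.sum_pair hne.symm (f := fun c : kˣ =>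
    if D = c ^ 2 * D' ∧ (u - u') * (v - v') = (D' : k) * ((c : k) * (a : k) - (b : k)) ^ 2
        then β c * (quadraticChar k (if v = v' then -(u - u') else
          -(v - v') * ((a : k) * (b : k) * (D' : k) * (c : k))) : ℤ) else 0)]
  symm
  refine Finset.sum_subset (Finset.subset_univ _) ?_
  intro c _ hc
  rw [if_neg]
  rintro ⟨h1, -⟩
  apply hc
  rw [Finset.mem_insert, Finset.mem_singleton]
  refine eq_or_of_sq _ _ ?_
  rw [div_pow, eq_div_iff_mul_eq']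
  have h2 : d * s D ^ 2 = c ^ 2 * (d * s D' ^ 2) := by rw [← hx, ← hy]; exact h1
  have h3 : d * s D ^ 2 = d * (c ^ 2 * s D' ^ 2) := by rw [h2]; exact mul_left_comm _ _ _
  rw [mul_left_cancel h3]

theorem card_sqH (H : Subgroup kˣ) :
    (Nat.card (H.comap (powMonoidHom 2 : kˣ →* kˣ)) : ℝ) ≤ 2 * (Nat.card H : ℝ) := by
  classical
  set H₂ : Subgroup kˣ := H.comap (powMonoidHom 2 : kˣ →* kˣ) with hH₂
  let f : H₂ → H := fun x => ⟨(x : kˣ) ^ 2, x.2⟩
  have hf : ∀ b : H, (Finset.univ.filter fun x : H₂ => f x = b).card ≤ 2 := by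
    intro b
    by_cases hb : ∃ e : H₂, f e = b
    · obtain ⟨e, rfl⟩ := hb
      have h1 : (Finset.univ.filter fun x : H₂ => f x = f e).image (fun x : H₂ => (x : kˣ)) ⊆
          ({(e : kˣ), -(e : kˣ)} : Finset kˣ) := by
        intro x hx
        obtain ⟨y, hy, rfl⟩ := Finset.mem_image.mp hx
        rw [Finset.mem_insert, Finset.mem_singleton]
        exact eq_or_of_sq _ _ (congrArg Subtype.val (Finset.mem_filter.mp hy).2)
      calc (Finset.univ.filter fun x : H₂ => f x = f e).card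
          = ((Finset.univ.filter fun x : H₂ => f x = f e).image (fun x : H₂ => (x : kˣ))).card :=
            (Finset.card_image_of_injective _ Subtype.val_injective).symm
        _ ≤ ({(e : kˣ), -(e : kˣ)} : Finset kˣ).card := Finset.card_le_card h1
        _ ≤ 2 := Finset.card_le_two
    · rw [Finset.filter_eq_empty_iff.mpr]
      · simp
      · intro x _ hx
        exact hb ⟨x, hx⟩
  have h2 := Finset.card_le_mul_card_image_of_maps_to (s := (Finset.univ : Finset H₂))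
    (t := (Finset.univ : Finset H)) (f := f) (fun _ _ => Finset.mem_univ _) 2 (fun b _ => hf b)
  rw [Finset.card_univ, Finset.card_univ] at h2
  rw [Nat.card_eq_fintype_card, Nat.card_eq_fintype_card]
  exact_mod_cast h2

theorem term_dec {δ γ C : ℝ} (hδ : 0 < δ) (hδ1 : δ ≤ 1) (hγ : 0 < γ) (hγ1 : γ ≤ 1) (hC : 1 ≤ C)
    (hG : ∀ (Γ : Type) [CommGroup Γ] [Finite Γ] (Z : Subgroup Γ) (h : Γ → ℂ)
      (_ : ∀ z ∈ Z, ∀ g, h (z * g) = h g)
      (X Y : Type) [Fintype X] [Fintype Y] (α : X → Γ) (β : Y → Γ) (t : ℝ) (_ : 0 ≤ t)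
      (_ : ∀ x₀, (({x | α x * (α x₀)⁻¹ ∈ Z} : Set X).ncard : ℝ) ≤ t)
      (_ : ∀ y₀, (({y | β y * (β y₀)⁻¹ ∈ Z} : Set Y).ncard : ℝ) ≤ t),
      RDec (Matrix.of fun x y => h (α x * (β y)⁻¹))
        (C * ((Nat.card Γ : ℝ) / (Nat.card Z : ℝ)) ^ (1 - γ))
        (t * ((Nat.card Γ : ℝ) / (Nat.card Z : ℝ)) ^ δ))
    (S : Setup k) (β : kˣ → ℂ) (hβ : ∀ c ∈ S.Z, ∀ d, β (c * d) = β d) (d ε : kˣ) (hε : ε ^ 2 = 1)
    (s : kˣ → kˣ) (hs : ∀ x ∈ clsP S d, x.2.2.2.1 = d * s x.2.2.2.1 ^ 2) :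
    RDec (termM S β d s ε) (C * (4 * (S.B * (Fintype.card k : ℝ) ^ (-γ))))
      (4 * (Fintype.card k : ℝ) ^ (4 * δ)) := by
  classical
  have hq0 : (0 : ℝ) < Fintype.card k := lt_of_lt_of_le two_pos two_le_q
  have hB0 : 0 ≤ S.B := le_trans (by positivity) (B_lower S)
  have hs4 : (0 : ℝ) ≤ 4 * (Fintype.card k : ℝ) ^ (4 * δ) := by positivity
  refine rdec_support hs4 (clsP S d) (clsP S d) ?_ ?_
  swap
  · intro x y hxy
    rw [termM, Matrix.of_apply, if_neg]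
    tauto
  by_cases hemp : (clsP S d).Nonempty
  swap
  · have : IsEmpty (clsP S d) := by
      rw [Set.not_nonempty_iff_eq_empty] at hemp
      rw [hemp]
      infer_instance
    have h0 : (termM S β d s ε).submatrix (Subtype.val : clsP S d → Cell S)
        (Subtype.val : clsP S d → Cell S) = 0 := by
      ext x y
      exact this.elim x
    rw [h0]
    exact rdec_zero.mono (by positivity) hs4
  obtain ⟨x₀, hx₀⟩ := hemp
  set s₀ : kˣ := s x₀.2.2.2.1 with hs₀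
  set H₂ : Subgroup kˣ := S.H.comap (powMonoidHom 2 : kˣ →* kˣ) with hH₂
  have hZH : S.Z ≤ H₂ := fun c hc => S.sq_mem c hc
  have hmem : ∀ (e : kˣ), e ^ 2 = 1 → ∀ x : clsP S d, e * s x.1.2.2.2.1 / s₀ ∈ H₂ := by
    intro e he x
    rw [hH₂, Subgroup.mem_comap, powMonoidHom_apply, div_pow, mul_pow, he, one_mul]
    have h1 : s x.1.2.2.2.1 ^ 2 / s₀ ^ 2 = x.1.2.2.2.1 / x₀.2.2.2.1 := by
      conv_rhs => rw [hs x.1 x.2, hs x₀ hx₀]
      rw [← hs₀]
      exact (mul_div_mul_left_eq_div _ _ _).symm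
    rw [h1]
    exact S.H.div_mem (S.T_sub _ x.1.2.2.2.2) (S.T_sub _ x₀.2.2.2.2)
  let Γ := Multiplicative (k × k × k) × H₂
  let Z₂ : Subgroup Γ := (⊥ : Subgroup (Multiplicative (k × k × k))).prod (S.Z.subgroupOf H₂)
  let h : Γ → ℂ := fun g =>
    if (Multiplicative.toAdd g.1).1 * (Multiplicative.toAdd g.1).2.1 =
        (d : k) * (Multiplicative.toAdd g.1).2.2 ^ 2 then
      β (g.2 : kˣ) * (quadraticChar k (if (Multiplicative.toAdd g.1).2.1 = 0 then
        -(Multiplicative.toAdd g.1).1 else -(d * (Multiplicative.toAdd g.1).2.1)) : ℤ) else 0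
  let α : ∀ e : kˣ, e ^ 2 = 1 → clsP S d → Γ := fun e he x =>
    (Multiplicative.ofAdd (x.1.1, x.1.2.1, ((e * s x.1.2.2.2.1 * x.1.2.2.1 : kˣ) : k)),
      ⟨e * s x.1.2.2.2.1 / s₀, hmem e he x⟩)
  have hh : ∀ z ∈ Z₂, ∀ g, h (z * g) = h g := by
    intro z hz g
    obtain ⟨hz1, hz2⟩ := Subgroup.mem_prod.mp hz
    rw [Subgroup.mem_bot] at hz1
    rw [Subgroup.mem_subgroupOf] at hz2
    simp only [h]
    have e1 : (z * g).1 = g.1 := by rw [Prod.fst_mul, hz1, one_mul]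
    have e2 : (((z * g).2 : H₂) : kˣ) = (z.2 : kˣ) * (g.2 : kˣ) := rfl
    rw [e1, e2, hβ _ hz2]
  have hfib : ∀ (e : kˣ) (he : e ^ 2 = 1) (x₁ : clsP S d),
      (({x | α e he x * (α e he x₁)⁻¹ ∈ Z₂} : Set (clsP S d)).ncard : ℝ) ≤ 1 := by
    intro e he x₁
    have : ({x | α e he x * (α e he x₁)⁻¹ ∈ Z₂} : Set (clsP S d)).ncard ≤ 1 := by
      rw [Set.ncard_le_one (Set.toFinite _)]
      have key : ∀ x : clsP S d, α e he x * (α e he x₁)⁻¹ ∈ Z₂ → x = x₁ := by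
        intro x hx
        obtain ⟨h1, h2⟩ := Subgroup.mem_prod.mp hx
        rw [Subgroup.mem_bot] at h1
        rw [Subgroup.mem_subgroupOf] at h2
        have h3 : (x.1.1, x.1.2.1, ((e * s x.1.2.2.2.1 * x.1.2.2.1 : kˣ) : k)) =
            (x₁.1.1, x₁.1.2.1, ((e * s x₁.1.2.2.2.1 * x₁.1.2.2.1 : kˣ) : k)) := by
          have h4 := mul_inv_eq_one.mp h1
          exact Multiplicative.ofAdd.injective h4
        simp only [Prod.mk.injEq] at h3
        obtain ⟨h5, h6, h7⟩ := h3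
        have h8 : s x.1.2.2.2.1 / s x₁.1.2.2.2.1 ∈ S.Z := by
          have h9 : ((α e he x * (α e he x₁)⁻¹).2 : kˣ) =
              (e * s x.1.2.2.2.1 / s₀) * (e * s x₁.1.2.2.2.1 / s₀)⁻¹ := rfl
          rw [h9] at h2
          have h10 : (e * s x.1.2.2.2.1 / s₀) * (e * s x₁.1.2.2.2.1 / s₀)⁻¹ =
              s x.1.2.2.2.1 / s x₁.1.2.2.2.1 := by
            rw [← div_eq_mul_inv, div_div_div_cancel_right, mul_div_mul_left_eq_div]
          rwa [h10] at h2
        have h11 : x.1.2.2.2.1 = x₁.1.2.2.2.1 := by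
          refine S.T_inj _ x.1.2.2.2.2 _ x₁.1.2.2.2.2 _ h8 ?_
          have e1 := hs x.1 x.2
          have e2 := hs x₁.1 x₁.2
          calc x.1.2.2.2.1 = d * s x.1.2.2.2.1 ^ 2 := e1
            _ = (s x.1.2.2.2.1 / s x₁.1.2.2.2.1) ^ 2 * (d * s x₁.1.2.2.2.1 ^ 2) := by
              rw [div_pow, mul_left_comm, div_mul_cancel]
            _ = (s x.1.2.2.2.1 / s x₁.1.2.2.2.1) ^ 2 * x₁.1.2.2.2.1 := by rw [← e2]
        have h12 : x.1.2.2.1 = x₁.1.2.2.1 := by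
          have h13 : e * s x.1.2.2.2.1 * x.1.2.2.1 = e * s x₁.1.2.2.2.1 * x₁.1.2.2.1 :=
            Units.ext h7
          rw [h11] at h13
          exact mul_left_cancel h13
        apply Subtype.ext
        exact Prod.ext h5 (Prod.ext h6 (Prod.ext h12 (Subtype.ext h11)))
      intro x hx y hy
      rw [key x hx, key y hy]
    exact_mod_cast this
  have main := hG Γ Z₂ h hh (clsP S d) (clsP S d) (α ε hε) (α 1 (one_pow 2)) 1 zero_le_one
    (hfib ε hε) (hfib 1 (one_pow 2))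
  have hcard : ((Nat.card Γ : ℝ) / (Nat.card Z₂ : ℝ)) ≤ 4 * S.B ∧
      0 ≤ ((Nat.card Γ : ℝ) / (Nat.card Z₂ : ℝ)) := by
    have hZ2 : Nat.card Z₂ = Nat.card S.Z := by
      have e1 := Nat.card_congr (Subgroup.prodEquiv (⊥ : Subgroup (Multiplicative (k × k × k)))
        (S.Z.subgroupOf H₂)).toEquiv
      rw [Nat.card_prod, Subgroup.card_bot, one_mul,
        Nat.card_congr (Subgroup.subgroupOfEquivOfLe hZH).toEquiv] at e1
      exact e1
    have hΓ : Nat.card Γ = Fintype.card k ^ 3 * Nat.card H₂ := by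
      show Nat.card (Multiplicative (k × k × k) × H₂) = _
      rw [Nat.card_prod]
      congr 1
      rw [Nat.card_congr Multiplicative.toAdd, Nat.card_prod, Nat.card_prod,
        Nat.card_eq_fintype_card]
      ring
    rw [hZ2, hΓ]
    have h1 := card_sqH S.H
    rw [← hH₂] at h1
    have hZpos : (0 : ℝ) < Nat.card S.Z := by exact_mod_cast Nat.card_pos
    refine ⟨?_, by positivity⟩
    rw [Setup.B, Setup.m, ← mul_div_assoc, ← mul_div_assoc]
    refine div_le_div_of_nonneg_right ?_ hZpos.le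
    push_cast
    have h2 : (Fintype.card k : ℝ) ^ 3 * (Nat.card H₂ : ℝ) ≤
        (Fintype.card k : ℝ) ^ 3 * (2 * (Nat.card S.H : ℝ)) :=
      mul_le_mul_of_nonneg_left h1 (by positivity)
    have h3 : (0 : ℝ) ≤ (Fintype.card k : ℝ) ^ 3 * (Nat.card S.H : ℝ) := by positivity
    linarith
  have main2 := (main.diag (fun x => (quadraticChar k
      ((ε * s x.1.2.2.2.1 * x.1.2.2.1 : kˣ) : k) : ℂ))
    (fun y => (quadraticChar k ((s y.1.2.2.2.1 * y.1.2.2.1 : kˣ) : k) : ℂ))).mono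
    (mul_le_mul_of_nonneg_left (pow_le_B S γ hγ hγ1 _ hcard.2 hcard.1) (by linarith))
    ((one_mul _).le.trans (pow_le_q S δ hδ hδ1 _ hcard.2 hcard.1))
  refine Eq.subst (motive := fun M => RDec M _ _) ?_ main2
  ext x y
  rw [Matrix.of_apply, Matrix.of_apply, Matrix.submatrix_apply, termM, Matrix.of_apply,
    if_pos ⟨x.2, y.2⟩]
  have e1 : (α ε hε x * (α 1 (one_pow 2) y)⁻¹).1 = Multiplicative.ofAdd
      (x.1.1 - y.1.1, x.1.2.1 - y.1.2.1, ((ε * s x.1.2.2.2.1 * x.1.2.2.1 : kˣ) : k) -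
        ((1 * s y.1.2.2.2.1 * y.1.2.2.1 : kˣ) : k)) := by
    show Multiplicative.ofAdd _ * (Multiplicative.ofAdd _)⁻¹ = _
    rw [← ofAdd_neg, ← ofAdd_add]
    refine congrArg Multiplicative.ofAdd ?_
    rw [← sub_eq_add_neg]
    rfl
  have e2 : (((α ε hε x * (α 1 (one_pow 2) y)⁻¹).2 : H₂) : kˣ) =
      ε * s x.1.2.2.2.1 / s y.1.2.2.2.1 := by
    show (ε * s x.1.2.2.2.1 / s₀) * (1 * s y.1.2.2.2.1 / s₀)⁻¹ = _
    rw [← div_eq_mul_inv, div_div_div_cancel_right, one_mul]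
  simp only [h]
  rw [e1, e2]
  simp only [toAdd_ofAdd, one_mul]
  split_ifs <;> simp

/-- The two classes of units modulo squares. -/
theorem exists_classes (hk : ringChar k ≠ 2) : ∃ ν : kˣ, (∀ D : kˣ, (∃ s : kˣ, D = 1 * s ^ 2) ∨
    ∃ s : kˣ, D = ν * s ^ 2) ∧ ∀ D : kˣ, ¬ ((∃ s : kˣ, D = 1 * s ^ 2) ∧ ∃ s : kˣ, D = ν * s ^ 2) := by
  obtain ⟨a, ha⟩ := FiniteField.exists_nonsquare hk
  have ha0 : a ≠ 0 := by
    rintro rfl
    exact ha ⟨0, by simp⟩
  have hsq : ∀ D : kˣ, IsSquare (D : k) → ∃ s : kˣ, D = s ^ 2 := by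
    intro D hD
    obtain ⟨r, hr⟩ := hD
    have hr0 : r ≠ 0 := by
      rintro rfl
      exact D.ne_zero (by rw [hr, mul_zero])
    refine ⟨Units.mk0 r hr0, Units.ext ?_⟩
    rw [Units.val_pow_eq_pow_val, Units.val_mk0, hr, sq]
  refine ⟨Units.mk0 a ha0, ?_, ?_⟩
  · intro D
    by_cases hD : IsSquare (D : k)
    · obtain ⟨s, hs⟩ := hsq D hD
      exact Or.inl ⟨s, by rw [hs, one_mul]⟩
    · right
      have h1 : quadraticChar k (D : k) = -1 := quadraticChar_neg_one_iff_not_isSquare.mpr hD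
      have h2 : quadraticChar k a = -1 := quadraticChar_neg_one_iff_not_isSquare.mpr ha
      have h3 : quadraticChar k ((D / Units.mk0 a ha0 : kˣ) : k) = 1 := by
        have h4 : quadraticChar k ((D / Units.mk0 a ha0 : kˣ) : k) * quadraticChar k a =
            quadraticChar k (D : k) := by
          rw [← map_mul]
          congr 1
          rw [Units.val_div_eq_div_val, Units.val_mk0]
          field_simp
        rw [h1, h2] at h4
        linarith
      obtain ⟨s, hs⟩ := hsq _ ((quadraticChar_one_iff_isSquare (Units.ne_zero _)).mp h3)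
      exact ⟨s, by rw [← hs, mul_div_cancel]⟩
  · rintro D ⟨⟨s, hs⟩, ⟨t, ht⟩⟩
    apply ha
    refine ⟨(s : k) / t, ?_⟩
    have h1 : (s : k) ^ 2 = a * (t : k) ^ 2 := by
      have h2 : s ^ 2 = Units.mk0 a ha0 * t ^ 2 := by rw [← ht, hs, one_mul]
      have h3 := congrArg (Units.val) h2
      rwa [Units.val_mul, Units.val_pow_eq_pow_val, Units.val_pow_eq_pow_val, Units.val_mk0] at h3
    have ht0 : (t : k) ≠ 0 := t.ne_zero
    field_simp
    rw [← h1]

theorem kerSg_eq (hk : ringChar k ≠ 2) (S : Setup k) (β : kˣ → ℂ) :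
    ∃ (ν : kˣ) (s₁ s₂ : kˣ → kˣ), (∀ x ∈ clsP S 1, x.2.2.2.1 = 1 * s₁ x.2.2.2.1 ^ 2) ∧
      (∀ x ∈ clsP S ν, x.2.2.2.1 = ν * s₂ x.2.2.2.1 ^ 2) ∧
      kerSg S β = (termM S β 1 s₁ 1 + termM S β 1 s₁ (-1)) +
        (termM S β ν s₂ 1 + termM S β ν s₂ (-1)) := by
  classical
  obtain ⟨ν, h1, h2⟩ := exists_classes (k := k) hk
  have hch : ∀ d : kˣ, ∃ s : kˣ → kˣ, ∀ D, (∃ s' : kˣ, D = d * s' ^ 2) → D = d * s D ^ 2 := by
    intro d
    have : ∀ D : kˣ, ∃ s : kˣ, (∃ s' : kˣ, D = d * s' ^ 2) → D = d * s ^ 2 := by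
      intro D
      by_cases h : ∃ s' : kˣ, D = d * s' ^ 2
      · obtain ⟨s, hs⟩ := h
        exact ⟨s, fun _ => hs⟩
      · exact ⟨1, fun h' => absurd h' h⟩
    choose s hs using this
    exact ⟨s, hs⟩
  obtain ⟨s₁, hs₁⟩ := hch 1
  obtain ⟨s₂, hs₂⟩ := hch ν
  refine ⟨ν, s₁, s₂, fun x hx => hs₁ _ hx, fun x hx => hs₂ _ hx, ?_⟩
  have hzero : ∀ (d ε : kˣ) (s : kˣ → kˣ) (x y : Cell S), ¬ (x ∈ clsP S d ∧ y ∈ clsP S d) →
      termM S β d s ε x y = 0 := by
    intro d ε s x y h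
    rw [termM, Matrix.of_apply, if_neg h]
  ext x y
  rw [Matrix.add_apply, Matrix.add_apply, Matrix.add_apply]
  by_cases hc1 : x ∈ clsP S 1 ∧ y ∈ clsP S 1
  · rw [kerSg_same hk S β 1 s₁ x y (hs₁ _ hc1.1) (hs₁ _ hc1.2)]
    have h3 : ¬ (x ∈ clsP S ν ∧ y ∈ clsP S ν) := fun h => h2 _ ⟨hc1.1, h.1⟩
    rw [hzero ν 1 s₂ x y h3, hzero ν (-1) s₂ x y h3, add_zero, add_zero]
  · by_cases hc2 : x ∈ clsP S ν ∧ y ∈ clsP S ν
    · rw [kerSg_same hk S β ν s₂ x y (hs₂ _ hc2.1) (hs₂ _ hc2.2)]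
      rw [hzero 1 1 s₁ x y hc1, hzero 1 (-1) s₁ x y hc1, add_zero, zero_add]
    · rw [hzero 1 1 s₁ x y hc1, hzero 1 (-1) s₁ x y hc1, hzero ν 1 s₂ x y hc2,
        hzero ν (-1) s₂ x y hc2, add_zero, add_zero]
      rw [kerSg, Matrix.of_apply]
      refine Finset.sum_eq_zero ?_
      intro c _
      rw [if_neg]
      rintro ⟨h3, -⟩
      rcases h1 y.2.2.2.1 with ⟨t, ht⟩ | ⟨t, ht⟩
      · exact hc1 ⟨⟨c * t, by rw [h3, ht, mul_pow]; exact mul_left_comm _ _ _⟩, ⟨t, ht⟩⟩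
      · exact hc2 ⟨⟨c * t, by rw [h3, ht, mul_pow]; exact mul_left_comm _ _ _⟩, ⟨t, ht⟩⟩

end

/-- Rows with determinant `D = d s²` (`d = 1` or a fixed non-square) have two lifts `(± s, ± s a)`;
with `c = s / s'` the kernel is `β(s / s') η(s a) η(s' b)` times
`[U V = d (s a - s' b)²] η(- d V)` (or `η(- U)` if `V = 0`), a pulled back group matrix of
`k × k × k × {s : s² ∈ H}` modulo `Z`. -/
theorem kerSg_dec (δ : ℝ) (hδ : 0 < δ) (hδ1 : δ ≤ 1) : ∃ γ : ℝ, 0 < γ ∧ γ ≤ 1 ∧ ∃ C : ℝ, 1 ≤ C ∧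
    ∀ (k : Type) [Field k] [Fintype k] [DecidableEq k] (_ : ringChar k ≠ 2) (S : Setup k)
      (β : kˣ → ℂ) (_ : ∀ c ∈ S.Z, ∀ d, β (c * d) = β d),
      RDec (kerSg S β) (C * (S.B * (Fintype.card k : ℝ) ^ (-γ)))
        (C * (Fintype.card k : ℝ) ^ δ) := by
  obtain ⟨γ, hγ, hγ1, C, hC, hG⟩ := group_dec (δ / 4) (by positivity) (by linarith)
  refine ⟨γ, hγ, hγ1, 16 * C, by linarith, ?_⟩
  intro k _ _ _ hk S β hβ
  obtain ⟨ν, s₁, s₂, h1, h2, h3⟩ := kerSg_eq hk S β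
  have hd4 : δ / 4 ≤ 1 := by linarith
  have hd0 : 0 < δ / 4 := by positivity
  have t1 := term_dec hd0 hd4 hγ hγ1 hC hG S β hβ 1 1 (one_pow 2) s₁ h1
  have t2 := term_dec hd0 hd4 hγ hγ1 hC hG S β hβ 1 (-1) (neg_one_sq) s₁ h1
  have t3 := term_dec hd0 hd4 hγ hγ1 hC hG S β hβ ν 1 (one_pow 2) s₂ h2
  have t4 := term_dec hd0 hd4 hγ hγ1 hC hG S β hβ ν (-1) (neg_one_sq) s₂ h2
  rw [h3]
  have hq0 : (0 : ℝ) < Fintype.card k := lt_of_lt_of_le two_pos two_le_q
  refine ((t1.add t2).add (t3.add t4)).mono (le_of_eq (by ring)) ?_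
  have e : 4 * (δ / 4) = δ := by ring
  rw [e]
  have hp : (0 : ℝ) ≤ (Fintype.card k : ℝ) ^ δ := by positivity
  nlinarith

end MP0775d3.Sl2
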