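import Pool.Agent.Lib.MP_0775d3_lc.Sl2.GroupDec
import Pool.Agent.Lib.MP_0775d3_lc.Sl2.Sizes

/-! The kernels supported on scalars and on scalars times unipotent elements. -/

set_option linter.unusedSectionVars false

namespace MP0775d3.Sl2

open Matrix

section Aux

variable {k : Type} [Field k] [Fintype k] [DecidableEq k]

/-- The group in which the coordinates of the big cell live. -/
abbrev ScG (S : Setup k) : Type := Multiplicative (k × k) × kˣ × S.H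

/-- The embedding of the scalars. -/
def scHom (S : Setup k) : S.Z →* ScG S where
  toFun c := (1, (c : kˣ)⁻¹, ⟨(c : kˣ) ^ 2, S.sq_mem c c.2⟩)
  map_one' := by
    ext <;> simp
  map_mul' a b := by
    refine Prod.ext ?_ (Prod.ext ?_ ?_)
    · simp
    · simp [mul_comm]
    · apply Subtype.ext
      simp [mul_pow]

/-- The coordinates. -/
def scCo (S : Setup k) (x : Cell S) : ScG S :=
  (Multiplicative.ofAdd (x.1, x.2.1), x.2.2.1, ⟨x.2.2.2.1, S.T_sub _ x.2.2.2.2⟩)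

/-- The function. -/
noncomputable def scFn (S : Setup k) (σ : kˣ → ℂ) (g : ScG S) : ℂ :=
  if g.1 = 1 ∧ (g.2.2 : kˣ) = (g.2.1⁻¹) ^ 2 then σ (g.2.1⁻¹) else 0

theorem scHom_inj (S : Setup k) : Function.Injective (scHom S) := by
  intro a b h
  have h2 : (scHom S a).2.1 = (scHom S b).2.1 := by rw [h]
  apply Subtype.ext
  have h3 : (a : kˣ)⁻¹ = (b : kˣ)⁻¹ := h2
  exact inv_injective h3

theorem scFn_inv (S : Setup k) (σ : kˣ → ℂ) (hσ : ∀ c ∈ S.Z, ∀ d, σ (c * d) = σ d)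
    (z : ScG S) (hz : z ∈ (scHom S).range) (g : ScG S) : scFn S σ (z * g) = scFn S σ g := by
  obtain ⟨c, rfl⟩ := hz
  have h1 : (scHom S c * g).1 = g.1 := by
    change (1 : Multiplicative (k × k)) * g.1 = g.1
    rw [one_mul]
  have h2 : (scHom S c * g).2.1⁻¹ = (c : kˣ) * g.2.1⁻¹ := by
    change ((c : kˣ)⁻¹ * g.2.1)⁻¹ = _
    rw [mul_inv, inv_inv]
  have h3 : (((scHom S c * g).2.2 : S.H) : kˣ) = (c : kˣ) ^ 2 * (g.2.2 : kˣ) := rfl
  have h4 : (c : kˣ) ^ 2 * (g.2.2 : kˣ) = ((c : kˣ) * g.2.1⁻¹) ^ 2 ↔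
      (g.2.2 : kˣ) = (g.2.1⁻¹) ^ 2 := by
    rw [mul_pow]
    exact mul_right_inj _
  unfold scFn
  rw [h1, h2, h3, hσ c c.2]
  simp only [h4]

theorem scFn_eq (S : Setup k) (σ : kˣ → ℂ) (x y : Cell S) :
    kerSc S σ x y = scFn S σ (scCo S x * (scCo S y)⁻¹) := by
  have h1 : (scCo S x * (scCo S y)⁻¹).1 = 1 ↔ (x.1 = y.1 ∧ x.2.1 = y.2.1) := by
    change Multiplicative.ofAdd (x.1, x.2.1) * (Multiplicative.ofAdd (y.1, y.2.1))⁻¹ = 1 ↔ _
    rw [mul_inv_eq_one]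
    rw [Multiplicative.ofAdd.injective.eq_iff, Prod.mk.injEq]
  have h2 : (scCo S x * (scCo S y)⁻¹).2.1⁻¹ = y.2.2.1 * x.2.2.1⁻¹ := by
    change (x.2.2.1 * (y.2.2.1)⁻¹)⁻¹ = _
    rw [mul_inv, inv_inv, mul_comm]
  have h3 : (((scCo S x * (scCo S y)⁻¹).2.2 : S.H) : kˣ) = x.2.2.2.1 * (y.2.2.2.1)⁻¹ := rfl
  unfold scFn
  rw [h2, h3]
  simp only [h1]
  rw [kerSc, Matrix.of_apply]
  rw [Finset.sum_eq_single (y.2.2.1 * x.2.2.1⁻¹)]
  · have h5 : (x.1 = y.1 ∧ x.2.1 = y.2.1 ∧ y.2.2.1 = y.2.2.1 * x.2.2.1⁻¹ * x.2.2.1 ∧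
        x.2.2.2.1 = (y.2.2.1 * x.2.2.1⁻¹) ^ 2 * y.2.2.2.1) ↔
        ((x.1 = y.1 ∧ x.2.1 = y.2.1) ∧
          x.2.2.2.1 * (y.2.2.2.1)⁻¹ = (y.2.2.1 * x.2.2.1⁻¹) ^ 2) := by
      rw [mul_inv_eq_iff_eq_mul, inv_mul_cancel_right]
      tauto
    simp only [h5]
  · intro c _ hc
    rw [if_neg]
    rintro ⟨-, -, h, -⟩
    apply hc
    rw [h, mul_inv_cancel_right]
  · intro h
    exact absurd (Finset.mem_univ _) h

theorem scCo_fibre (S : Setup k) (x₀ : Cell S) :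
    (({x | scCo S x * (scCo S x₀)⁻¹ ∈ (scHom S).range} : Set (Cell S)).ncard : ℝ) ≤ 2 := by
  have hsub : ({x | scCo S x * (scCo S x₀)⁻¹ ∈ (scHom S).range} : Set (Cell S)) ⊆
      {x₀, (x₀.1, x₀.2.1, -x₀.2.2.1, x₀.2.2.2)} := by
    rintro x ⟨c, hc⟩
    have e1 : (1 : Multiplicative (k × k)) =
        Multiplicative.ofAdd (x.1, x.2.1) * (Multiplicative.ofAdd (x₀.1, x₀.2.1))⁻¹ := by
      have := congrArg Prod.fst hc
      exact this
    have e2 : (c : kˣ)⁻¹ = x.2.2.1 * (x₀.2.2.1)⁻¹ := by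
      have := congrArg (fun g : ScG S => g.2.1) hc
      exact this
    have e3 : (c : kˣ) ^ 2 = x.2.2.2.1 * (x₀.2.2.2.1)⁻¹ := by
      have := congrArg (fun g : ScG S => (g.2.2 : kˣ)) hc
      exact this
    have e1' : (x.1, x.2.1) = (x₀.1, x₀.2.1) := by
      have h := (mul_inv_eq_one.1 e1.symm)
      exact Multiplicative.ofAdd.injective h
    have e1a : x.1 = x₀.1 := (Prod.mk.injEq _ _ _ _ ▸ e1').1
    have e1b : x.2.1 = x₀.2.1 := (Prod.mk.injEq _ _ _ _ ▸ e1').2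
    have e3' : x.2.2.2.1 = (c : kˣ) ^ 2 * x₀.2.2.2.1 := by
      rw [e3, inv_mul_cancel_right]
    have e4 : x.2.2.2.1 = x₀.2.2.2.1 :=
      S.T_inj _ x.2.2.2.2 _ x₀.2.2.2.2 c c.2 e3'
    have e5 : x.2.2.2 = x₀.2.2.2 := Subtype.ext e4
    have e6 : (c : kˣ) ^ 2 = 1 := by
      rw [e3, e4, mul_inv_cancel]
    have e7 : (c : kˣ) = 1 ∨ (c : kˣ) = -1 := by
      have h7 : ((c : kˣ) : k) ^ 2 = 1 := by
        rw [← Units.val_pow_eq_pow_val, e6, Units.val_one]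
      have h8 : (((c : kˣ) : k) - 1) * (((c : kˣ) : k) + 1) = 0 := by
        linear_combination h7
      rcases mul_eq_zero.1 h8 with h | h
      · left
        exact Units.ext (sub_eq_zero.1 h)
      · right
        apply Units.ext
        rw [eq_neg_of_add_eq_zero_left h]
        simp
    have e8 : x.2.2.1 = (c : kˣ)⁻¹ * x₀.2.2.1 := by
      rw [e2, inv_mul_cancel_right]
    rcases e7 with h | h
    · left
      refine Prod.ext e1a (Prod.ext e1b (Prod.ext ?_ e5))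
      rw [e8, h, inv_one, one_mul]
    · right
      refine Prod.ext e1a (Prod.ext e1b (Prod.ext ?_ e5))
      rw [e8, h]
      simp
  have h1 := Set.ncard_le_ncard hsub (Set.toFinite _)
  have h2 := Set.ncard_insert_le x₀ ({(x₀.1, x₀.2.1, -x₀.2.2.1, x₀.2.2.2)} : Set (Cell S))
  rw [Set.ncard_singleton] at h2
  exact_mod_cast h1.trans h2

theorem sc_card (S : Setup k) :
    (Nat.card (ScG S) : ℝ) / (Nat.card (scHom S).range : ℝ) ≤ 4 * S.B := by
  have h1 : Nat.card (scHom S).range = Nat.card S.Z := by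
    exact Nat.card_congr (MonoidHom.ofInjective (scHom_inj S)).symm.toEquiv
  have h2 : Nat.card (ScG S) = Fintype.card k * Fintype.card k * ((Fintype.card k - 1) *
      Nat.card S.H) := by
    rw [Nat.card_prod, Nat.card_prod, card_units]
    rw [Nat.card_congr (Multiplicative.toAdd : Multiplicative (k × k) ≃ k × k), Nat.card_prod,
      Nat.card_eq_fintype_card]
  have hZ : (0 : ℝ) < Nat.card S.Z := by exact_mod_cast Nat.card_pos
  have h3 : ((Nat.card (ScG S) : ℕ) : ℝ) ≤ (Fintype.card k : ℝ) ^ 3 * Nat.card S.H := by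
    have h4 : Nat.card (ScG S) ≤ (Fintype.card k) ^ 3 * Nat.card S.H := by
      rw [h2]
      calc Fintype.card k * Fintype.card k * ((Fintype.card k - 1) * Nat.card S.H)
          ≤ Fintype.card k * Fintype.card k * (Fintype.card k * Nat.card S.H) := by
            gcongr
            exact Nat.sub_le _ _
        _ = (Fintype.card k) ^ 3 * Nat.card S.H := by ring
    exact_mod_cast h4
  rw [h1]
  have h5 : (Nat.card (ScG S) : ℝ) / (Nat.card S.Z : ℝ) ≤ S.B := by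
    rw [Setup.B, Setup.m, ← mul_div_assoc]
    gcongr
  have h6 : 0 ≤ S.B := by
    rw [Setup.B, Setup.m]
    positivity
  linarith

end Aux

/-- A pulled back group matrix of `k × k × kˣ × H` modulo `{(0, 0, c⁻¹, c²)}`. -/
theorem kerSc_dec (δ : ℝ) (hδ : 0 < δ) (hδ1 : δ ≤ 1) : ∃ γ : ℝ, 0 < γ ∧ γ ≤ 1 ∧ ∃ C : ℝ, 1 ≤ C ∧
    ∀ (k : Type) [Field k] [Fintype k] [DecidableEq k] (S : Setup k)
      (σ : kˣ → ℂ) (_ : ∀ c ∈ S.Z, ∀ d, σ (c * d) = σ d),
      RDec (kerSc S σ) (C * (S.B * (Fintype.card k : ℝ) ^ (-γ)))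
        (C * (Fintype.card k : ℝ) ^ δ) := by
  obtain ⟨γ, hγ, hγ1, C, hC, H⟩ := group_dec (δ / 4) (by positivity) (by linarith)
  refine ⟨γ, hγ, hγ1, 8 * C, by linarith, ?_⟩
  intro k _ _ _ S σ hσ
  have h := H (ScG S) (scHom S).range (scFn S σ) (fun z hz g => scFn_inv S σ hσ z hz g)
    (Cell S) (Cell S) (scCo S) (scCo S) 2 (by norm_num) (scCo_fibre S) (scCo_fibre S)
  have e : (Matrix.of fun x y => scFn S σ (scCo S x * (scCo S y)⁻¹)) = kerSc S σ := by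
    ext x y
    rw [Matrix.of_apply, scFn_eq]
  rw [e] at h
  have hg : (0 : ℝ) ≤ (Nat.card (ScG S) : ℝ) / (Nat.card (scHom S).range : ℝ) := by positivity
  have hB := pow_le_B S γ hγ hγ1 _ hg (sc_card S)
  have hq := pow_le_q S (δ / 4) (by positivity) (by linarith) _ hg (sc_card S)
  have hB0 : 0 ≤ S.B * (Fintype.card k : ℝ) ^ (-γ) := by
    rw [Setup.B, Setup.m]
    positivity
  have hq0 : 0 ≤ (Fintype.card k : ℝ) ^ δ := by positivity
  refine h.mono ?_ ?_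
  · calc C * ((Nat.card (ScG S) : ℝ) / (Nat.card (scHom S).range : ℝ)) ^ (1 - γ)
        ≤ C * (4 * (S.B * (Fintype.card k : ℝ) ^ (-γ))) := by gcongr
      _ ≤ 8 * C * (S.B * (Fintype.card k : ℝ) ^ (-γ)) := by nlinarith
  · have h4 : 4 * (δ / 4) = δ := by ring
    rw [h4] at hq
    calc (2 : ℝ) * ((Nat.card (ScG S) : ℝ) / (Nat.card (scHom S).range : ℝ)) ^ (δ / 4)
        ≤ 2 * (4 * (Fintype.card k : ℝ) ^ δ) := by gcongr
      _ ≤ 8 * C * (Fintype.card k : ℝ) ^ δ := by nlinarith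

end MP0775d3.Sl2
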