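import Pool.Agent.Lib.MP_0775d3_lc.Sl2.General
import Pool.Agent.Lib.MP_0775d3_lc.Sl2.Special
import Pool.Agent.Lib.MP_0775d3_lc.Sl2.Sign
import Pool.Agent.Lib.MP_0775d3_lc.Sl2.CellEq

/-! Matrices of invariant functions on the big cell. -/

set_option linter.unusedSectionVars false

namespace MP0775d3.Sl2

open Matrix

theorem cell_dec (δ : ℝ) (hδ : 0 < δ) (hδ1 : δ ≤ 1) : ∃ γ : ℝ, 0 < γ ∧ γ ≤ 1 ∧ ∃ C : ℝ, 1 ≤ C ∧
    ∀ (k : Type) [Field k] [Fintype k] [DecidableEq k] (S : Setup k) (f : GL (Fin 2) k → ℂ)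
      (_ : ∀ p g : GL (Fin 2) k, Matrix.GeneralLinearGroup.det p = 1 → f (p * g * p⁻¹) = f g)
      (_ : ∀ c ∈ S.Z, ∀ g, f (Matrix.GeneralLinearGroup.scalar (Fin 2) c * g) = f g),
      RDec (Matrix.of fun x y : Cell S => f (cellMat S x * (cellMat S y)⁻¹))
        (C * (S.B * (Fintype.card k : ℝ) ^ (-γ))) (C * (Fintype.card k : ℝ) ^ δ) := by
  obtain ⟨γ1, h1, h1', C1, hC1, H1⟩ := kerPhi_dec δ hδ hδ1
  obtain ⟨γ2, h2, h2', C2, hC2, H2⟩ := kerSg_dec δ hδ hδ1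
  obtain ⟨γ3, h3, h3', C3, hC3, H3⟩ := kerSc_dec δ hδ hδ1
  refine ⟨min γ1 (min γ2 γ3), lt_min h1 (lt_min h2 h3), (min_le_left _ _).trans h1',
    C1 + C2 + C3, by linarith, ?_⟩
  intro k _ _ _ S f hf hZ
  obtain ⟨Φ, β, σ, hΦ, hβ, hσ, h0, heq⟩ := cell_eq S f hf hZ
  rw [heq]
  set γ : ℝ := min γ1 (min γ2 γ3) with hγ
  have hq : (1 : ℝ) ≤ Fintype.card k := by linarith [two_le_q (k := k)]
  have hB : 0 ≤ S.B := le_trans (by positivity) (B_lower S)
  have hqδ : 0 ≤ (Fintype.card k : ℝ) ^ δ := by positivity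
  have key : ∀ γ' : ℝ, γ ≤ γ' → S.B * (Fintype.card k : ℝ) ^ (-γ') ≤
      S.B * (Fintype.card k : ℝ) ^ (-γ) := by
    intro γ' h
    exact mul_le_mul_of_nonneg_left (Real.rpow_le_rpow_of_exponent_le hq (by linarith)) hB
  have k1 := key γ1 (min_le_left _ _)
  have k2 := key γ2 ((min_le_right _ _).trans (min_le_left _ _))
  have k3 := key γ3 ((min_le_right _ _).trans (min_le_right _ _))
  have D1 : RDec (kerPhi S Φ) (C1 * (S.B * (Fintype.card k : ℝ) ^ (-γ)))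
      (C1 * (Fintype.card k : ℝ) ^ δ) :=
    (H1 k S Φ hΦ).mono (mul_le_mul_of_nonneg_left k1 (by linarith)) le_rfl
  have D3 : RDec (kerSc S σ) (C3 * (S.B * (Fintype.card k : ℝ) ^ (-γ)))
      (C3 * (Fintype.card k : ℝ) ^ δ) :=
    (H3 k S σ hσ).mono (mul_le_mul_of_nonneg_left k3 (by linarith)) le_rfl
  have D2 : RDec (kerSg S β) (C2 * (S.B * (Fintype.card k : ℝ) ^ (-γ)))
      (C2 * (Fintype.card k : ℝ) ^ δ) := by
    by_cases hk : ringChar k = 2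
    · have hz : kerSg S β = 0 := by
        rw [h0 hk]
        ext x y
        simp [kerSg]
      rw [hz]
      exact rdec_zero.mono (by positivity) (by positivity)
    · exact (H2 k hk S β hβ).mono (mul_le_mul_of_nonneg_left k2 (by linarith)) le_rfl
  have D := (D1.add D2).add D3
  refine D.mono (le_of_eq ?_) (le_of_eq ?_) <;> ring

end MP0775d3.Sl2
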