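import Pool.Agent.Lib.MP_0775d3_lc.Sl2.Defs

/-! Conjugation by elements of determinant one in `GL₂(k)`. -/

set_option linter.unusedSectionVars false

namespace MP0775d3.Sl2

open Matrix

variable {k : Type} [Field k]

/-- The matrix `[[0, -D / c], [c, t]]` with trace `t` and determinant `D`. -/
noncomputable def comp (c : kˣ) (t : k) (D : kˣ) : GL (Fin 2) k :=
  Matrix.GeneralLinearGroup.mkOfDetNeZero !![0, -(D / c); (c : k), t] (by
    rw [Matrix.det_fin_two_of]
    have hc : (c : k) ≠ 0 := c.ne_zero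
    field_simp
    simp)

theorem comp_coe (c : kˣ) (t : k) (D : kˣ) :
    ((comp c t D : GL (Fin 2) k) : Matrix (Fin 2) (Fin 2) k) =
      !![(0 : k), -((D : k) / (c : k)); (c : k), t] := rfl

/-- The element of determinant one with given entries. -/
noncomputable def sl (x y z w : k) (h : x * w - y * z = 1) : GL (Fin 2) k :=
  Matrix.GeneralLinearGroup.mkOfDetNeZero !![x, y; z, w] (by
    rw [Matrix.det_fin_two_of, h]
    exact one_ne_zero)

theorem sl_coe (x y z w : k) (h : x * w - y * z = 1) :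
    ((sl x y z w h : GL (Fin 2) k) : Matrix (Fin 2) (Fin 2) k) = !![x, y; z, w] := rfl

theorem sl_det (x y z w : k) (h : x * w - y * z = 1) :
    Matrix.GeneralLinearGroup.det (sl x y z w h) = 1 := by
  apply Units.ext
  rw [Matrix.GeneralLinearGroup.val_det_apply, sl_coe, Matrix.det_fin_two_of, h, Units.val_one]

theorem sl_inv (x y z w : k) (h : x * w - y * z = 1) :
    (sl x y z w h)⁻¹ = sl w (-y) (-z) x (by linear_combination h) := by
  rw [inv_eq_iff_mul_eq_one]
  apply Units.ext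
  rw [Units.val_mul, sl_coe, sl_coe, Units.val_one]
  rw [Matrix.mul_fin_two]
  ext i j
  fin_cases i <;> fin_cases j <;> simp
  · linear_combination h
  · ring
  · ring
  · linear_combination h

/-- An element with lower left entry `c ≠ 0` is conjugate to `comp c t D` by an element of
determinant one. -/
theorem conj_comp (g : GL (Fin 2) k) (c : kˣ) (hc : (g : Matrix (Fin 2) (Fin 2) k) 1 0 = c) :
    ∃ p : GL (Fin 2) k, Matrix.GeneralLinearGroup.det p = 1 ∧
      p * g * p⁻¹ = comp c (Matrix.trace (g : Matrix (Fin 2) (Fin 2) k))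
        (Matrix.GeneralLinearGroup.det g) := by
  have hc0 : (c : k) ≠ 0 := c.ne_zero
  refine ⟨sl 1 (-((g : Matrix (Fin 2) (Fin 2) k) 0 0 / c)) 0 1 (by ring), sl_det _ _ _ _ _, ?_⟩
  rw [sl_inv]
  apply Units.ext
  rw [Units.val_mul, Units.val_mul, sl_coe, sl_coe, comp_coe,
    Matrix.GeneralLinearGroup.val_det_apply, Matrix.det_fin_two, Matrix.trace_fin_two]
  rw [Matrix.eta_fin_two (g : Matrix (Fin 2) (Fin 2) k), Matrix.mul_fin_two, Matrix.mul_fin_two]
  ext i j
  fin_cases i <;> fin_cases j <;> simp [hc] <;> field_simp <;> ring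

/-- If `c` is represented by the form `c₀ (x² + t x y + D y²)`, then `comp c₀ t D` and
`comp c t D` are conjugate by an element of determinant one. -/
theorem comp_conj (c₀ c : kˣ) (t : k) (D : kˣ)
    (h : ∃ x y : k, (c₀ : k) * x ^ 2 + t * x * y + D / c₀ * y ^ 2 = c) :
    ∃ p : GL (Fin 2) k, Matrix.GeneralLinearGroup.det p = 1 ∧
      p * comp c₀ t D * p⁻¹ = comp c t D := by
  classical
  obtain ⟨x, y, hxy⟩ := h
  have hc₀ : (c₀ : k) ≠ 0 := c₀.ne_zero
  have hc : (c : k) ≠ 0 := c.ne_zero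
  -- a matrix of determinant one with first column `(x, y)`
  obtain ⟨z, w, hzw⟩ : ∃ z w : k, x * w - z * y = 1 := by
    by_cases hx : x = 0
    · have hy : y ≠ 0 := by
        rintro rfl
        apply hc
        rw [← hxy, hx]
        ring
      exact ⟨-y⁻¹, 0, by field_simp; ring⟩
    · exact ⟨0, x⁻¹, by field_simp; ring⟩
  set p : GL (Fin 2) k := sl w (-z) (-y) x (by linear_combination hzw) with hp
  have hpi : p⁻¹ = sl x z y w (by linear_combination hzw) := by
    rw [hp, sl_inv]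
    congr 1 <;> ring
  have h10 : ((p * comp c₀ t D * p⁻¹ : GL (Fin 2) k) : Matrix (Fin 2) (Fin 2) k) 1 0 = c := by
    rw [hpi, Units.val_mul, Units.val_mul, hp, sl_coe, sl_coe, comp_coe, Matrix.mul_fin_two,
      Matrix.mul_fin_two]
    simp
    rw [← hxy]
    field_simp
    ring
  obtain ⟨p', hp', hcon⟩ := conj_comp _ c h10
  have hdet : Matrix.GeneralLinearGroup.det (p * comp c₀ t D * p⁻¹) = D := by
    rw [map_mul, map_mul, map_inv, mul_inv_cancel_comm]
    apply Units.ext
    rw [Matrix.GeneralLinearGroup.val_det_apply, comp_coe, Matrix.det_fin_two_of]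
    field_simp
    simp
  have htr : Matrix.trace ((p * comp c₀ t D * p⁻¹ : GL (Fin 2) k) :
      Matrix (Fin 2) (Fin 2) k) = t := by
    rw [Units.val_mul, Units.val_mul, Matrix.trace_mul_cycle, ← Units.val_mul, inv_mul_cancel,
      Units.val_one, one_mul, comp_coe, Matrix.trace_fin_two_of, zero_add]
  rw [hdet, htr] at hcon
  refine ⟨p' * p, ?_, ?_⟩
  · rw [map_mul, hp', hp, sl_det, one_mul]
  · rw [_root_.mul_inv_rev, ← hcon]
    group

/-- A non-scalar element is conjugate, by an element of determinant one, to one with nonzero lower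
left entry; if `g 1 0 = 0` and `g 0 1 ≠ 0`, this entry can be taken to be `- g 0 1`. -/
theorem conj_swap (g : GL (Fin 2) k) (hg : (g : Matrix (Fin 2) (Fin 2) k) 1 0 = 0) :
    ∃ p : GL (Fin 2) k, Matrix.GeneralLinearGroup.det p = 1 ∧
      ((p * g * p⁻¹ : GL (Fin 2) k) : Matrix (Fin 2) (Fin 2) k) 1 0 =
        -((g : Matrix (Fin 2) (Fin 2) k) 0 1) := by
  refine ⟨sl 0 1 (-1) 0 (by ring), sl_det _ _ _ _ _, ?_⟩
  rw [sl_inv, Units.val_mul, Units.val_mul, sl_coe, sl_coe,
    Matrix.eta_fin_two (g : Matrix (Fin 2) (Fin 2) k), Matrix.mul_fin_two, Matrix.mul_fin_two]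
  simp

theorem conj_diag (g : GL (Fin 2) k) (hg : (g : Matrix (Fin 2) (Fin 2) k) 1 0 = 0)
    (hg' : (g : Matrix (Fin 2) (Fin 2) k) 0 1 = 0)
    (hne : (g : Matrix (Fin 2) (Fin 2) k) 0 0 ≠ (g : Matrix (Fin 2) (Fin 2) k) 1 1) :
    ∃ p : GL (Fin 2) k, Matrix.GeneralLinearGroup.det p = 1 ∧
      ((p * g * p⁻¹ : GL (Fin 2) k) : Matrix (Fin 2) (Fin 2) k) 1 0 ≠ 0 := by
  refine ⟨sl 1 0 1 1 (by ring), sl_det _ _ _ _ _, ?_⟩
  rw [sl_inv, Units.val_mul, Units.val_mul, sl_coe, sl_coe,
    Matrix.eta_fin_two (g : Matrix (Fin 2) (Fin 2) k), Matrix.mul_fin_two, Matrix.mul_fin_two]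
  simp [hg, hg']
  intro h
  apply hne
  linear_combination h

end MP0775d3.Sl2
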