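import Pool.Agent.Lib.MP_0775d3_lc.Sl2.Shift

/-! The core identity. -/

set_option linter.unusedSectionVars false

namespace MP0775d3.Sl2

variable {k : Type} [Field k] [Fintype k] [DecidableEq k]

/-- The double sum over a torus that replaces the Kloosterman kernel. -/
noncomputable def QData.dbl (Q : QData k) (ψ : AddChar k ℂ) (F : k → ℂ) (κ D D' a b : kˣ) : ℂ :=
  ∑ τ : Q.Eˣ, ∑ τ' : Q.Eˣ,
    if Q.nm (τ : Q.E) = κ * D ∧ Q.nm (τ' : Q.E) = κ * D' then
      F (D' * Q.tr ((τ * τ'⁻¹ : Q.Eˣ) : Q.E)) * ψ (a * Q.tr (τ : Q.E) - b * Q.tr (τ' : Q.E))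
    else 0

private theorem sum_units (Q : QData k) (c : k) (hc : c ≠ 0) (f : Q.E → ℂ) :
    ∑ τ : Q.Eˣ, (if Q.nm (τ : Q.E) = c then f τ else 0) =
      ∑ x ∈ Finset.univ.filter (fun x : Q.E => Q.nm x = c), f x := by
  rw [← Finset.sum_filter]
  refine Finset.sum_bij (fun τ _ => (τ : Q.E)) ?_ ?_ ?_ ?_
  · intro τ hτ
    simpa using hτ
  · intro τ _ τ' _ h
    exact Units.ext h
  · intro x hx
    have hx' : Q.nm x = c := by simpa using hx
    obtain ⟨u, hu⟩ := Q.isUnit_of_nm x (by rw [hx']; exact hc)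
    exact ⟨u, by simp [hu, hx'], hu⟩
  · intro τ _
    rfl

private theorem nm_alg (Q : QData k) (b : k) : Q.nm (Q.alg b) = b ^ 2 := by
  have h := Q.nm_lin 0 (-b) 0
  rw [map_zero, map_neg, zero_mul, zero_sub, neg_neg] at h
  rw [h]
  ring

private theorem tr_one (Q : QData k) : Q.tr 1 = 2 := by
  have h := Q.nm_lin 1 1 1
  rw [map_one, one_mul, sub_self, map_one] at h
  have h0 : Q.nm (0 : Q.E) = 0 := by
    have := nm_alg Q 0
    rw [map_zero] at this
    rw [this]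
    ring
  rw [h0] at h
  linear_combination h

private theorem tr_alg (Q : QData k) (b : k) : Q.tr (Q.alg b) = 2 * b := by
  have h := Q.tr_mul b 1
  rw [mul_one, tr_one] at h
  rw [h]
  ring

/-- Substituting `τ = x τ'` and applying the shift property. -/
theorem dbl_eq (Q : QData k) (ψ : AddChar k ℂ) (hQ : Q.Shift ψ) (F : k → ℂ) (κ D D' a b : kˣ) :
    Q.dbl ψ F κ D D' a b =
      ∑ x ∈ Finset.univ.filter (fun x : Q.E => Q.nm x = D / D'),
        F (D' * Q.tr x) * Q.kl ψ (κ * (D * a ^ 2 + D' * b ^ 2 - a * b * (D' * Q.tr x))) +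
      (if (b : k) ^ 2 * D' = (a : k) ^ 2 * D then (Fintype.card k : ℂ) * F (2 * (b / a) * D')
        else 0) := by
  have hκ : (κ : k) ≠ 0 := κ.ne_zero
  have hD : (D : k) ≠ 0 := D.ne_zero
  have hD' : (D' : k) ≠ 0 := D'.ne_zero
  have ha : (a : k) ≠ 0 := a.ne_zero
  have hb : (b : k) ≠ 0 := b.ne_zero
  unfold QData.dbl
  rw [Finset.sum_comm]
  have e1 : ∀ τ' : Q.Eˣ, (∑ τ : Q.Eˣ,
      if Q.nm (τ : Q.E) = κ * D ∧ Q.nm (τ' : Q.E) = κ * D' then
      F (D' * Q.tr ((τ * τ'⁻¹ : Q.Eˣ) : Q.E)) * ψ (a * Q.tr (τ : Q.E) - b * Q.tr (τ' : Q.E))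
      else 0) = ∑ x : Q.Eˣ, if Q.nm (x : Q.E) = D / D' then F (D' * Q.tr (x : Q.E)) *
        (if Q.nm (τ' : Q.E) = κ * D' then ψ (Q.tr ((τ' : Q.E) * (Q.alg a * x - Q.alg b))) else 0)
        else 0 := by
    intro τ'
    rw [← Equiv.sum_comp (Equiv.mulRight τ')]
    refine Finset.sum_congr rfl fun x _ => ?_
    rw [Equiv.coe_mulRight]
    by_cases h1 : Q.nm (τ' : Q.E) = κ * D'
    · have h2 : Q.nm ((x * τ' : Q.Eˣ) : Q.E) = κ * D ↔ Q.nm (x : Q.E) = D / D' := by
        rw [Units.val_mul, map_mul, h1, eq_div_iff hD']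
        constructor
        · intro h
          have : (κ : k) * (Q.nm (x : Q.E) * D') = κ * D := by rw [← h]; ring
          exact mul_left_cancel₀ hκ this
        · intro h
          rw [← h]
          ring
      by_cases h3 : Q.nm (x : Q.E) = D / D'
      · rw [if_pos ⟨h2.2 h3, h1⟩, if_pos h3, if_pos h1, mul_inv_cancel_right]
        congr 2
        have h4 : (τ' : Q.E) * (Q.alg a * x - Q.alg b) = Q.alg a * (x * τ') - Q.alg b * τ' := by
          ring
        rw [h4, map_sub, Q.tr_mul, Q.tr_mul, Units.val_mul]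
      · rw [if_neg (fun h => h3 (h2.1 h.1)), if_neg h3]
    · rw [if_neg (fun h => h1 h.2), if_neg h1, mul_zero, ite_self]
  rw [Finset.sum_congr rfl (fun τ' _ => e1 τ'), Finset.sum_comm]
  have e2 : ∀ x : Q.Eˣ, (∑ τ' : Q.Eˣ, if Q.nm (x : Q.E) = D / D' then F (D' * Q.tr (x : Q.E)) *
        (if Q.nm (τ' : Q.E) = κ * D' then ψ (Q.tr ((τ' : Q.E) * (Q.alg a * x - Q.alg b))) else 0)
        else 0) = if Q.nm (x : Q.E) = D / D' then
          (fun y : Q.E => F (D' * Q.tr y) * (Q.kl ψ (κ * D' * Q.nm (Q.alg a * y - Q.alg b)) +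
            (if Q.alg a * y - Q.alg b = 0 then (Fintype.card k : ℂ) else 0))) x else 0 := by
    intro x
    by_cases h3 : Q.nm (x : Q.E) = D / D'
    · simp only [if_pos h3]
      rw [← Finset.mul_sum, sum_units Q (κ * D') (mul_ne_zero hκ hD')
        (fun y => ψ (Q.tr (y * (Q.alg a * x - Q.alg b)))),
        hQ (κ * D') (Q.alg a * x - Q.alg b) (mul_ne_zero hκ hD')]
    · simp only [if_neg h3]
      exact Finset.sum_const_zero
  rw [Finset.sum_congr rfl (fun x _ => e2 x)]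
  refine (sum_units Q (D / D') (div_ne_zero hD hD') (fun y : Q.E => F (D' * Q.tr y) *
    (Q.kl ψ (κ * D' * Q.nm (Q.alg a * y - Q.alg b)) +
      (if Q.alg a * y - Q.alg b = 0 then (Fintype.card k : ℂ) else 0)))).trans ?_
  simp only [mul_add, Finset.sum_add_distrib]
  congr 1
  · refine Finset.sum_congr rfl fun x hx => ?_
    have hx' : Q.nm x = D / D' := by simpa using hx
    rw [Q.nm_lin, hx']
    congr 2
    field_simp
    ring
  · -- the correction
    have hw : ∀ x : Q.E, Q.alg a * x - Q.alg b = 0 ↔ x = Q.alg (b / a) := by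
      intro x
      rw [sub_eq_zero]
      have hu : Q.alg (a : k) * Q.alg ((a : k)⁻¹) = 1 := by
        rw [← map_mul, mul_inv_cancel₀ ha, map_one]
      constructor
      · intro h
        have : Q.alg ((a : k)⁻¹) * (Q.alg a * x) = Q.alg ((a : k)⁻¹) * Q.alg b := by rw [h]
        rw [← mul_assoc, mul_comm (Q.alg ((a : k)⁻¹)) (Q.alg (a : k)), hu, one_mul, ← map_mul]
          at this
        rw [this]
        congr 1
        rw [div_eq_mul_inv, mul_comm]
      · rintro rfl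
        rw [← map_mul]
        congr 1
        field_simp
    simp only [hw, mul_ite, mul_zero]
    rw [Finset.sum_ite_eq' (Finset.univ.filter fun x : Q.E => Q.nm x = (D : k) / D')
      (Q.alg ((b : k) / a)) (fun x => F (D' * Q.tr x) * (Fintype.card k : ℂ))]
    have h5 : Q.alg ((b : k) / a) ∈ Finset.univ.filter (fun x : Q.E => Q.nm x = (D : k) / D') ↔
        (b : k) ^ 2 * D' = (a : k) ^ 2 * D := by
      rw [Finset.mem_filter, nm_alg]
      simp only [Finset.mem_univ, true_and]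
      rw [div_pow, div_eq_div_iff (pow_ne_zero 2 ha) hD']
      constructor
      · intro h
        rw [h]
        ring
      · intro h
        rw [h]
        ring
    by_cases h6 : (b : k) ^ 2 * D' = (a : k) ^ 2 * D
    · rw [if_pos (h5.2 h6), if_pos h6, tr_alg]
      rw [mul_comm]
      congr 2
      ring
    · rw [if_neg (fun h => h6 (h5.1 h)), if_neg h6]

private theorem sum_tr (Q : QData k) (d : k) (g : k → ℂ) :
    ∑ x ∈ Finset.univ.filter (fun x : Q.E => Q.nm x = d), g (Q.tr x) =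
      ∑ t : k, (Q.cnt t d : ℂ) * g t := by
  rw [← Finset.sum_fiberwise' (Finset.univ.filter (fun x : Q.E => Q.nm x = d))
    (fun x => Q.tr x) g]
  refine Finset.sum_congr rfl fun t _ => ?_
  rw [Finset.sum_const, nsmul_eq_mul, Finset.filter_filter]
  congr 2
  unfold QData.cnt
  congr 1
  ext x
  simp only [Finset.mem_filter, Finset.mem_univ, true_and]
  exact and_comm

private theorem sum_kl (ψ : AddChar k ℂ) (F : k → ℂ) (ξ ζ c : kˣ) (N : k) :
    ∑ p : k, ∑ r : k, F ((N - p * r) / c) * ψ (ξ * p + ζ * r) =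
      ∑ z : k, F z * (splitQ k).kl ψ (ξ * ζ * (N - c * z)) := by
  have hξ : (ξ : k) ≠ 0 := ξ.ne_zero
  have hζ : (ζ : k) ≠ 0 := ζ.ne_zero
  have hc : (c : k) ≠ 0 := c.ne_zero
  have e1 : ∀ z : k, F z * (splitQ k).kl ψ (ξ * ζ * (N - c * z)) =
      ∑ x : k × k, if z = (N - x.1 * x.2 / (ξ * ζ)) / c then F z * ψ (x.1 + x.2) else 0 := by
    intro z
    rw [splitQ_kl, Finset.mul_sum, ← Finset.sum_filter]
    refine Finset.sum_congr ?_ fun x _ => rfl
    ext x
    simp only [Finset.mem_filter, Finset.mem_univ, true_and]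
    rw [eq_div_iff hc]
    constructor
    · intro h
      rw [h]
      field_simp
      ring
    · intro h
      have h2 : x.1 * x.2 / (ξ * ζ) = N - z * c := by rw [h]; ring
      rw [div_eq_iff (mul_ne_zero hξ hζ)] at h2
      rw [h2]
      ring
  symm
  rw [Finset.sum_congr rfl (fun z _ => e1 z), Finset.sum_comm, Fintype.sum_prod_type]
  have e2 : ∀ x : k × k, (∑ z : k, if z = (N - x.1 * x.2 / (ξ * ζ)) / c then
      F z * ψ (x.1 + x.2) else 0) = F ((N - x.1 * x.2 / (ξ * ζ)) / c) * ψ (x.1 + x.2) := by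
    intro x
    rw [Finset.sum_ite_eq']
    simp
  rw [Finset.sum_congr rfl (fun p _ => Finset.sum_congr rfl (fun r _ => e2 (p, r)))]
  rw [← Equiv.sum_comp (Units.mulLeft ξ)]
  refine Finset.sum_congr rfl fun p _ => ?_
  rw [← Equiv.sum_comp (Units.mulLeft ζ)]
  refine Finset.sum_congr rfl fun r _ => ?_
  simp only [Units.mulLeft_apply]
  congr 3
  field_simp

theorem core (Q : QData k) (hc : ∀ t m : k, (splitQ k).cnt t m + Q.cnt t m = 2)
    (hQ : ∀ w : Q.E, Q.nm w = 0 → w = 0) (ψ : AddChar k ℂ) (hψ : ψ ≠ 1) (F : k → ℂ)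
    (ξ ζ D D' a b : kˣ) :
    2 * ∑ p : k, ∑ r : k, F ((D * a ^ 2 + D' * b ^ 2 - p * r) / (a * b)) * ψ (ξ * p + ζ * r) =
      (splitQ k).dbl ψ F (ξ * ζ) D D' a b - Q.dbl ψ F (ξ * ζ) D D' a b := by
  have hkl : ∀ m : k, Q.kl ψ m = -(splitQ k).kl ψ m := by
    intro m
    have := kl_add (splitQ k) Q hc ψ hψ m
    linear_combination this
  rw [dbl_eq (splitQ k) ψ (splitQ_shift ψ hψ) F (ξ * ζ) D D' a b,
    dbl_eq Q ψ (nonsplit_shift Q hc hQ ψ hψ) F (ξ * ζ) D D' a b]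
  rw [add_sub_add_right_eq_sub]
  have e1 : ∀ Q' : QData k, ∑ x ∈ Finset.univ.filter (fun x : Q'.E => Q'.nm x = (D : k) / D'),
      F (D' * Q'.tr x) * Q'.kl ψ (((ξ * ζ : kˣ) : k) *
        (D * a ^ 2 + D' * b ^ 2 - a * b * (D' * Q'.tr x))) =
      ∑ t : k, (Q'.cnt t (D / D') : ℂ) * (F (D' * t) * Q'.kl ψ (((ξ * ζ : kˣ) : k) *
        (D * a ^ 2 + D' * b ^ 2 - a * b * (D' * t)))) := fun Q' =>
    sum_tr Q' (D / D') (fun t => F (D' * t) * Q'.kl ψ (((ξ * ζ : kˣ) : k) *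
        (D * a ^ 2 + D' * b ^ 2 - a * b * (D' * t))))
  rw [e1, e1, ← Finset.sum_sub_distrib]
  have e2 : ∀ t : k, ((splitQ k).cnt t (D / D') : ℂ) * (F (D' * t) * (splitQ k).kl ψ
      (((ξ * ζ : kˣ) : k) * (D * a ^ 2 + D' * b ^ 2 - a * b * (D' * t)))) -
      (Q.cnt t (D / D') : ℂ) * (F (D' * t) * Q.kl ψ
      (((ξ * ζ : kˣ) : k) * (D * a ^ 2 + D' * b ^ 2 - a * b * (D' * t)))) =
      2 * (F (D' * t) * (splitQ k).kl ψ
      (((ξ * ζ : kˣ) : k) * (D * a ^ 2 + D' * b ^ 2 - a * b * (D' * t)))) := by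
    intro t
    have h1 : ((splitQ k).cnt t (D / D') : ℂ) + (Q.cnt t (D / D') : ℂ) = 2 := by
      exact_mod_cast hc t (D / D')
    rw [hkl]
    linear_combination (F (D' * t) * (splitQ k).kl ψ
      (((ξ * ζ : kˣ) : k) * (D * a ^ 2 + D' * b ^ 2 - a * b * (D' * t)))) * h1
  rw [Finset.sum_congr rfl (fun t _ => e2 t), ← Finset.mul_sum]
  congr 1
  have e3 := Equiv.sum_comp (Units.mulLeft D') (fun z => F z * (splitQ k).kl ψ
      (((ξ * ζ : kˣ) : k) * (D * a ^ 2 + D' * b ^ 2 - a * b * z)))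
  simp only [Units.mulLeft_apply] at e3
  rw [e3]
  have e4 := sum_kl ψ F ξ ζ (a * b) ((D : k) * a ^ 2 + D' * b ^ 2)
  simp only [Units.val_mul] at e4 ⊢
  exact e4

end MP0775d3.Sl2
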