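import Pool.Agent.Lib.MP_0775d3_lc.Sl2.Represents
import Pool.Agent.Lib.MP_0775d3_lc.Sl2.Conj

/-! Functions on `GL₂(k)` that are invariant under conjugation by elements of determinant
one. -/

set_option linter.unusedSectionVars false

namespace MP0775d3.Sl2

open Matrix

variable {k : Type} [Field k] [Fintype k] [DecidableEq k]

section Aux

theorem comp_trace (c : kˣ) (t : k) (D : kˣ) :
    Matrix.trace ((comp c t D : GL (Fin 2) k) : Matrix (Fin 2) (Fin 2) k) = t := by
  rw [comp_coe, Matrix.trace_fin_two_of, zero_add]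

theorem comp_det (c : kˣ) (t : k) (D : kˣ) :
    Matrix.GeneralLinearGroup.det (comp c t D) = D := by
  apply Units.ext
  rw [Matrix.GeneralLinearGroup.val_det_apply, comp_coe, Matrix.det_fin_two_of]
  have hc : (c : k) ≠ 0 := c.ne_zero
  field_simp
  simp

/-- conjugation does not change the trace -/
theorem trace_conj (p g : GL (Fin 2) k) :
    Matrix.trace ((p * g * p⁻¹ : GL (Fin 2) k) : Matrix (Fin 2) (Fin 2) k) =
      Matrix.trace (g : Matrix (Fin 2) (Fin 2) k) := by
  rw [Units.val_mul, Matrix.trace_mul_comm, ← Units.val_mul, inv_mul_cancel_left]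

theorem det_conj' (p g : GL (Fin 2) k) :
    Matrix.GeneralLinearGroup.det (p * g * p⁻¹) = Matrix.GeneralLinearGroup.det g := by
  rw [map_mul, map_mul, map_inv, mul_comm, inv_mul_cancel_left]

variable (f : GL (Fin 2) k → ℂ)

theorem F_square
    (hf : ∀ p g : GL (Fin 2) k, Matrix.GeneralLinearGroup.det p = 1 → f (p * g * p⁻¹) = f g)
    (c₀ c : kˣ) (t : k) (D : kˣ)
    (h : quadraticChar k (c₀ : k) = quadraticChar k (c : k)) :
    f (comp c₀ t D) = f (comp c t D) := by
  have hc : (c : k) ≠ 0 := c.ne_zero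
  have hc₀ : (c₀ : k) ≠ 0 := c₀.ne_zero
  have hsq : IsSquare ((c₀ : k) * c) := by
    rw [← quadraticChar_one_iff_isSquare (mul_ne_zero hc₀ hc), map_mul, h, ← sq,
      quadraticChar_sq_one hc]
  obtain ⟨r, hr⟩ := hsq
  obtain ⟨p, hp, hpc⟩ := comp_conj c₀ c t D ⟨r / c₀, 0, by
    have : (c₀ : k) * (r / c₀) ^ 2 = r * r / c₀ := by field_simp
    rw [this, ← hr]
    field_simp
    ring⟩
  rw [← hpc, hf p _ hp]

theorem F_indep
    (hf : ∀ p g : GL (Fin 2) k, Matrix.GeneralLinearGroup.det p = 1 → f (p * g * p⁻¹) = f g)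
    (c₀ c : kˣ) (t : k) (D : kˣ) (h : t ^ 2 - 4 * (D : k) ≠ 0 ∨ ringChar k = 2) :
    f (comp c₀ t D) = f (comp c t D) := by
  have hc₀ : (c₀ : k) ≠ 0 := c₀.ne_zero
  obtain ⟨x, z, hxz⟩ := represents t (D : k) ((c : k) / c₀) h
  obtain ⟨p, hp, hpc⟩ := comp_conj c₀ c t D ⟨x, c₀ * z, by
    have : (c₀ : k) * x ^ 2 + t * x * (c₀ * z) + D / c₀ * (c₀ * z) ^ 2 =
        c₀ * (x ^ 2 + t * x * z + D * z ^ 2) := by
      field_simp
    rw [this, hxz]
    field_simp⟩
  rw [← hpc, hf p _ hp]

theorem F_scalar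
    (hf : ∀ p g : GL (Fin 2) k, Matrix.GeneralLinearGroup.det p = 1 → f (p * g * p⁻¹) = f g)
    (Z : Subgroup kˣ)
    (hZ : ∀ c ∈ Z, ∀ g, f (Matrix.GeneralLinearGroup.scalar (Fin 2) c * g) = f g)
    (c : kˣ) (hc : c ∈ Z) (γ : kˣ) (t : k) (D : kˣ) :
    f (comp (c * γ) (c * t) (c ^ 2 * D)) = f (comp γ t D) := by
  set g : GL (Fin 2) k := Matrix.GeneralLinearGroup.scalar (Fin 2) c * comp γ t D with hg
  have hgm : (g : Matrix (Fin 2) (Fin 2) k) = (c : k) • !![0, -((D : k) / γ); (γ : k), t] := by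
    rw [hg, Units.val_mul, Matrix.GeneralLinearGroup.coe_scalar, comp_coe, Matrix.scalar_apply,
      ← Matrix.smul_eq_diagonal_mul]
  have h10 : (g : Matrix (Fin 2) (Fin 2) k) 1 0 = ((c * γ : kˣ) : k) := by
    rw [hgm]
    simp
  have htr : Matrix.trace (g : Matrix (Fin 2) (Fin 2) k) = c * t := by
    rw [hgm, Matrix.trace_smul, Matrix.trace_fin_two_of, zero_add, smul_eq_mul]
  have hdet : Matrix.GeneralLinearGroup.det g = c ^ 2 * D := by
    rw [hg, map_mul, Matrix.GeneralLinearGroup.det_scalar, comp_det, Fintype.card_fin]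
  obtain ⟨p, hp, hpc⟩ := conj_comp g (c * γ) h10
  rw [htr, hdet] at hpc
  rw [← hpc, hf p _ hp, hg, hZ c hc]

end Aux

/-- The decomposition of an invariant function. `χ` is `1` or `-1` on squares or non-squares. -/
theorem decomp (f : GL (Fin 2) k → ℂ)
    (hf : ∀ p g : GL (Fin 2) k, Matrix.GeneralLinearGroup.det p = 1 → f (p * g * p⁻¹) = f g)
    (Z : Subgroup kˣ)
    (hZ : ∀ c ∈ Z, ∀ g, f (Matrix.GeneralLinearGroup.scalar (Fin 2) c * g) = f g) :
    ∃ (Φ : k → kˣ → ℂ) (β σ : kˣ → ℂ),
      (∀ c ∈ Z, ∀ t D, Φ (c * t) (c ^ 2 * D) = Φ t D) ∧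
      (∀ c ∈ Z, ∀ d, β (c * d) = β d) ∧ (∀ c ∈ Z, ∀ d, σ (c * d) = σ d) ∧
      (ringChar k = 2 → β = 0) ∧
      (∀ g : GL (Fin 2) k, (∀ c : kˣ, ¬ (Matrix.trace (g : Matrix (Fin 2) (Fin 2) k) = 2 * c ∧
          Matrix.GeneralLinearGroup.det g = c ^ 2)) → 
        f g = Φ (Matrix.trace (g : Matrix (Fin 2) (Fin 2) k)) (Matrix.GeneralLinearGroup.det g)) ∧
      (∀ (g : GL (Fin 2) k) (c : kˣ), Matrix.trace (g : Matrix (Fin 2) (Fin 2) k) = 2 * c →
          Matrix.GeneralLinearGroup.det g = c ^ 2 → g ≠ Matrix.GeneralLinearGroup.scalar (Fin 2) c →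
        f g = Φ (2 * c) (c ^ 2) + β c * (quadraticChar k
          (if (g : Matrix (Fin 2) (Fin 2) k) 1 0 = 0 then -((g : Matrix (Fin 2) (Fin 2) k) 0 1) / c
            else (g : Matrix (Fin 2) (Fin 2) k) 1 0 / c) : ℤ)) ∧
      (∀ c : kˣ, f (Matrix.GeneralLinearGroup.scalar (Fin 2) c) = Φ (2 * c) (c ^ 2) + σ c) := by
  classical
  -- the second representative of the square classes
  obtain ⟨ν, hν2, hνn⟩ : ∃ ν : kˣ, (ringChar k = 2 → ν = 1) ∧
      (ringChar k ≠ 2 → quadraticChar k (ν : k) = -1) := by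
    by_cases h2 : ringChar k = 2
    · exact ⟨1, fun _ => rfl, fun h => absurd h2 h⟩
    · obtain ⟨a, ha⟩ := quadraticChar_exists_neg_one h2
      have ha0 : a ≠ 0 := by
        rintro rfl
        rw [quadraticChar_zero] at ha
        norm_num at ha
      exact ⟨Units.mk0 a ha0, fun h => absurd h h2, fun _ => ha⟩
  set F : kˣ → k → kˣ → ℂ := fun γ t D => f (comp γ t D) with hF
  set Φ : k → kˣ → ℂ := fun t D => (F 1 t D + F ν t D) / 2 with hΦ
  set B : k → kˣ → ℂ := fun t D => (F 1 t D - F ν t D) / 2 with hB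
  set η : kˣ → ℂ := fun c => ((quadraticChar k (c : k) : ℤ) : ℂ) with hη
  have hηmul : ∀ c d : kˣ, η (c * d) = η c * η d := by
    intro c d
    simp only [hη, Units.val_mul, map_mul, Int.cast_mul]
  have hηsq : ∀ c : kˣ, η c * η c = 1 := by
    intro c
    have h := quadraticChar_sq_one (F := k) c.ne_zero
    simp only [hη]
    rw [← Int.cast_mul, ← sq, h, Int.cast_one]
  have hη1 : η 1 = 1 := by
    simp only [hη, Units.val_one, map_one, Int.cast_one]
  -- the basic formula
  have hbase : ∀ γ t D, F γ t D = Φ t D + η γ * B t D := by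
    intro γ t D
    rcases quadraticChar_dichotomy (F := k) γ.ne_zero with h | h
    · have h1 : F γ t D = F 1 t D := by
        apply F_square f hf
        rw [h, Units.val_one, map_one]
      have h2 : η γ = 1 := by simp only [hη, h, Int.cast_one]
      rw [h1, h2, hΦ, hB]
      ring
    · have h2 : ringChar k ≠ 2 := by
        intro h2
        rw [quadraticChar_eq_one_of_char_two h2 γ.ne_zero] at h
        norm_num at h
      have h1 : F γ t D = F ν t D := by
        apply F_square f hf
        rw [h, hνn h2]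
      have h3 : η γ = -1 := by simp only [hη, h]; norm_num
      rw [h1, h3, hΦ, hB]
      ring
  have hB0 : ∀ t (D : kˣ), (t ^ 2 - 4 * (D : k) ≠ 0 ∨ ringChar k = 2) → B t D = 0 := by
    intro t D h
    have : F 1 t D = F ν t D := F_indep f hf 1 ν t D h
    rw [hB]
    simp only [this, sub_self, zero_div]
  have hinv : ∀ c ∈ Z, ∀ t D, Φ (c * t) (c ^ 2 * D) = Φ t D ∧
      B (c * t) (c ^ 2 * D) = η c * B t D := by
    intro c hc t D
    have e : ∀ γ, Φ (c * t) (c ^ 2 * D) + η c * η γ * B (c * t) (c ^ 2 * D) =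
        Φ t D + η γ * B t D := by
      intro γ
      rw [← hbase γ t D, ← hηmul, ← hbase (c * γ)]
      exact F_scalar f hf Z hZ c hc γ t D
    by_cases h2 : ringChar k = 2
    · have h3 := hB0 t D (Or.inr h2)
      have h4 := hB0 (c * t) (c ^ 2 * D) (Or.inr h2)
      have e1 := e 1
      rw [h3, h4, mul_zero, mul_zero, add_zero, add_zero] at e1
      exact ⟨e1, by rw [h3, h4, mul_zero]⟩
    · have e1 := e 1
      have e2 := e ν
      have h3 : η ν = -1 := by simp only [hη, hνn h2]; norm_num
      rw [hη1] at e1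
      rw [h3] at e2
      have hs := hηsq c
      constructor
      · linear_combination (e1 + e2) / 2
      · linear_combination (η c) * (e1 - e2) / 2 - (B (c * t) (c ^ 2 * D)) * hs
  -- non scalar elements
  have hgen : ∀ g : GL (Fin 2) k, ∀ γ : kˣ, (g : Matrix (Fin 2) (Fin 2) k) 1 0 = γ →
      f g = Φ (Matrix.trace (g : Matrix (Fin 2) (Fin 2) k)) (Matrix.GeneralLinearGroup.det g) +
        η γ * B (Matrix.trace (g : Matrix (Fin 2) (Fin 2) k))
          (Matrix.GeneralLinearGroup.det g) := by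
    intro g γ hγ
    obtain ⟨p, hp, hpc⟩ := conj_comp g γ hγ
    rw [← hbase γ, ← hf p g hp, hpc]
  refine ⟨Φ, fun c => η c * B (2 * c) (c ^ 2),
    fun c => f (Matrix.GeneralLinearGroup.scalar (Fin 2) c) - Φ (2 * c) (c ^ 2),
    fun c hc t D => (hinv c hc t D).1, ?_, ?_, ?_, ?_, ?_, ?_⟩
  · intro c hc d
    have h := (hinv c hc (2 * d) (d ^ 2)).2
    have e1 : (2 : k) * ((c * d : kˣ) : k) = c * (2 * d) := by
      rw [Units.val_mul]; ring
    have e2 : (c * d) ^ 2 = c ^ 2 * d ^ 2 := mul_pow c d 2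
    simp only [e1, e2, h, hηmul]
    have hs := hηsq c
    linear_combination (η d * B (2 * d) (d ^ 2)) * hs
  · intro c hc d
    have h := (hinv c hc (2 * d) (d ^ 2)).1
    have e1 : (2 : k) * ((c * d : kˣ) : k) = c * (2 * d) := by
      rw [Units.val_mul]; ring
    have e2 : (c * d) ^ 2 = c ^ 2 * d ^ 2 := mul_pow c d 2
    simp only [e1, e2, h]
    rw [map_mul, hZ c hc]
  · intro h2
    funext c
    simp only [hB0 (2 * c) (c ^ 2) (Or.inr h2), mul_zero, Pi.zero_apply]
  · -- generic elements
    intro g hg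
    have hdisc : Matrix.trace (g : Matrix (Fin 2) (Fin 2) k) ^ 2 -
        4 * (Matrix.GeneralLinearGroup.det g : k) ≠ 0 ∨ ringChar k = 2 := by
      by_contra hcon
      push Not at hcon
      obtain ⟨h1, h2⟩ := hcon
      have h20 : (2 : k) ≠ 0 := Ring.two_ne_zero h2
      set t := Matrix.trace (g : Matrix (Fin 2) (Fin 2) k) with ht
      have hD := (Matrix.GeneralLinearGroup.det g).ne_zero
      have ht0 : t / 2 ≠ 0 := by
        intro h0
        have : t = 0 := by
          rcases div_eq_zero_iff.mp h0 with h | h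
          · exact h
          · exact absurd h h20
        rw [this] at h1
        apply hD
        have h4 : (4 : k) = 2 * 2 := by norm_num
        have : (2 : k) * (2 * (Matrix.GeneralLinearGroup.det g : k)) = 0 := by
          linear_combination -h1
        simpa [h20] using this
      apply hg (Units.mk0 (t / 2) ht0)
      refine ⟨?_, ?_⟩
      · rw [Units.val_mk0]
        field_simp
      · apply Units.ext
        rw [Units.val_pow_eq_pow_val, Units.val_mk0]
        have h4 : (4 : k) ≠ 0 := by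
          have : (4 : k) = 2 * 2 := by norm_num
          rw [this]
          exact mul_ne_zero h20 h20
        field_simp
        have h4 : (4 : k) = 2 * 2 := by norm_num
        linear_combination -h1
    by_cases h10 : (g : Matrix (Fin 2) (Fin 2) k) 1 0 = 0
    · by_cases h01 : (g : Matrix (Fin 2) (Fin 2) k) 0 1 = 0
      · by_cases hne : (g : Matrix (Fin 2) (Fin 2) k) 0 0 = (g : Matrix (Fin 2) (Fin 2) k) 1 1
        · exfalso
          have hdet : (Matrix.GeneralLinearGroup.det g : k) =
              (g : Matrix (Fin 2) (Fin 2) k) 0 0 ^ 2 := by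
            rw [Matrix.GeneralLinearGroup.val_det_apply, Matrix.det_fin_two, h10, h01, ← hne]
            ring
          have h00 : (g : Matrix (Fin 2) (Fin 2) k) 0 0 ≠ 0 := by
            intro h0
            apply (Matrix.GeneralLinearGroup.det g).ne_zero
            rw [hdet, h0]
            ring
          apply hg (Units.mk0 _ h00)
          refine ⟨?_, ?_⟩
          · rw [Matrix.trace_fin_two, ← hne, Units.val_mk0]
            ring
          · apply Units.ext
            rw [hdet, Units.val_pow_eq_pow_val, Units.val_mk0]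
        · obtain ⟨p, hp, hp10⟩ := conj_diag g h10 h01 hne
          have h := hgen (p * g * p⁻¹) (Units.mk0 _ hp10) rfl
          rw [hf p g hp, trace_conj, det_conj', hB0 _ _ hdisc, mul_zero, add_zero] at h
          exact h
      · obtain ⟨p, hp, hp10⟩ := conj_swap g h10
        have h := hgen (p * g * p⁻¹) (Units.mk0 _ (neg_ne_zero.mpr h01)) (by
          rw [hp10, Units.val_mk0])
        rw [hf p g hp, trace_conj, det_conj', hB0 _ _ hdisc, mul_zero, add_zero] at h
        exact h
    · have h := hgen g (Units.mk0 _ h10) rfl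
      rw [hB0 _ _ hdisc, mul_zero, add_zero] at h
      exact h
  · -- non scalar elements with a double eigenvalue
    intro g c htr hdet hgs
    have hquot : ∀ γ : kˣ, ((quadraticChar k ((γ : k) / c) : ℤ) : ℂ) = η γ * η c := by
      intro γ
      have h1 : (γ : k) / c = ((γ * c : kˣ) : k) * ((c : k)⁻¹) ^ 2 := by
        rw [Units.val_mul]
        have := c.ne_zero
        field_simp
      rw [h1, map_mul, quadraticChar_sq_one' (inv_ne_zero c.ne_zero), mul_one]
      have := hηmul γ c
      simpa only [hη] using this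
    have hmain : ∀ γ : kˣ, f g = Φ (2 * c) (c ^ 2) + η γ * B (2 * c) (c ^ 2) →
        f g = Φ (2 * c) (c ^ 2) + η c * B (2 * c) (c ^ 2) *
          ((quadraticChar k ((γ : k) / c) : ℤ) : ℂ) := by
      intro γ h
      rw [hquot, h]
      have hs := hηsq c
      linear_combination -(η γ * B (2 * c) (c ^ 2)) * hs
    by_cases h10 : (g : Matrix (Fin 2) (Fin 2) k) 1 0 = 0
    · rw [if_pos h10]
      have hd : (g : Matrix (Fin 2) (Fin 2) k) 0 0 * (g : Matrix (Fin 2) (Fin 2) k) 1 1 =
          (c : k) ^ 2 := by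
        have h := congrArg (fun u : kˣ => (u : k)) hdet
        simp only [Units.val_pow_eq_pow_val] at h
        rw [Matrix.GeneralLinearGroup.val_det_apply, Matrix.det_fin_two, h10, mul_zero,
          sub_zero] at h
        exact h
      have ht : (g : Matrix (Fin 2) (Fin 2) k) 0 0 + (g : Matrix (Fin 2) (Fin 2) k) 1 1 =
          2 * (c : k) := by
        rw [← Matrix.trace_fin_two, htr]
      have h00 : (g : Matrix (Fin 2) (Fin 2) k) 0 0 = c := by
        have : ((g : Matrix (Fin 2) (Fin 2) k) 0 0 - c) ^ 2 = 0 := by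
          linear_combination (g : Matrix (Fin 2) (Fin 2) k) 0 0 * ht - hd
        exact sub_eq_zero.mp (pow_eq_zero_iff (two_ne_zero) |>.mp this)
      have h11 : (g : Matrix (Fin 2) (Fin 2) k) 1 1 = c := by
        linear_combination ht - h00
      have h01 : (g : Matrix (Fin 2) (Fin 2) k) 0 1 ≠ 0 := by
        intro h0
        apply hgs
        apply Units.ext
        rw [Matrix.GeneralLinearGroup.coe_scalar, Matrix.scalar_apply]
        ext i j
        fin_cases i <;> fin_cases j <;> simp [h00, h11, h0, h10]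
      obtain ⟨p, hp, hp10⟩ := conj_swap g h10
      have h := hgen (p * g * p⁻¹) (Units.mk0 _ (neg_ne_zero.mpr h01)) (by
        rw [hp10, Units.val_mk0])
      rw [hf p g hp, trace_conj, det_conj', htr, hdet] at h
      have := hmain _ h
      rw [Units.val_mk0] at this
      exact this
    · rw [if_neg h10]
      have h := hgen g (Units.mk0 _ h10) rfl
      rw [htr, hdet] at h
      have := hmain _ h
      rw [Units.val_mk0] at this
      exact this
  · intro c
    simp only []
    ring

end MP0775d3.Sl2
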