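import Mathlib

/-! Basic definitions for class functions on groups between `SL₂(k)` and `GL₂(k)` and their
quotients by scalars: coordinates on the big cell, subgroups of determinants and of scalars, the
three types of kernels. -/

set_option linter.unusedSectionVars false

namespace MP0775d3.Sl2

open Matrix

/-- `A` (rectangular) is the sum of a matrix of rank at most `r` and a matrix with at most `s`
nonzero entries in each row and each column. -/
def RDec {F : Type*} [Field F] {X Y : Type*} [Fintype X] [Fintype Y] (A : Matrix X Y F)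
    (r s : ℝ) : Prop :=
  ∃ R S : Matrix X Y F, A = R + S ∧ (R.rank : ℝ) ≤ r ∧
    (∀ x, (({y | S x y ≠ 0} : Set Y).ncard : ℝ) ≤ s) ∧
    (∀ y, (({x | S x y ≠ 0} : Set X).ncard : ℝ) ≤ s)

section
variable {k : Type} [Field k]

/-- The matrix with determinant `D` and bottom row `(1 / a, v / a)`, upper left entry `u / a`. -/
def matM (u v : k) (a D : kˣ) : Matrix (Fin 2) (Fin 2) k :=
  !![u / a, u * v / a - D * a; 1 / a, v / a]

theorem matM_det (u v : k) (a D : kˣ) : (matM u v a D).det = D := by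
  rw [matM, Matrix.det_fin_two_of]
  have ha : (a : k) ≠ 0 := a.ne_zero
  field_simp
  ring

/-- The element of `GL₂(k)` with coordinates `(u, v, a, D)`. -/
noncomputable def mat (u v : k) (a D : kˣ) : GL (Fin 2) k :=
  Matrix.GeneralLinearGroup.mkOfDetNeZero (matM u v a D) (by rw [matM_det]; exact D.ne_zero)

end

/-- A group `H` of determinants, a group `Z` of scalars whose squares lie in `H`, and a set `T`
of elements of `H` that are incongruent modulo squares of elements of `Z`. -/
structure Setup (k : Type) [Field k] [Fintype k] [DecidableEq k] where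
  H : Subgroup kˣ
  Z : Subgroup kˣ
  T : Finset kˣ
  sq_mem : ∀ c ∈ Z, c ^ 2 ∈ H
  T_sub : ∀ d ∈ T, d ∈ H
  T_inj : ∀ d ∈ T, ∀ d' ∈ T, ∀ c ∈ Z, d = c ^ 2 * d' → d = d'

section
variable {k : Type} [Field k] [Fintype k] [DecidableEq k]

/-- `|H| / |Z|`. -/
noncomputable def Setup.m (S : Setup k) : ℝ := (Nat.card S.H : ℝ) / (Nat.card S.Z : ℝ)

/-- `q³ |H| / |Z|`. -/
noncomputable def Setup.B (S : Setup k) : ℝ := (Fintype.card k : ℝ) ^ 3 * S.m

/-- The big cell: tuples `(u, v, a, D)`, `D ∈ T`. -/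
abbrev Cell (S : Setup k) : Type := k × k × kˣ × {d : kˣ // d ∈ S.T}

/-- The group element with given coordinates. -/
noncomputable def cellMat (S : Setup k) (x : Cell S) : GL (Fin 2) k :=
  mat x.1 x.2.1 x.2.2.1 x.2.2.2.1

/-- The kernel of a function `Φ` of the trace and the determinant. -/
noncomputable def kerPhi (S : Setup k) (Φ : k → kˣ → ℂ) : Matrix (Cell S) (Cell S) ℂ :=
  Matrix.of fun x y =>
    Φ (((x.2.2.2.1 : k) * (x.2.2.1 : k) ^ 2 + (y.2.2.2.1 : k) * (y.2.2.1 : k) ^ 2 -
      (x.1 - y.1) * (x.2.1 - y.2.1)) / ((x.2.2.1 : k) * (y.2.2.1 : k) * (y.2.2.2.1 : k)))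
      (x.2.2.2.1 / y.2.2.2.1)

/-- The kernel of a function `σ` on scalar matrices. -/
noncomputable def kerSc (S : Setup k) (σ : kˣ → ℂ) : Matrix (Cell S) (Cell S) ℂ :=
  Matrix.of fun x y => ∑ c : kˣ,
    if x.1 = y.1 ∧ x.2.1 = y.2.1 ∧ y.2.2.1 = c * x.2.2.1 ∧ x.2.2.2.1 = c ^ 2 * y.2.2.2.1
      then σ c else 0

/-- The kernel of a function `β` on scalars times the type of a unipotent matrix. -/
noncomputable def kerSg (S : Setup k) (β : kˣ → ℂ) : Matrix (Cell S) (Cell S) ℂ :=
  Matrix.of fun x y => ∑ c : kˣ,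
    if x.2.2.2.1 = c ^ 2 * y.2.2.2.1 ∧ (x.1 - y.1) * (x.2.1 - y.2.1) =
        (y.2.2.2.1 : k) * ((c : k) * (x.2.2.1 : k) - (y.2.2.1 : k)) ^ 2
      then β c * (quadraticChar k (if x.2.1 = y.2.1 then -(x.1 - y.1) else
        -(x.2.1 - y.2.1) * ((x.2.2.1 : k) * (y.2.2.1 : k) * (y.2.2.2.1 : k) * (c : k))) : ℤ)
      else 0

end

/-- A quadratic étale algebra over `k` with its trace and norm. -/
structure QData (k : Type) [Field k] [Fintype k] where
  E : Type
  [ring : CommRing E]
  [fin : Fintype E]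
  [dec : DecidableEq E]
  alg : k →+* E
  tr : E →+ k
  nm : E →* k
  card_E : Fintype.card E = Fintype.card k ^ 2
  tr_mul : ∀ (a : k) (x : E), tr (alg a * x) = a * tr x
  nm_lin : ∀ (a b : k) (x : E), nm (alg a * x - alg b) = a ^ 2 * nm x - a * b * tr x + b ^ 2
  isUnit_of_nm : ∀ x : E, nm x ≠ 0 → IsUnit x

attribute [instance] QData.ring QData.fin QData.dec

section
variable {k : Type} [Field k] [Fintype k] [DecidableEq k]

/-- The number of elements with trace `t` and norm `m`. -/
def QData.cnt (Q : QData k) (t m : k) : ℕ :=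
  (Finset.univ.filter fun x : Q.E => Q.tr x = t ∧ Q.nm x = m).card

/-- The generalised Kloosterman sum. -/
noncomputable def QData.kl (Q : QData k) (ψ : AddChar k ℂ) (m : k) : ℂ :=
  ∑ x ∈ Finset.univ.filter (fun x : Q.E => Q.nm x = m), ψ (Q.tr x)

/-- Twisted sums over the elements of given norm are Kloosterman sums, apart from a correction at
zero that is the same for both algebras. -/
def QData.Shift (Q : QData k) (ψ : AddChar k ℂ) : Prop :=
  ∀ (c : k) (w : Q.E), c ≠ 0 →
    ∑ x ∈ Finset.univ.filter (fun x : Q.E => Q.nm x = c), ψ (Q.tr (x * w)) =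
      Q.kl ψ (c * Q.nm w) + (if w = 0 then (Fintype.card k : ℂ) else 0)

end

end MP0775d3.Sl2
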