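import Pool.Agent.Lib.MP_0775d3_lc.Sl2.Sizes
import Pool.Agent.Lib.MP_0775d3_lc.Sl2.Coord

/-! The setup of a quotient by scalars of a group between `SL₂(k)` and `GL₂(k)`. -/

set_option linter.unusedSectionVars false

namespace MP0775d3.Sl2

open Matrix

/-- For a surjective homomorphism `φ : N → G` with scalar kernel there are a setup `S` and a
section `r` of `φ` with determinants in `S.T`. -/
theorem exists_setup {k : Type} [Field k] [Fintype k] [DecidableEq k] (N : Subgroup (GL (Fin 2) k))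
    (hN : ∀ g : GL (Fin 2) k, Matrix.GeneralLinearGroup.det g = 1 → g ∈ N)
    {G : Type} [Group G] [Fintype G] (φ : N →* G) (hφ : Function.Surjective φ)
    (hker : ∀ x : N, φ x = 1 → ∃ c : kˣ,
      (x : GL (Fin 2) k) = Matrix.GeneralLinearGroup.scalar (Fin 2) c) :
    ∃ (S : Setup k) (r : G → N), (∀ g, φ (r g) = g) ∧
      (∀ g, Matrix.GeneralLinearGroup.det (r g : GL (Fin 2) k) ∈ S.T) ∧
      (∀ c ∈ S.Z, ∃ h : Matrix.GeneralLinearGroup.scalar (Fin 2) c ∈ N,
        φ ⟨Matrix.GeneralLinearGroup.scalar (Fin 2) c, h⟩ = 1) ∧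
      S.B ≤ 2 * Fintype.card G ∧ (Fintype.card G : ℝ) ≤ (Fintype.card k : ℝ) ^ 4 := by
  classical
  set H : Subgroup kˣ := N.map (Matrix.GeneralLinearGroup.det) with hH
  set Z : Subgroup kˣ := ((φ.ker).map N.subtype).comap
    (Matrix.GeneralLinearGroup.scalar (Fin 2)) with hZ
  have hZmem : ∀ c ∈ Z, ∃ h : Matrix.GeneralLinearGroup.scalar (Fin 2) c ∈ N,
      φ ⟨Matrix.GeneralLinearGroup.scalar (Fin 2) c, h⟩ = 1 := by
    intro c hc
    rw [hZ, Subgroup.mem_comap, Subgroup.mem_map] at hc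
    obtain ⟨x, hx, hxc⟩ := hc
    have hxN : Matrix.GeneralLinearGroup.scalar (Fin 2) c ∈ N := by
      rw [← hxc]
      exact x.2
    refine ⟨hxN, ?_⟩
    have : (⟨Matrix.GeneralLinearGroup.scalar (Fin 2) c, hxN⟩ : N) = x := Subtype.ext hxc.symm
    rw [this]
    exact hx
  have hsq : ∀ c ∈ Z, c ^ 2 ∈ H := by
    intro c hc
    obtain ⟨h, -⟩ := hZmem c hc
    rw [hH, Subgroup.mem_map]
    refine ⟨_, h, ?_⟩
    rw [Matrix.GeneralLinearGroup.det_scalar, Fintype.card_fin]
  set Sq : Subgroup kˣ := Z.map (powMonoidHom 2) with hSq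
  have hSqH : Sq ≤ H := by
    rw [hSq]
    rintro _ ⟨c, hc, rfl⟩
    exact hsq c hc
  let rep : kˣ → kˣ := fun D => Quotient.out (QuotientGroup.mk D : kˣ ⧸ Sq)
  have hmk : ∀ D, (QuotientGroup.mk (rep D) : kˣ ⧸ Sq) = QuotientGroup.mk D := fun D =>
    QuotientGroup.out_eq' _
  have hrep : ∀ D, ∃ c ∈ Z, rep D = c ^ 2 * D := by
    intro D
    have h1 := QuotientGroup.eq.mp (hmk D).symm
    rw [hSq, Subgroup.mem_map] at h1
    obtain ⟨c, hc, hcD⟩ := h1
    refine ⟨c, hc, ?_⟩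
    rw [powMonoidHom_apply] at hcD
    rw [hcD]
    exact (inv_mul_cancel_comm D (rep D)).symm
  have hrr : ∀ D, rep (rep D) = rep D := by
    intro D
    show Quotient.out (QuotientGroup.mk (rep D) : kˣ ⧸ Sq) = _
    rw [hmk D]
  let S : Setup k :=
    { H := H
      Z := Z
      T := Finset.univ.filter (fun d => d ∈ H ∧ rep d = d)
      sq_mem := hsq
      T_sub := by
        intro d hd
        exact (Finset.mem_filter.mp hd).2.1
      T_inj := by
        intro d hd d' hd' c hc hdd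
        have h1 := (Finset.mem_filter.mp hd).2.2
        have h2 := (Finset.mem_filter.mp hd').2.2
        rw [← h1, ← h2]
        show Quotient.out (QuotientGroup.mk d : kˣ ⧸ Sq) = Quotient.out (QuotientGroup.mk d' : kˣ ⧸ Sq)
        congr 1
        refine (QuotientGroup.eq.mpr ?_).symm
        rw [hdd, mul_comm (c ^ 2), inv_mul_cancel_left]
        exact Subgroup.mem_map.mpr ⟨c, hc, rfl⟩ }
  have hT : ∀ D ∈ H, rep D ∈ S.T := by
    intro D hD
    obtain ⟨c, hc, hcD⟩ := hrep D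
    refine Finset.mem_filter.mpr ⟨Finset.mem_univ _, ?_, hrr D⟩
    rw [hcD]
    exact H.mul_mem (hsq c hc) hD
  have hex : ∀ g : G, ∃ x : N, φ x = g ∧
      Matrix.GeneralLinearGroup.det (x : GL (Fin 2) k) ∈ S.T := by
    intro g
    obtain ⟨x₀, hx₀⟩ := hφ g
    obtain ⟨c, hc, hcD⟩ := hrep (Matrix.GeneralLinearGroup.det (x₀ : GL (Fin 2) k))
    obtain ⟨h, hφc⟩ := hZmem c hc
    refine ⟨⟨Matrix.GeneralLinearGroup.scalar (Fin 2) c, h⟩ * x₀, ?_, ?_⟩
    · rw [map_mul, hφc, one_mul, hx₀]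
    · have h1 : Matrix.GeneralLinearGroup.det (((⟨Matrix.GeneralLinearGroup.scalar (Fin 2) c, h⟩ *
          x₀ : N)) : GL (Fin 2) k) = rep (Matrix.GeneralLinearGroup.det (x₀ : GL (Fin 2) k)) := by
        rw [Subgroup.coe_mul, map_mul, Matrix.GeneralLinearGroup.det_scalar, Fintype.card_fin, hcD]
      rw [h1]
      exact hT _ (Subgroup.mem_map.mpr ⟨_, x₀.2, rfl⟩)
  choose r hr1 hr2 using hex
  -- sizes
  have hfG : Nat.card G = Fintype.card G := Nat.card_eq_fintype_card
  have hNG : Nat.card N ≤ Nat.card G * Nat.card Z := by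
    rw [← Nat.card_prod]
    have hsc : ∀ x : N, ∃ c : Z, ((x * (r (φ x))⁻¹ : N) : GL (Fin 2) k) =
        Matrix.GeneralLinearGroup.scalar (Fin 2) (c : kˣ) := by
      intro x
      have h1 : φ (x * (r (φ x))⁻¹) = 1 := by
        rw [map_mul, map_inv, hr1, mul_inv_cancel]
      obtain ⟨c, hc⟩ := hker _ h1
      refine ⟨⟨c, ?_⟩, hc⟩
      rw [hZ, Subgroup.mem_comap, Subgroup.mem_map]
      exact ⟨_, h1, hc⟩
    choose cc hcc using hsc
    refine Nat.card_le_card_of_injective (fun x => (φ x, cc x)) ?_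
    intro x y hxy
    simp only [Prod.mk.injEq] at hxy
    have h1 := hcc x
    have h2 := hcc y
    rw [hxy.2, ← h2, hxy.1] at h1
    have h3 : x * (r (φ y))⁻¹ = y * (r (φ y))⁻¹ := Subtype.ext h1
    exact mul_right_cancel h3
  have hHN : Nat.card (k × k × kˣ × H) ≤ Nat.card N := by
    have hmem : ∀ t : k × k × kˣ × H, mat t.1 t.2.1 t.2.2.1 (t.2.2.2 : kˣ) ∈ N := by
      intro t
      obtain ⟨n, hn, hnD⟩ := Subgroup.mem_map.mp t.2.2.2.2
      have h1 : mat t.1 t.2.1 t.2.2.1 (t.2.2.2 : kˣ) * n⁻¹ ∈ N := by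
        apply hN
        rw [map_mul, map_inv, hnD, mat_det, mul_inv_cancel]
      have h2 := N.mul_mem h1 hn
      rwa [inv_mul_cancel_right] at h2
    refine Nat.card_le_card_of_injective
      (fun t : k × k × kˣ × H => (⟨mat t.1 t.2.1 t.2.2.1 (t.2.2.2 : kˣ), hmem t⟩ : N)) ?_
    intro t t' htt
    have h1 := congrArg (Subtype.val) htt
    obtain ⟨h2, h3, h4, h5⟩ := mat_inj h1
    exact Prod.ext h2 (Prod.ext h3 (Prod.ext h4 (Subtype.ext h5)))
  rw [Nat.card_prod, Nat.card_prod, Nat.card_prod, card_units, Nat.card_eq_fintype_card] at hHN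
  have hq2 : (2 : ℝ) ≤ Fintype.card k := two_le_q
  have hq2' : 2 ≤ Fintype.card k := by exact_mod_cast hq2
  refine ⟨S, r, hr1, hr2, hZmem, ?_, ?_⟩
  · have hZpos : (0 : ℝ) < Nat.card Z := by exact_mod_cast Nat.card_pos
    show (Fintype.card k : ℝ) ^ 3 * ((Nat.card H : ℝ) / (Nat.card Z : ℝ)) ≤ 2 * Fintype.card G
    rw [← mul_div_assoc, div_le_iff₀ hZpos]
    have h1 : Fintype.card k * (Fintype.card k * ((Fintype.card k - 1) * Nat.card H)) ≤
        Fintype.card G * Nat.card Z := by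
      rw [← hfG]
      exact hHN.trans hNG
    have h2 : (Fintype.card k : ℝ) * (Fintype.card k * ((Fintype.card k - 1) * Nat.card H)) ≤
        Fintype.card G * Nat.card Z := by
      have h3 : ((Fintype.card k - 1 : ℕ) : ℝ) = (Fintype.card k : ℝ) - 1 := by
        rw [Nat.cast_sub (by omega), Nat.cast_one]
      rw [← h3]
      exact_mod_cast h1
    have hH0 : (0 : ℝ) ≤ Nat.card H := Nat.cast_nonneg _
    have h4 : 0 ≤ (Fintype.card k : ℝ) * (Fintype.card k * ((Fintype.card k - 2) * Nat.card H)) := by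
      have : (0 : ℝ) ≤ (Fintype.card k : ℝ) - 2 := by linarith
      positivity
    nlinarith
  · have h1 : Nat.card G ≤ Nat.card N := Nat.card_le_card_of_surjective φ hφ
    have h2 : Nat.card N ≤ Nat.card (GL (Fin 2) k) :=
      Nat.card_le_card_of_injective _ Subtype.val_injective
    have h3 : Nat.card (GL (Fin 2) k) ≤ Nat.card (Matrix (Fin 2) (Fin 2) k) :=
      Nat.card_le_card_of_injective (fun g : GL (Fin 2) k => (g : Matrix (Fin 2) (Fin 2) k))
        Units.val_injective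
    have h4 : Nat.card (Matrix (Fin 2) (Fin 2) k) = Fintype.card k ^ 4 := by
      rw [Nat.card_eq_fintype_card]
      show Fintype.card (Fin 2 → Fin 2 → k) = _
      rw [Fintype.card_fun, Fintype.card_fun, Fintype.card_fin, ← pow_mul]
    rw [← hfG]
    have h5 := h1.trans (h2.trans h3)
    rw [h4] at h5
    exact_mod_cast h5

end MP0775d3.Sl2
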