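import Pool.Agent.Lib.MP_0775d3_lc.Sl2.Assemble
import Pool.Agent.Lib.MP_0775d3_lc.Sl2.SetupEx

/-! Quotients by scalars of groups between `SL₂(k)` and `GL₂(k)`. -/

set_option linter.unusedSectionVars false

namespace MP0775d3.Sl2

open Matrix MP0775d3.Kron

/-- Few elements of `G` are represented by upper triangular matrices. -/
private theorem final_ncard {k : Type} [Field k] [Fintype k] [DecidableEq k]
    {N : Subgroup (GL (Fin 2) k)} {G : Type} [Group G] [Fintype G] (φ : N →* G) (S : Setup k)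
    (r : G → N) (hr : ∀ g, φ (r g) = g)
    (hT : ∀ g, Matrix.GeneralLinearGroup.det (r g : GL (Fin 2) k) ∈ S.T) :
    (({g : G | ((r g : GL (Fin 2) k) : Matrix (Fin 2) (Fin 2) k) 1 0 ≠ 0}ᶜ : Set G).ncard : ℝ) ≤
      2 * (S.B * (Fintype.card k : ℝ)⁻¹) := by
  classical
  set P : Set G := {g : G | ((r g : GL (Fin 2) k) : Matrix (Fin 2) (Fin 2) k) 1 0 ≠ 0}ᶜ with hP
  have hmem : ∀ g : G, g ∈ P → ((r g : GL (Fin 2) k) : Matrix (Fin 2) (Fin 2) k) 1 0 = 0 := by
    intro g hg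
    rw [hP, Set.mem_compl_iff, Set.mem_ofPred_eq, not_not] at hg
    exact hg
  let c : P → k × k × {d : kˣ // d ∈ S.T} := fun g =>
    (((r g.1 : GL (Fin 2) k) : Matrix (Fin 2) (Fin 2) k) 0 0,
      ((r g.1 : GL (Fin 2) k) : Matrix (Fin 2) (Fin 2) k) 0 1, ⟨_, hT g.1⟩)
  have hc : Function.Injective c := by
    intro g g' h
    simp only [c, Prod.mk.injEq, Subtype.mk.injEq] at h
    obtain ⟨h1, h2, h3⟩ := h
    have h4 := hmem g.1 g.2
    have h5 := hmem g'.1 g'.2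
    have h6 : ∀ x : GL (Fin 2) k, (x : Matrix (Fin 2) (Fin 2) k) 1 0 = 0 →
        ((Matrix.GeneralLinearGroup.det x : kˣ) : k) =
          (x : Matrix (Fin 2) (Fin 2) k) 0 0 * (x : Matrix (Fin 2) (Fin 2) k) 1 1 := by
      intro x hx
      rw [Matrix.GeneralLinearGroup.val_det_apply, Matrix.det_fin_two, hx, mul_zero, sub_zero]
    have h7 : ((r g.1 : GL (Fin 2) k) : Matrix (Fin 2) (Fin 2) k) 1 1 =
        ((r g'.1 : GL (Fin 2) k) : Matrix (Fin 2) (Fin 2) k) 1 1 := by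
      have e1 := h6 _ h4
      have e2 := h6 _ h5
      have e3 : ((r g.1 : GL (Fin 2) k) : Matrix (Fin 2) (Fin 2) k) 0 0 ≠ 0 := by
        intro h0
        rw [h0, zero_mul] at e1
        exact (Matrix.GeneralLinearGroup.det (r g.1 : GL (Fin 2) k)).ne_zero e1
      have e4 : ((r g.1 : GL (Fin 2) k) : Matrix (Fin 2) (Fin 2) k) 0 0 *
          ((r g.1 : GL (Fin 2) k) : Matrix (Fin 2) (Fin 2) k) 1 1 =
          ((r g.1 : GL (Fin 2) k) : Matrix (Fin 2) (Fin 2) k) 0 0 *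
          ((r g'.1 : GL (Fin 2) k) : Matrix (Fin 2) (Fin 2) k) 1 1 := by
        rw [← e1, h3, e2, h1]
      exact mul_left_cancel₀ e3 e4
    have h8 : (r g.1 : GL (Fin 2) k) = (r g'.1 : GL (Fin 2) k) := by
      apply Matrix.GeneralLinearGroup.ext
      intro i j
      fin_cases i <;> fin_cases j
      · exact h1
      · exact h2
      · exact h4.trans h5.symm
      · exact h7
    have h9 : r g.1 = r g'.1 := Subtype.ext h8
    apply Subtype.ext
    rw [← hr g.1, h9, hr]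
  have h1 : P.ncard ≤ Fintype.card k * (Fintype.card k * S.T.card) := by
    rw [← Nat.card_coe_set_eq]
    refine (Nat.card_le_card_of_injective c hc).trans (le_of_eq ?_)
    rw [Nat.card_prod, Nat.card_prod, Nat.card_eq_fintype_card, Nat.card_eq_fintype_card,
      Fintype.card_coe]
  have h2 : (P.ncard : ℝ) ≤ Fintype.card k * (Fintype.card k * S.T.card) := by exact_mod_cast h1
  have hq : (0 : ℝ) < Fintype.card k := by linarith [two_le_q (k := k)]
  refine h2.trans ?_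
  have h3 := card_T_le S
  have h4 : S.B * (Fintype.card k : ℝ)⁻¹ = (Fintype.card k : ℝ) ^ 2 * S.m := by
    rw [Setup.B]
    field_simp
  rw [h4]
  calc (Fintype.card k : ℝ) * (Fintype.card k * S.T.card)
      ≤ (Fintype.card k : ℝ) * (Fintype.card k * (2 * S.m)) := by gcongr
    _ = 2 * ((Fintype.card k : ℝ) ^ 2 * S.m) := by ring

/-- The decomposition in terms of the number of elements of the field. -/
private theorem final_core {k : Type} [Field k] [Fintype k] [DecidableEq k]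
    {N : Subgroup (GL (Fin 2) k)}
    (hN : ∀ g : GL (Fin 2) k, Matrix.GeneralLinearGroup.det g = 1 → g ∈ N)
    {G : Type} [Group G] [Fintype G] [DecidableEq G] (φ : N →* G) (S : Setup k)
    (r : G → N) (hr : ∀ g, φ (r g) = g)
    (hT : ∀ g, Matrix.GeneralLinearGroup.det (r g : GL (Fin 2) k) ∈ S.T)
    (hZ : ∀ c ∈ S.Z, ∃ h : Matrix.GeneralLinearGroup.scalar (Fin 2) c ∈ N,
        φ ⟨Matrix.GeneralLinearGroup.scalar (Fin 2) c, h⟩ = 1)
    (f : G → ℂ) (hf : ∀ g x, f (g * x * g⁻¹) = f x) {ρ σ : ℝ} (hσ : 0 ≤ σ)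
    (H : ∀ f' : GL (Fin 2) k → ℂ,
      (∀ p g : GL (Fin 2) k, Matrix.GeneralLinearGroup.det p = 1 → f' (p * g * p⁻¹) = f' g) →
      (∀ c ∈ S.Z, ∀ g, f' (Matrix.GeneralLinearGroup.scalar (Fin 2) c * g) = f' g) →
      RDec (Matrix.of fun x y : Cell S => f' (cellMat S x * (cellMat S y)⁻¹)) ρ σ) :
    RDec (Matrix.of fun x y : G => f (x * y⁻¹))
      (ρ + 2 * (S.B * (Fintype.card k : ℝ)⁻¹) + 2 * (S.B * (Fintype.card k : ℝ)⁻¹)) σ := by
  classical
  set f' : GL (Fin 2) k → ℂ := fun g => if h : g ∈ N then f (φ ⟨g, h⟩) else 0 with hf'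
  have f'_mem : ∀ (g : GL (Fin 2) k) (h : g ∈ N), f' g = f (φ ⟨g, h⟩) := by
    intro g h
    simp only [hf', dif_pos h]
  have f'_nmem : ∀ (g : GL (Fin 2) k) (h : g ∉ N), f' g = 0 := by
    intro g h
    simp only [hf', dif_neg h]
  have hconj : ∀ p g : GL (Fin 2) k, Matrix.GeneralLinearGroup.det p = 1 →
      f' (p * g * p⁻¹) = f' g := by
    intro p g hp
    have hpN := hN p hp
    by_cases hg : g ∈ N
    · have h1 : p * g * p⁻¹ ∈ N := N.mul_mem (N.mul_mem hpN hg) (N.inv_mem hpN)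
      rw [f'_mem _ h1, f'_mem _ hg]
      have h2 : (⟨p * g * p⁻¹, h1⟩ : N) = ⟨p, hpN⟩ * ⟨g, hg⟩ * (⟨p, hpN⟩ : N)⁻¹ := rfl
      rw [h2, map_mul, map_mul, map_inv, hf]
    · have h1 : p * g * p⁻¹ ∉ N := by
        intro h
        apply hg
        have h2 := N.mul_mem (N.mul_mem (N.inv_mem hpN) h) hpN
        have h3 : p⁻¹ * (p * g * p⁻¹) * p = g := by group
        rwa [h3] at h2
      rw [f'_nmem _ h1, f'_nmem _ hg]
  have hsc : ∀ c ∈ S.Z, ∀ g, f' (Matrix.GeneralLinearGroup.scalar (Fin 2) c * g) = f' g := by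
    intro c hc g
    obtain ⟨h, hφ⟩ := hZ c hc
    by_cases hg : g ∈ N
    · have h1 : Matrix.GeneralLinearGroup.scalar (Fin 2) c * g ∈ N := N.mul_mem h hg
      rw [f'_mem _ h1, f'_mem _ hg]
      have h2 : (⟨Matrix.GeneralLinearGroup.scalar (Fin 2) c * g, h1⟩ : N) =
        ⟨Matrix.GeneralLinearGroup.scalar (Fin 2) c, h⟩ * ⟨g, hg⟩ := rfl
      rw [h2, map_mul, hφ, one_mul]
    · have h1 : Matrix.GeneralLinearGroup.scalar (Fin 2) c * g ∉ N := by
        intro h'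
        apply hg
        have h2 := N.mul_mem (N.inv_mem h) h'
        rwa [inv_mul_cancel_left] at h2
      rw [f'_nmem _ h1, f'_nmem _ hg]
  have D := H f' hconj hsc
  set P : Set G := {g : G | ((r g : GL (Fin 2) k) : Matrix (Fin 2) (Fin 2) k) 1 0 ≠ 0} with hP
  have hcell : ∀ g : P, ∃ x : Cell S, cellMat S x = (r g.1 : GL (Fin 2) k) := by
    intro g
    obtain ⟨u, v, a, h⟩ := exists_mat (r g.1 : GL (Fin 2) k) g.2
    exact ⟨(u, v, a, ⟨_, hT g.1⟩), h.symm⟩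
  choose c hc using hcell
  have hcinj : Function.Injective c := by
    intro g g' h
    have h1 : (r g.1 : GL (Fin 2) k) = (r g'.1 : GL (Fin 2) k) := by
      rw [← hc g, h, hc g']
    have h2 : r g.1 = r g'.1 := Subtype.ext h1
    apply Subtype.ext
    rw [← hr g.1, h2, hr]
  have hfib : ∀ x : Cell S, (({g | c g = x} : Set P).ncard : ℝ) ≤ 1 := by
    intro x
    have h1 : ({g | c g = x} : Set P).Subsingleton := by
      intro g hg g' hg'
      exact hcinj (hg.trans hg'.symm)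
    have h2 : ({g | c g = x} : Set P).ncard ≤ 1 := by
      rw [Set.ncard_le_one_iff_subsingleton]
      exact h1
    exact_mod_cast h2
  have D2 := D.submatrix hσ zero_le_one c c hfib hfib
  rw [one_mul] at D2
  have heq : (Matrix.of fun x y : Cell S => f' (cellMat S x * (cellMat S y)⁻¹)).submatrix c c =
      (Matrix.of fun x y : G => f (x * y⁻¹)).submatrix (Subtype.val : P → G)
        (Subtype.val : P → G) := by
    ext x y
    rw [Matrix.submatrix_apply, Matrix.submatrix_apply, Matrix.of_apply, Matrix.of_apply, hc, hc]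
    have h1 : (r x.1 : GL (Fin 2) k) * (r y.1 : GL (Fin 2) k)⁻¹ ∈ N :=
      N.mul_mem (r x.1).2 (N.inv_mem (r y.1).2)
    rw [f'_mem _ h1]
    have h2 : (⟨(r x.1 : GL (Fin 2) k) * (r y.1 : GL (Fin 2) k)⁻¹, h1⟩ : N) =
      r x.1 * (r y.1)⁻¹ := rfl
    rw [h2, map_mul, map_inv, hr, hr]
  rw [heq] at D2
  have D3 := rdec_cut hσ P P D2
  have hn := final_ncard φ S r hr hT
  rw [← hP] at hn
  refine D3.mono ?_ le_rfl
  linarith

theorem main_scalar (δ : ℝ) (hδ : 0 < δ) : ∃ γ : ℝ, 0 < γ ∧ ∃ n₀ : ℕ,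
    ∀ (k : Type) [Field k] [Fintype k] [DecidableEq k] (N : Subgroup (GL (Fin 2) k))
      (_ : ∀ g : GL (Fin 2) k, Matrix.GeneralLinearGroup.det g = 1 → g ∈ N)
      (G : Type) [Group G] [Fintype G] [DecidableEq G] (φ : N →* G) (_ : Function.Surjective φ)
      (_ : ∀ x : N, φ x = 1 → ∃ c : kˣ,
        (x : GL (Fin 2) k) = Matrix.GeneralLinearGroup.scalar (Fin 2) c),
      n₀ ≤ Fintype.card G → ∀ f : G → ℂ, (∀ g x, f (g * x * g⁻¹) = f x) →
      Dec (Matrix.of fun x y : G => f (x * y⁻¹)) ((Fintype.card G : ℝ) ^ (1 - γ))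
        ((Fintype.card G : ℝ) ^ δ) := by
  have hδ' : 0 < min 1 (δ / 2) := lt_min one_pos (by linarith)
  obtain ⟨γ', hγ', hγ1, C, hC, H⟩ := cell_dec (min 1 (δ / 2)) hδ' (min_le_left _ _)
  have ev1 : ∀ᶠ x : ℝ in Filter.atTop, 2 * (C + 4) ≤ x ^ (γ' / 8) :=
    (tendsto_rpow_atTop (by positivity)).eventually_ge_atTop _
  have ev2 : ∀ᶠ x : ℝ in Filter.atTop, C * 2 ^ (δ / 2) ≤ x ^ (δ / 2) :=
    (tendsto_rpow_atTop (by positivity)).eventually_ge_atTop _
  obtain ⟨n₀, hn₀⟩ := (tendsto_natCast_atTop_atTop.eventually (ev1.and ev2)).exists_forall_of_atTop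
  refine ⟨γ' / 8, by positivity, max 1 n₀, ?_⟩
  intro k _ _ _ N hN G _ _ _ φ hφ hker hn f hf
  obtain ⟨S, r, hr, hT, hZ, hB, hn4⟩ := exists_setup N hN φ hφ hker
  have hn1 : (1 : ℝ) ≤ Fintype.card G := by exact_mod_cast (le_max_left 1 n₀).trans hn
  have hn0 : (0 : ℝ) < Fintype.card G := by linarith
  obtain ⟨hA1, hA2⟩ := hn₀ (Fintype.card G) ((le_max_right 1 n₀).trans hn)
  have hq2 := two_le_q (k := k)
  have hq0 : (0 : ℝ) < Fintype.card k := by linarith
  have hq1 : (1 : ℝ) ≤ Fintype.card k := by linarith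
  have hqB := q_le_B S
  have hB0 : (0 : ℝ) ≤ S.B := by linarith
  set q : ℝ := (Fintype.card k : ℝ) with hq
  set n : ℝ := (Fintype.card G : ℝ) with hnn
  have D := final_core hN φ S r hr hT hZ f hf (ρ := C * (S.B * q ^ (-γ')))
    (σ := C * q ^ min 1 (δ / 2)) (by positivity) (fun f' h1 h2 => H k S f' h1 h2)
  refine (D.mono ?_ ?_).dec
  · -- the rank
    have h1 : q⁻¹ ≤ q ^ (-γ') := by
      rw [← Real.rpow_neg_one]
      exact Real.rpow_le_rpow_of_exponent_le hq1 (by linarith)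
    have h2 : S.B * q⁻¹ ≤ S.B * q ^ (-γ') := mul_le_mul_of_nonneg_left h1 hB0
    have h3 : C * (S.B * q ^ (-γ')) + 2 * (S.B * q⁻¹) + 2 * (S.B * q⁻¹) ≤
        (C + 4) * (S.B * q ^ (-γ')) := by linarith
    have h4 : q ^ (-γ') ≤ n ^ (-(γ' / 4)) := by
      have h5 : n ^ (γ' / 4) ≤ (q ^ 4) ^ (γ' / 4) :=
        Real.rpow_le_rpow hn0.le hn4 (by positivity)
      have h6 : (q ^ 4) ^ (γ' / 4) = q ^ γ' := by
        rw [← Real.rpow_natCast, ← Real.rpow_mul hq0.le]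
        congr 1
        push_cast
        ring
      rw [h6] at h5
      rw [Real.rpow_neg hq0.le, Real.rpow_neg hn0.le]
      exact inv_anti₀ (Real.rpow_pos_of_pos hn0 _) h5
    have h5 : S.B * q ^ (-γ') ≤ 2 * n * n ^ (-(γ' / 4)) :=
      mul_le_mul hB h4 (Real.rpow_nonneg hq0.le _) (by positivity)
    have h6 : n ^ (1 - γ' / 8) = n * n ^ (-(γ' / 4)) * n ^ (γ' / 8) := by
      rw [show (1 : ℝ) - γ' / 8 = 1 + -(γ' / 4) + γ' / 8 by ring, Real.rpow_add hn0,
        Real.rpow_add hn0, Real.rpow_one]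
    rw [h6]
    have h7 : 0 ≤ n * n ^ (-(γ' / 4)) := by positivity
    calc C * (S.B * q ^ (-γ')) + 2 * (S.B * q⁻¹) + 2 * (S.B * q⁻¹)
        ≤ (C + 4) * (S.B * q ^ (-γ')) := h3
      _ ≤ (C + 4) * (2 * n * n ^ (-(γ' / 4))) := mul_le_mul_of_nonneg_left h5 (by linarith)
      _ = n * n ^ (-(γ' / 4)) * (2 * (C + 4)) := by ring
      _ ≤ n * n ^ (-(γ' / 4)) * n ^ (γ' / 8) := mul_le_mul_of_nonneg_left hA1 h7
  · -- the sparse part
    have h1 : q ^ min 1 (δ / 2) ≤ q ^ (δ / 2) :=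
      Real.rpow_le_rpow_of_exponent_le hq1 (min_le_right _ _)
    have h2 : q ^ (δ / 2) ≤ (2 * n) ^ (δ / 2) :=
      Real.rpow_le_rpow hq0.le (hqB.trans hB) (by positivity)
    rw [Real.mul_rpow (by norm_num) hn0.le] at h2
    have h3 : n ^ δ = n ^ (δ / 2) * n ^ (δ / 2) := by
      rw [← Real.rpow_add hn0]
      congr 1
      ring
    rw [h3]
    calc C * q ^ min 1 (δ / 2) ≤ C * (2 ^ (δ / 2) * n ^ (δ / 2)) :=
          mul_le_mul_of_nonneg_left (h1.trans h2) (by linarith)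
      _ = C * 2 ^ (δ / 2) * n ^ (δ / 2) := by ring
      _ ≤ n ^ (δ / 2) * n ^ (δ / 2) :=
          mul_le_mul_of_nonneg_right hA2 (Real.rpow_nonneg hn0.le _)

end MP0775d3.Sl2
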