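import Pool.Agent.Lib.MP_0775d3_lc.Sl2.Rect
import Pool.Agent.Lib.MP_0775d3_lc.Kron.Invariant

/-! Power saving for Fourier matrices of `k³`, from `inv_dec`. -/

set_option linter.unusedSectionVars false

namespace MP0775d3.Sl2

open Matrix MP0775d3.Kron

section
variable {k : Type} [Field k]

/-- the action of `(kˣ)³` on `k³` -/
@[reducible] private def fdAct : MulAction (kˣ × kˣ × kˣ) (k × k × k) where
  smul g x := ((g.1 : k) * x.1, (g.2.1 : k) * x.2.1, (g.2.2 : k) * x.2.2)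
  one_smul x := by
    show (((1 : kˣ) : k) * x.1, ((1 : kˣ) : k) * x.2.1, ((1 : kˣ) : k) * x.2.2) = x
    simp
  mul_smul g h x := by
    show (((g.1 * h.1 : kˣ) : k) * x.1, ((g.2.1 * h.2.1 : kˣ) : k) * x.2.1,
        ((g.2.2 * h.2.2 : kˣ) : k) * x.2.2) =
      ((g.1 : k) * ((h.1 : k) * x.1), (g.2.1 : k) * ((h.2.1 : k) * x.2.1),
        (g.2.2 : k) * ((h.2.2 : k) * x.2.2))
    simp [mul_assoc]

open Classical in
private theorem fd_orbits : Nat.card (@MulAction.orbitRel.Quotient (kˣ × kˣ × kˣ) (k × k × k) _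
    fdAct) ≤ 8 := by
  let _ := @fdAct k _
  let e : Bool → k := fun b => if b then 1 else 0
  let f : Bool × Bool × Bool → MulAction.orbitRel.Quotient (kˣ × kˣ × kˣ) (k × k × k) :=
    fun b => Quotient.mk (MulAction.orbitRel (kˣ × kˣ × kˣ) (k × k × k)) (e b.1, e b.2.1, e b.2.2)
  have hone : ∀ x : k, ∃ (g : kˣ) (b : Bool), (g : k) * e b = x := by
    intro x
    by_cases hx : x = 0
    · exact ⟨1, false, by simp [e, hx]⟩
    · exact ⟨Units.mk0 x hx, true, by simp [e]⟩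
  have hf : Function.Surjective f := by
    intro c
    obtain ⟨⟨x, y, z⟩, rfl⟩ := Quotient.exists_rep c
    obtain ⟨g1, b1, h1⟩ := hone x
    obtain ⟨g2, b2, h2⟩ := hone y
    obtain ⟨g3, b3, h3⟩ := hone z
    refine ⟨(b1, b2, b3), ?_⟩
    apply Quotient.sound
    show MulAction.orbitRel (kˣ × kˣ × kˣ) (k × k × k) (e b1, e b2, e b3) (x, y, z)
    rw [MulAction.orbitRel_apply]
    refine ⟨(g1⁻¹, g2⁻¹, g3⁻¹), ?_⟩
    show (((g1⁻¹ : kˣ) : k) * x, ((g2⁻¹ : kˣ) : k) * y, ((g3⁻¹ : kˣ) : k) * z) =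
      (e b1, e b2, e b3)
    rw [← h1, ← h2, ← h3]
    simp
  have h := Nat.card_le_card_of_surjective f hf
  simpa using h

end

/-- Block diagonal matrices with Fourier matrices of `k³` as blocks: the multiplicative group
`(kˣ)³` acts on `k³` with at most eight orbits, and `ψ (x · y⁻¹)` is invariant. -/
theorem fourier_dec (δ : ℝ) (hδ : 0 < δ) (hδ1 : δ ≤ 1) : ∃ γ : ℝ, 0 < γ ∧ γ ≤ 1 ∧ ∃ C : ℝ, 1 ≤ C ∧
    ∀ (k : Type) [Field k] [Fintype k] [DecidableEq k] (ψ : k → ℂ) (T : Type) [Fintype T]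
      [DecidableEq T],
      RDec (Matrix.of fun x y : T × k × k × k => if x.1 = y.1 then
          ψ (x.2.1 * y.2.1 + x.2.2.1 * y.2.2.1 + x.2.2.2 * y.2.2.2) else 0)
        (C * Fintype.card T * ((Fintype.card k : ℝ) ^ 3 * (Fintype.card k : ℝ) ^ (-γ)))
        (C * (Fintype.card k : ℝ) ^ δ) := by
  obtain ⟨γ₀, hγ₀, C₀, hC₀, hinv⟩ := inv_dec.{0, 0} (δ / 24) (by linarith) (by linarith)
  refine ⟨min γ₀ 1, lt_min hγ₀ one_pos, min_le_right _ _, 8 * C₀ + 8, by linarith, ?_⟩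
  intro k _ _ _ ψ T _ _
  set γ := min γ₀ 1 with hγ
  have hγ0 : 0 < γ := lt_min hγ₀ one_pos
  have hγ1 : γ ≤ 1 := min_le_right _ _
  let _ := @fdAct k _
  have h1 := hinv ℂ (kˣ × kˣ × kˣ) (fun g h => mul_comm g h) (k × k × k)
    (fun x y => ψ (x.1 * y.1⁻¹ + x.2.1 * y.2.1⁻¹ + x.2.2 * y.2.2⁻¹)) (by
      rintro ⟨g1, g2, g3⟩ ⟨x1, x2, x3⟩ ⟨y1, y2, y3⟩
      show ψ (((g1 : k) * x1) * ((g1 : k) * y1)⁻¹ + ((g2 : k) * x2) * ((g2 : k) * y2)⁻¹ +
        ((g3 : k) * x3) * ((g3 : k) * y3)⁻¹) = ψ (x1 * y1⁻¹ + x2 * y2⁻¹ + x3 * y3⁻¹)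
      have h : ∀ (g : kˣ) (x y : k), ((g : k) * x) * ((g : k) * y)⁻¹ = x * y⁻¹ := by
        intro g x y
        rw [mul_inv]
        have hg : (g : k) ≠ 0 := g.ne_zero
        calc (g : k) * x * ((g : k)⁻¹ * y⁻¹) = ((g : k) * (g : k)⁻¹) * (x * y⁻¹) := by ring
          _ = x * y⁻¹ := by rw [mul_inv_cancel₀ hg, one_mul]
      rw [h, h, h])
  set q : ℝ := (Fintype.card k : ℝ) with hq
  have hq1 : 1 < q := by
    rw [hq]
    exact_mod_cast Fintype.one_lt_card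
  have hq0 : 0 < q := by linarith
  have hlog : 0 < Real.log q := Real.log_pos hq1
  have horb : (Nat.card (MulAction.orbitRel.Quotient (kˣ × kˣ × kˣ) (k × k × k)) : ℝ) ≤ 8 := by
    exact_mod_cast fd_orbits (k := k)
  have hA1 : (1 : ℝ) ≤ (Nat.card (kˣ × kˣ × kˣ) : ℝ) := by
    exact_mod_cast Nat.card_pos
  have hA2 : (Nat.card (kˣ × kˣ × kˣ) : ℝ) ≤ q ^ 3 := by
    have h2 : Nat.card kˣ ≤ Fintype.card k := by
      rw [← Nat.card_eq_fintype_card (α := k)]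
      exact Nat.card_le_card_of_injective (fun u : kˣ => (u : k)) Units.val_injective
    have h3 : Nat.card (kˣ × kˣ × kˣ) ≤ Fintype.card k ^ 3 := by
      rw [Nat.card_prod, Nat.card_prod]
      calc Nat.card kˣ * (Nat.card kˣ * Nat.card kˣ) ≤
          Fintype.card k * (Fintype.card k * Fintype.card k) :=
            Nat.mul_le_mul h2 (Nat.mul_le_mul h2 h2)
        _ = Fintype.card k ^ 3 := by ring
    rw [hq]
    exact_mod_cast h3
  have hL0 : 0 ≤ Real.log (Nat.card (kˣ × kˣ × kˣ)) := Real.log_nonneg hA1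
  have hL1 : Real.log (Nat.card (kˣ × kˣ × kˣ)) ≤ 3 * Real.log q := by
    have := Real.log_le_log (by linarith) hA2
    rwa [Real.log_pow, Nat.cast_ofNat] at this
  have hr : Real.exp ((1 - γ₀) * Real.log (Nat.card (kˣ × kˣ × kˣ))) ≤ q ^ 3 * q ^ (-γ) := by
    have e1 : q ^ 3 * q ^ (-γ) = Real.exp ((3 - γ) * Real.log q) := by
      rw [← Real.rpow_natCast q 3, ← Real.rpow_add hq0, Real.rpow_def_of_pos hq0]
      congr 1
      push_cast
      ring
    rw [e1]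
    apply Real.exp_le_exp.2
    have h2 : (1 - γ₀) * Real.log (Nat.card (kˣ × kˣ × kˣ)) ≤
        (1 - γ) * Real.log (Nat.card (kˣ × kˣ × kˣ)) := by
      apply mul_le_mul_of_nonneg_right _ hL0
      have := min_le_left γ₀ 1
      linarith
    have h3 : (1 - γ) * Real.log (Nat.card (kˣ × kˣ × kˣ)) ≤ (1 - γ) * (3 * Real.log q) :=
      mul_le_mul_of_nonneg_left hL1 (by linarith)
    have h4 := mul_pos hγ0 hlog
    linarith [h2, h3, h4, show (1 - γ) * (3 * Real.log q) =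
      (3 - γ) * Real.log q - 2 * (γ * Real.log q) by ring]
  have hs : Real.exp (8 * (δ / 24) * Real.log (Nat.card (kˣ × kˣ × kˣ))) ≤ q ^ δ := by
    rw [Real.rpow_def_of_pos hq0]
    apply Real.exp_le_exp.2
    have := mul_le_mul_of_nonneg_left hL1 (show (0 : ℝ) ≤ 8 * (δ / 24) by linarith)
    linarith [show 8 * (δ / 24) * (3 * Real.log q) = Real.log q * δ by ring]
  have hp1 : 0 ≤ q ^ 3 * q ^ (-γ) := by positivity
  have hp2 : 0 ≤ q ^ δ := by positivity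
  have h2 : Dec (Matrix.of fun x y : k × k × k =>
      ψ (x.1 * y.1 + x.2.1 * y.2.1 + x.2.2 * y.2.2))
      ((8 * C₀ + 8) * (q ^ 3 * q ^ (-γ))) ((8 * C₀ + 8) * q ^ δ) := by
    let iv : k × k × k ≃ k × k × k :=
      { toFun := fun y => (y.1⁻¹, y.2.1⁻¹, y.2.2⁻¹)
        invFun := fun y => (y.1⁻¹, y.2.1⁻¹, y.2.2⁻¹)
        left_inv := fun y => by simp
        right_inv := fun y => by simp }
    have h3 := Dec.submatrix_inj₂ h1 (Equiv.refl _) iv (Equiv.injective _) (Equiv.injective _)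
    have h4 : (Matrix.of fun x y : k × k × k =>
        ψ (x.1 * y.1⁻¹ + x.2.1 * y.2.1⁻¹ + x.2.2 * y.2.2⁻¹)).submatrix (Equiv.refl _) iv =
        Matrix.of fun x y : k × k × k => ψ (x.1 * y.1 + x.2.1 * y.2.1 + x.2.2 * y.2.2) := by
      ext x y
      simp [iv]
    rw [h4] at h3
    refine h3.mono ?_ ?_
    · have e1 := mul_le_mul horb hr (Real.exp_pos _).le (by norm_num : (0 : ℝ) ≤ 8)
      have e2 := mul_le_mul_of_nonneg_left e1 hC₀.le
      linarith [e2, hp1, show (8 * C₀ + 8) * (q ^ 3 * q ^ (-γ)) =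
        C₀ * (8 * (q ^ 3 * q ^ (-γ))) + 8 * (q ^ 3 * q ^ (-γ)) by ring]
    · have e1 := mul_le_mul horb hs (Real.exp_pos _).le (by norm_num : (0 : ℝ) ≤ 8)
      have e2 := mul_nonneg hC₀.le hp2
      linarith [e1, e2, show (8 * C₀ + 8) * q ^ δ = 8 * q ^ δ + 8 * (C₀ * q ^ δ) by ring]
  have h5 := dec_bd (Z := T) (fun _ => Matrix.of fun x y : k × k × k =>
      ψ (x.1 * y.1 + x.2.1 * y.2.1 + x.2.2 * y.2.2)) (s := (8 * C₀ + 8) * q ^ δ)
      (by positivity) (fun _ => h2)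
  refine (rdec_of_dec h5).mono (le_of_eq ?_) le_rfl
  ring

end MP0775d3.Sl2
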