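import Pool.Agent.Lib.MP_0775d3_lc.Sl2.TorDefs
import Pool.Agent.Lib.MP_0775d3_lc.Sl2.FourierDec
import Pool.Agent.Lib.MP_0775d3_lc.Sl2.Sizes

/-! The outer factors are restricted Fourier matrices: rows inject into `T × k³` by
`(D; u, v, a)`, columns map at most two to one by `(D; -ξ, -ζ, tr τ)`. -/

set_option linter.unusedSectionVars false

namespace MP0775d3.Sl2

open Matrix

section aux
variable {k : Type} [Field k] [Fintype k] [DecidableEq k]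

/-- The coordinates of a cell. -/
def abCellMap (S : Setup k) (x : Cell S) : {d : kˣ // d ∈ S.T} × k × k × k :=
  (x.2.2.2, x.1, x.2.1, (x.2.2.1 : k))

/-- The frequency of an inner index, with signs `e` and `e'`. -/
noncomputable def abInnerMap (S : Setup k) (Q : QData k) (e e' : kˣ) (z : Inner S Q) :
    {d : kˣ // d ∈ S.T} × k × k × k :=
  (z.2.1, (e : k) * z.1, (e : k) * (nmU Q z.2.2 / (z.1 * z.2.1.1) : kˣ), (e' : k) * Q.tr (z.2.2 : Q.E))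

theorem abCellMap_fib (S : Setup k) (w : {d : kˣ // d ∈ S.T} × k × k × k) :
    (({x | abCellMap S x = w} : Set (Cell S)).ncard : ℝ) ≤ 2 := by
  have h : ({x | abCellMap S x = w} : Set (Cell S)).ncard ≤ 1 := by
    rw [Set.ncard_le_one]
    rintro ⟨u, v, a, D⟩ hx ⟨u', v', a', D'⟩ hy
    have h1 : abCellMap S (u, v, a, D) = abCellMap S (u', v', a', D') := by
      rw [Set.mem_ofPred_eq] at hx hy
      rw [hx, hy]
    simp only [abCellMap, Prod.mk.injEq] at h1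
    obtain ⟨h2, h3, h4, h5⟩ := h1
    rw [h2, h3, h4, Units.ext h5]
  have h2 : ((({x | abCellMap S x = w} : Set (Cell S)).ncard : ℕ) : ℝ) ≤ (1 : ℕ) := by
    exact_mod_cast h
  push_cast at h2
  linarith

theorem abInnerMap_fib (S : Setup k) (Q : QData k) (hQ : ∀ t m : k, Q.cnt t m ≤ 2)
    (e e' : kˣ) (w : {d : kˣ // d ∈ S.T} × k × k × k) :
    (({z | abInnerMap S Q e e' z = w} : Set (Inner S Q)).ncard : ℝ) ≤ 2 := by
  have hval : ∀ z : Inner S Q, abInnerMap S Q e e' z = w →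
      z.2.1 = w.1 ∧ (z.1 : k) = (e⁻¹ : kˣ) * w.2.1 ∧
      Q.nm (z.2.2 : Q.E) = (e⁻¹ : kˣ) * w.2.2.1 * ((e⁻¹ : kˣ) * w.2.1) * (w.1.1 : k) ∧
      Q.tr (z.2.2 : Q.E) = (e'⁻¹ : kˣ) * w.2.2.2 := by
    rintro z hz
    have h1 : z.2.1 = w.1 := by rw [← hz]; rfl
    have h2 : (e : k) * z.1 = w.2.1 := by rw [← hz]; rfl
    have h3 : (e : k) * (nmU Q z.2.2 / (z.1 * z.2.1.1) : kˣ) = w.2.2.1 := by rw [← hz]; rfl
    have h4 : (e' : k) * Q.tr (z.2.2 : Q.E) = w.2.2.2 := by rw [← hz]; rfl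
    have h5 : (z.1 : k) = (e⁻¹ : kˣ) * w.2.1 := by
      rw [← h2, ← mul_assoc, Units.inv_mul, one_mul]
    refine ⟨h1, h5, ?_, ?_⟩
    · have h6 : ((nmU Q z.2.2 : kˣ) : k) = Q.nm (z.2.2 : Q.E) := rfl
      have h7 : ((nmU Q z.2.2 / (z.1 * z.2.1.1) : kˣ) : k) = (e⁻¹ : kˣ) * w.2.2.1 := by
        rw [← h3, ← mul_assoc, Units.inv_mul, one_mul]
      rw [← h5, ← h7, ← h1, mul_assoc, ← Units.val_mul, ← Units.val_mul, div_mul_cancel, h6]
    · rw [← h4, ← mul_assoc, Units.inv_mul, one_mul]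
  set F : Finset Q.E := Finset.univ.filter fun x : Q.E => Q.tr x = (e'⁻¹ : kˣ) * w.2.2.2 ∧
    Q.nm x = (e⁻¹ : kˣ) * w.2.2.1 * ((e⁻¹ : kˣ) * w.2.1) * (w.1.1 : k) with hF
  have hcard : F.card ≤ 2 := hQ _ _
  have hle : ({z | abInnerMap S Q e e' z = w} : Set (Inner S Q)).ncard ≤ (F : Set Q.E).ncard := by
    refine Set.ncard_le_ncard_of_injOn (fun z : Inner S Q => (z.2.2 : Q.E)) ?_ ?_ (Set.toFinite _)
    · intro z hz
      obtain ⟨_, _, h3, h4⟩ := hval z hz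
      rw [hF]
      simp only [Finset.coe_filter, Finset.mem_univ, true_and]
      exact ⟨h4, h3⟩
    · intro z hz z' hz' hzz
      obtain ⟨h1, h2, _, _⟩ := hval z hz
      obtain ⟨h1', h2', _, _⟩ := hval z' hz'
      have e1 : z.1 = z'.1 := Units.ext (h2.trans h2'.symm)
      have e2 : z.2.1 = z'.2.1 := h1.trans h1'.symm
      have e3 : z.2.2 = z'.2.2 := Units.ext hzz
      exact Prod.ext e1 (Prod.ext e2 e3)
  rw [Set.ncard_coe_finset] at hle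
  have : (({z | abInnerMap S Q e e' z = w} : Set (Inner S Q)).ncard : ℝ) ≤ ((2 : ℕ) : ℝ) := by
    exact_mod_cast hle.trans hcard
  simpa using this

theorem ab_bound (S : Setup k) (C γ : ℝ) (hC : 1 ≤ C) :
    C * Fintype.card {d : kˣ // d ∈ S.T} *
      ((Fintype.card k : ℝ) ^ 3 * (Fintype.card k : ℝ) ^ (-γ)) ≤
      2 * C * (S.B * (Fintype.card k : ℝ) ^ (-γ)) := by
  have h1 : (Fintype.card {d : kˣ // d ∈ S.T} : ℝ) ≤ 2 * S.m := by
    rw [Fintype.card_coe]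
    exact card_T_le S
  have h2 : 0 ≤ (Fintype.card k : ℝ) ^ 3 * (Fintype.card k : ℝ) ^ (-γ) := by positivity
  calc C * Fintype.card {d : kˣ // d ∈ S.T} *
      ((Fintype.card k : ℝ) ^ 3 * (Fintype.card k : ℝ) ^ (-γ))
      ≤ C * (2 * S.m) * ((Fintype.card k : ℝ) ^ 3 * (Fintype.card k : ℝ) ^ (-γ)) :=
        mul_le_mul_of_nonneg_right (mul_le_mul_of_nonneg_left h1 (by linarith)) h2
    _ = 2 * C * (S.B * (Fintype.card k : ℝ) ^ (-γ)) := by
        rw [Setup.B]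
        ring

end aux

theorem torA_dec (δ : ℝ) (hδ : 0 < δ) (hδ1 : δ ≤ 1) : ∃ γ : ℝ, 0 < γ ∧ γ ≤ 1 ∧ ∃ C : ℝ, 1 ≤ C ∧
    ∀ (k : Type) [Field k] [Fintype k] [DecidableEq k] (S : Setup k) (Q : QData k)
      (_ : ∀ t m : k, Q.cnt t m ≤ 2) (ψ : AddChar k ℂ),
      RDec (torA S Q ψ) (C * (S.B * (Fintype.card k : ℝ) ^ (-γ))) (C * (Fintype.card k : ℝ) ^ δ) := by
  obtain ⟨γ, hγ, hγ1, C, hC, H⟩ := fourier_dec δ hδ hδ1
  refine ⟨γ, hγ, hγ1, 2 * C, by linarith, ?_⟩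
  intro k _ _ _ S Q hQ ψ
  have hs : 0 ≤ C * (Fintype.card k : ℝ) ^ δ := mul_nonneg (by linarith) (by positivity)
  have h0 := (H k (fun t => ψ t) {d : kˣ // d ∈ S.T}).submatrix hs (by norm_num : (0 : ℝ) ≤ 2)
    (abCellMap S) (abInnerMap S Q (-1) 1) (abCellMap_fib S) (abInnerMap_fib S Q hQ (-1) 1)
  refine RDec.mono (A := torA S Q ψ) ?_ (ab_bound S C γ hC) (le_of_eq (by ring :
    2 * (C * (Fintype.card k : ℝ) ^ δ) = 2 * C * (Fintype.card k : ℝ) ^ δ))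
  convert h0 using 1
  ext x z
  simp only [torA, Matrix.of_apply, Matrix.submatrix_apply, abCellMap, abInnerMap]
  split_ifs
  · congr 1
    push_cast
    ring
  · rfl

theorem torB_dec (δ : ℝ) (hδ : 0 < δ) (hδ1 : δ ≤ 1) : ∃ γ : ℝ, 0 < γ ∧ γ ≤ 1 ∧ ∃ C : ℝ, 1 ≤ C ∧
    ∀ (k : Type) [Field k] [Fintype k] [DecidableEq k] (S : Setup k) (Q : QData k)
      (_ : ∀ t m : k, Q.cnt t m ≤ 2) (ψ : AddChar k ℂ),
      RDec (torB S Q ψ) (C * (S.B * (Fintype.card k : ℝ) ^ (-γ))) (C * (Fintype.card k : ℝ) ^ δ) := by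
  obtain ⟨γ, hγ, hγ1, C, hC, H⟩ := fourier_dec δ hδ hδ1
  refine ⟨γ, hγ, hγ1, 2 * C, by linarith, ?_⟩
  intro k _ _ _ S Q hQ ψ
  have hs : 0 ≤ C * (Fintype.card k : ℝ) ^ δ := mul_nonneg (by linarith) (by positivity)
  have h0 := (H k (fun t => ψ t) {d : kˣ // d ∈ S.T}).submatrix hs (by norm_num : (0 : ℝ) ≤ 2)
    (abInnerMap S Q 1 (-1)) (abCellMap S) (abInnerMap_fib S Q hQ 1 (-1)) (abCellMap_fib S)
  refine RDec.mono (A := torB S Q ψ) ?_ (ab_bound S C γ hC) (le_of_eq (by ring :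
    2 * (C * (Fintype.card k : ℝ) ^ δ) = 2 * C * (Fintype.card k : ℝ) ^ δ))
  convert h0 using 1
  ext z y
  simp only [torB, Matrix.of_apply, Matrix.submatrix_apply, abCellMap, abInnerMap]
  by_cases h : y.2.2.2 = z.2.1
  · rw [if_pos h, if_pos h.symm]
    congr 1
    push_cast
    ring
  · rw [if_neg h, if_neg (fun h' => h h'.symm)]

end MP0775d3.Sl2
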