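import Pool.Agent.Lib.MP_0775d3_lc.Sl2.TorEq
import Pool.Agent.Lib.MP_0775d3_lc.Sl2.TorAB
import Pool.Agent.Lib.MP_0775d3_lc.Sl2.TorC

/-! The contribution of one quadratic algebra. -/

set_option linter.unusedSectionVars false

namespace MP0775d3.Sl2

open Matrix

theorem torM_dec (δ : ℝ) (hδ : 0 < δ) (hδ1 : δ ≤ 1) : ∃ γ : ℝ, 0 < γ ∧ γ ≤ 1 ∧ ∃ C : ℝ, 1 ≤ C ∧
    ∀ (k : Type) [Field k] [Fintype k] [DecidableEq k] (S : Setup k) (Q : QData k)
      (_ : ∀ t m : k, Q.cnt t m ≤ 2) (ψ : AddChar k ℂ)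
      (Φ : k → kˣ → ℂ) (_ : ∀ c ∈ S.Z, ∀ t D, Φ (c * t) (c ^ 2 * D) = Φ t D),
      RDec (torM S Q ψ Φ) (C * (S.B * (Fintype.card k : ℝ) ^ (-γ)))
        (C * (Fintype.card k : ℝ) ^ δ) := by
  have h3 : 0 < δ / 3 := by linarith
  have h31 : δ / 3 ≤ 1 := by linarith
  obtain ⟨γa, ha0, ha1, Ca, hCa, hA⟩ := torA_dec (δ / 3) h3 h31
  obtain ⟨γb, hb0, hb1, Cb, hCb, hB⟩ := torB_dec (δ / 3) h3 h31
  obtain ⟨γc, hc0, hc1, Cc, hCc, hC⟩ := torC_dec (δ / 3) h3 h31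
  have hab : 1 ≤ Ca * Cb := one_le_mul_of_one_le_of_one_le hCa hCb
  have hacb : 1 ≤ Ca * Cc * Cb := one_le_mul_of_one_le_of_one_le
    (one_le_mul_of_one_le_of_one_le hCa hCc) hCb
  refine ⟨min γa (min γb γc), lt_min ha0 (lt_min hb0 hc0), (min_le_left _ _).trans ha1,
    3 * (Ca * Cc * Cb), by linarith, ?_⟩
  intro k _ _ _ S Q hcnt ψ Φ hΦ
  have hq2 : (2 : ℝ) ≤ Fintype.card k := two_le_q
  have hq1 : (1 : ℝ) ≤ Fintype.card k := by linarith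
  have hq0 : (0 : ℝ) < Fintype.card k := by linarith
  have hB0 : 0 ≤ S.B := le_trans (by positivity) (B_lower S)
  have hdec := RDec.mul (mul_nonneg (mul_nonneg (by linarith : (0 : ℝ) ≤ Ca)
      (Real.rpow_nonneg hq0.le (δ / 3))) (mul_nonneg (by linarith : (0 : ℝ) ≤ Cc)
      (Real.rpow_nonneg hq0.le (δ / 3)))) (mul_nonneg (by linarith : (0 : ℝ) ≤ Cb)
      (Real.rpow_nonneg hq0.le (δ / 3)))
    (RDec.mul (mul_nonneg (by linarith : (0 : ℝ) ≤ Ca) (Real.rpow_nonneg hq0.le (δ / 3)))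
      (mul_nonneg (by linarith : (0 : ℝ) ≤ Cc) (Real.rpow_nonneg hq0.le (δ / 3)))
      (hA k S Q hcnt ψ) (hC k S Q Φ hΦ)) (hB k S Q hcnt ψ)
  rw [← torM_eq] at hdec
  have hexp : ∀ γ' : ℝ, min γa (min γb γc) ≤ γ' →
      S.B * (Fintype.card k : ℝ) ^ (-γ') ≤
        S.B * (Fintype.card k : ℝ) ^ (-(min γa (min γb γc))) := by
    intro γ' h
    exact mul_le_mul_of_nonneg_left
      (Real.rpow_le_rpow_of_exponent_le hq1 (neg_le_neg h)) hB0
  set P : ℝ := S.B * (Fintype.card k : ℝ) ^ (-(min γa (min γb γc))) with hP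
  have hP0 : 0 ≤ P := mul_nonneg hB0 (Real.rpow_nonneg hq0.le _)
  refine hdec.mono ?_ ?_
  · have e1 := hexp γa (min_le_left _ _)
    have e2 := hexp γb ((min_le_right _ _).trans (min_le_left _ _))
    have e3 := hexp γc ((min_le_right _ _).trans (min_le_right _ _))
    have f1 : Ca * (S.B * (Fintype.card k : ℝ) ^ (-γa)) ≤ (Ca * Cc * Cb) * P := by
      refine mul_le_mul ?_ e1 (mul_nonneg hB0 (Real.rpow_nonneg hq0.le _)) (by linarith)
      have : 1 ≤ Cc * Cb := one_le_mul_of_one_le_of_one_le hCc hCb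
      nlinarith
    have f2 : Cb * (S.B * (Fintype.card k : ℝ) ^ (-γb)) ≤ (Ca * Cc * Cb) * P := by
      refine mul_le_mul ?_ e2 (mul_nonneg hB0 (Real.rpow_nonneg hq0.le _)) (by linarith)
      have : 1 ≤ Ca * Cc := one_le_mul_of_one_le_of_one_le hCa hCc
      nlinarith
    have f3 : Cc * (S.B * (Fintype.card k : ℝ) ^ (-γc)) ≤ (Ca * Cc * Cb) * P := by
      refine mul_le_mul ?_ e3 (mul_nonneg hB0 (Real.rpow_nonneg hq0.le _)) (by linarith)
      nlinarith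
    linarith
  · have hpow : (Fintype.card k : ℝ) ^ (δ / 3) * (Fintype.card k : ℝ) ^ (δ / 3) *
        (Fintype.card k : ℝ) ^ (δ / 3) = (Fintype.card k : ℝ) ^ δ := by
      rw [← Real.rpow_add hq0, ← Real.rpow_add hq0]
      congr 1
      ring
    have hδq : 0 ≤ (Fintype.card k : ℝ) ^ δ := Real.rpow_nonneg hq0.le _
    calc Ca * (Fintype.card k : ℝ) ^ (δ / 3) * (Cc * (Fintype.card k : ℝ) ^ (δ / 3)) *
          (Cb * (Fintype.card k : ℝ) ^ (δ / 3))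
        = (Ca * Cc * Cb) * ((Fintype.card k : ℝ) ^ (δ / 3) * (Fintype.card k : ℝ) ^ (δ / 3) *
          (Fintype.card k : ℝ) ^ (δ / 3)) := by ring
      _ = (Ca * Cc * Cb) * (Fintype.card k : ℝ) ^ δ := by rw [hpow]
      _ ≤ 3 * (Ca * Cc * Cb) * (Fintype.card k : ℝ) ^ δ := by
          refine mul_le_mul_of_nonneg_right ?_ hδq
          linarith

end MP0775d3.Sl2
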