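import Pool.Agent.Lib.MP_0775d3_lc.Sl2.PhiEq
import Pool.Agent.Lib.MP_0775d3_lc.Sl2.Torus

/-! The kernel of a function of the trace and the determinant. -/

set_option linter.unusedSectionVars false

namespace MP0775d3.Sl2

open Matrix

theorem kerPhi_dec (δ : ℝ) (hδ : 0 < δ) (hδ1 : δ ≤ 1) : ∃ γ : ℝ, 0 < γ ∧ γ ≤ 1 ∧ ∃ C : ℝ, 1 ≤ C ∧
    ∀ (k : Type) [Field k] [Fintype k] [DecidableEq k] (S : Setup k)
      (Φ : k → kˣ → ℂ) (_ : ∀ c ∈ S.Z, ∀ t D, Φ (c * t) (c ^ 2 * D) = Φ t D),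
      RDec (kerPhi S Φ) (C * (S.B * (Fintype.card k : ℝ) ^ (-γ)))
        (C * (Fintype.card k : ℝ) ^ δ) := by
  obtain ⟨γ, h0, h1, C, hC, hT⟩ := torM_dec δ hδ hδ1
  refine ⟨γ, h0, h1, 2 * C + 4, by linarith, ?_⟩
  intro k _ _ _ S Φ hΦ
  obtain ⟨ψ, hψ⟩ := exists_char k
  obtain ⟨Q, hc, hQ⟩ := exists_nonsplit k
  have hq2 : (2 : ℝ) ≤ Fintype.card k := two_le_q
  have hq1 : (1 : ℝ) ≤ Fintype.card k := by linarith
  have hq0 : (0 : ℝ) < Fintype.card k := by linarith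
  have hB0 : 0 ≤ S.B := le_trans (by positivity) (B_lower S)
  have hcs : ∀ t m : k, (splitQ k).cnt t m ≤ 2 := fun t m => by
    have := hc t m
    omega
  have hcq : ∀ t m : k, Q.cnt t m ≤ 2 := fun t m => by
    have := hc t m
    omega
  have hdec := (RDec.smul (lowM_dec S ψ Φ) (((Fintype.card k : ℂ) ^ 2)⁻¹)).add
    ((RDec.smul (hT k S (splitQ k) hcs ψ Φ hΦ) ((2 * (Fintype.card k : ℂ) ^ 2)⁻¹)).add
      (RDec.smul (hT k S Q hcq ψ Φ hΦ) (-(2 * (Fintype.card k : ℂ) ^ 2)⁻¹)))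
  rw [← kerPhi_eq S Q hc hQ ψ hψ Φ] at hdec
  refine hdec.mono ?_ ?_
  · have e1 : 2 * (Fintype.card k : ℝ) ^ 2 * S.T.card ≤
        4 * (S.B * (Fintype.card k : ℝ) ^ (-γ)) := by
      have e2 : (Fintype.card k : ℝ) ^ (-1 : ℝ) ≤ (Fintype.card k : ℝ) ^ (-γ) :=
        Real.rpow_le_rpow_of_exponent_le hq1 (neg_le_neg h1)
      have e3 : S.B * (Fintype.card k : ℝ) ^ (-1 : ℝ) = (Fintype.card k : ℝ) ^ 2 * S.m := by
        rw [Real.rpow_neg_one, Setup.B]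
        field_simp
      have e4 := card_T_le S
      have e5 : (Fintype.card k : ℝ) ^ 2 * S.m ≤ S.B * (Fintype.card k : ℝ) ^ (-γ) := by
        rw [← e3]
        exact mul_le_mul_of_nonneg_left e2 hB0
      have e6 : 2 * (Fintype.card k : ℝ) ^ 2 * S.T.card ≤
          2 * (Fintype.card k : ℝ) ^ 2 * (2 * S.m) :=
        mul_le_mul_of_nonneg_left e4 (by positivity)
      linarith
    linarith
  · have hδq : 0 ≤ (Fintype.card k : ℝ) ^ δ := Real.rpow_nonneg hq0.le _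
    linarith

end MP0775d3.Sl2
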