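import Pool.Agent.Lib.MP_0775d3_lc.Sl2.Core

/-! The contribution of one quadratic algebra: a product of a restricted Fourier matrix, a torus
group matrix, and a restricted Fourier matrix. Definitions. -/

set_option linter.unusedSectionVars false

namespace MP0775d3.Sl2

open Matrix

variable {k : Type} [Field k] [Fintype k] [DecidableEq k]

/-- The matrix `∑_{ξ, ζ ≠ 0} ψ(-ξ U - ζ V) dbl`. -/
noncomputable def torM (S : Setup k) (Q : QData k) (ψ : AddChar k ℂ) (Φ : k → kˣ → ℂ) :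
    Matrix (Cell S) (Cell S) ℂ :=
  Matrix.of fun x y => ∑ ξ : kˣ, ∑ ζ : kˣ,
    ψ (-(ξ * (x.1 - y.1) + ζ * (x.2.1 - y.2.1))) *
      Q.dbl ψ (fun z => Φ (z / (y.2.2.2.1 : k)) (x.2.2.2.1 / y.2.2.2.1)) (ξ * ζ)
        x.2.2.2.1 y.2.2.2.1 x.2.2.1 y.2.2.1

/-- The index set of the inner matrices: `(ξ, D, τ)`; the third parameter is
`ζ = N(τ) / (ξ D)`. -/
abbrev Inner (S : Setup k) (Q : QData k) : Type := kˣ × {d : kˣ // d ∈ S.T} × Q.Eˣ

/-- The unit `N(τ)`. -/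
def nmU (Q : QData k) (τ : Q.Eˣ) : kˣ := Units.map Q.nm τ

/-- The left factor. -/
noncomputable def torA (S : Setup k) (Q : QData k) (ψ : AddChar k ℂ) :
    Matrix (Cell S) (Inner S Q) ℂ :=
  Matrix.of fun x z =>
    if x.2.2.2 = z.2.1 then
      ψ (-(z.1 * x.1 + (nmU Q z.2.2 / (z.1 * z.2.1.1) : kˣ) * x.2.1) + x.2.2.1 * Q.tr (z.2.2 : Q.E))
    else 0

/-- The right factor. -/
noncomputable def torB (S : Setup k) (Q : QData k) (ψ : AddChar k ℂ) :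
    Matrix (Inner S Q) (Cell S) ℂ :=
  Matrix.of fun z y =>
    if y.2.2.2 = z.2.1 then
      ψ ((z.1 * y.1 + (nmU Q z.2.2 / (z.1 * z.2.1.1) : kˣ) * y.2.1) - y.2.2.1 * Q.tr (z.2.2 : Q.E))
    else 0

/-- The middle factor, a pulled back group matrix of `kˣ × H × Q.Eˣ`. -/
noncomputable def torC (S : Setup k) (Q : QData k) (Φ : k → kˣ → ℂ) :
    Matrix (Inner S Q) (Inner S Q) ℂ :=
  Matrix.of fun z w =>
    if z.1 = w.1 ∧ nmU Q (z.2.2 / w.2.2) = z.2.1.1 / w.2.1.1 then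
      Φ (Q.tr ((z.2.2 / w.2.2 : Q.Eˣ) : Q.E)) (z.2.1.1 / w.2.1.1)
    else 0

end MP0775d3.Sl2
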