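import Pool.Agent.Lib.MP_0775d3_lc.Sl2.Inversion
import Pool.Agent.Lib.MP_0775d3_lc.Sl2.LowM
import Pool.Agent.Lib.MP_0775d3_lc.Sl2.TorDefs

/-! The kernel of a function of trace and determinant in terms of the two algebras. -/

set_option linter.unusedSectionVars false

namespace MP0775d3.Sl2

open Matrix

variable {k : Type} [Field k] [Fintype k] [DecidableEq k]

private theorem sum_units_eq (G : k → ℂ) (h0 : G 0 = 0) : ∑ c : kˣ, G c = ∑ c : k, G c := by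
  have h1 : ∑ c : kˣ, G c = ∑ c ∈ Finset.univ.image (fun c : kˣ => (c : k)), G c := by
    rw [Finset.sum_image]
    intro a _ b _ hab
    exact Units.ext hab
  rw [h1]
  apply Finset.sum_subset (Finset.subset_univ _)
  intro c _ hc
  have : c = 0 := by
    by_contra h
    exact hc (Finset.mem_image.2 ⟨Units.mk0 c h, Finset.mem_univ _, rfl⟩)
  rw [this, h0]

private theorem split_sum (G : k → k → ℂ) :
    ∑ ξ : k, ∑ ζ : k, G ξ ζ =
      (∑ ξ : k, ∑ ζ : k, if ξ * ζ = 0 then G ξ ζ else 0) + ∑ ξ : kˣ, ∑ ζ : kˣ, G ξ ζ := by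
  have h1 : ∑ ξ : kˣ, ∑ ζ : kˣ, G ξ ζ = ∑ ξ : k, ∑ ζ : k, if ξ * ζ = 0 then 0 else G ξ ζ := by
    have h2 : ∀ ξ : kˣ, ∑ ζ : kˣ, G ξ ζ = ∑ ζ : k, if (ξ : k) * ζ = 0 then 0 else G ξ ζ := by
      intro ξ
      rw [← sum_units_eq (fun ζ : k => if (ξ : k) * ζ = 0 then 0 else G ξ ζ) (by simp)]
      refine Finset.sum_congr rfl fun ζ _ => ?_
      rw [if_neg (mul_ne_zero ξ.ne_zero ζ.ne_zero)]
    rw [← sum_units_eq (fun ξ : k => ∑ ζ : k, if ξ * ζ = 0 then 0 else G ξ ζ) (by simp)]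
    exact Finset.sum_congr rfl fun ξ _ => h2 ξ
  rw [h1, ← Finset.sum_add_distrib]
  refine Finset.sum_congr rfl fun ξ _ => ?_
  rw [← Finset.sum_add_distrib]
  refine Finset.sum_congr rfl fun ζ _ => ?_
  by_cases h : ξ * ζ = 0
  · rw [if_pos h, if_pos h, add_zero]
  · rw [if_neg h, if_neg h, zero_add]

theorem kerPhi_eq (S : Setup k) (Q : QData k) (hc : ∀ t m : k, (splitQ k).cnt t m + Q.cnt t m = 2)
    (hQ : ∀ w : Q.E, Q.nm w = 0 → w = 0) (ψ : AddChar k ℂ) (hψ : ψ ≠ 1) (Φ : k → kˣ → ℂ) :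
    kerPhi S Φ = ((Fintype.card k : ℂ) ^ 2)⁻¹ • lowM S ψ Φ +
      ((2 * (Fintype.card k : ℂ) ^ 2)⁻¹ • torM S (splitQ k) ψ Φ +
        (-(2 * (Fintype.card k : ℂ) ^ 2)⁻¹) • torM S Q ψ Φ) := by
  ext x y
  obtain ⟨u, v, a, D, hD⟩ := x
  obtain ⟨u', v', b, D', hD'⟩ := y
  have hq : (Fintype.card k : ℂ) ≠ 0 := by exact_mod_cast Fintype.card_ne_zero
  set F : k → ℂ := fun z => Φ (z / (D' : k)) (D / D') with hF
  set g : k → k → ℂ := fun p r =>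
    F (((D : k) * (a : k) ^ 2 + (D' : k) * (b : k) ^ 2 - p * r) / ((a : k) * (b : k))) with hg
  have hinv := inversion ψ hψ g (u - u') (v - v')
  rw [split_sum] at hinv
  -- the terms with nonzero frequencies
  have hmain : ∑ ξ : kˣ, ∑ ζ : kˣ, ψ (-((ξ : k) * (u - u') + (ζ : k) * (v - v'))) *
      ∑ p : k, ∑ r : k, g p r * ψ ((ξ : k) * p + (ζ : k) * r) =
      2⁻¹ * (∑ ξ : kˣ, ∑ ζ : kˣ, ψ (-((ξ : k) * (u - u') + (ζ : k) * (v - v'))) *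
        (splitQ k).dbl ψ F (ξ * ζ) D D' a b) -
      2⁻¹ * (∑ ξ : kˣ, ∑ ζ : kˣ, ψ (-((ξ : k) * (u - u') + (ζ : k) * (v - v'))) *
        Q.dbl ψ F (ξ * ζ) D D' a b) := by
    rw [Finset.mul_sum, Finset.mul_sum, ← Finset.sum_sub_distrib]
    refine Finset.sum_congr rfl fun ξ _ => ?_
    rw [Finset.mul_sum, Finset.mul_sum, ← Finset.sum_sub_distrib]
    refine Finset.sum_congr rfl fun ζ _ => ?_
    have hcore := core Q hc hQ ψ hψ F ξ ζ D D' a b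
    linear_combination (2⁻¹ * ψ (-((ξ : k) * (u - u') + (ζ : k) * (v - v')))) * hcore
  rw [hmain] at hinv
  have hker : kerPhi S Φ (u, v, a, ⟨D, hD⟩) (u', v', b, ⟨D', hD'⟩) = g (u - u') (v - v') := by
    simp only [kerPhi, Matrix.of_apply, hg, hF]
    congr 1
    rw [div_div]
  have hlow : lowM S ψ Φ (u, v, a, ⟨D, hD⟩) (u', v', b, ⟨D', hD'⟩) =
      ∑ ξ : k, ∑ ζ : k, if ξ * ζ = 0 then
        ψ (-(ξ * (u - u') + ζ * (v - v'))) *
          ∑ p : k, ∑ r : k, g p r * ψ (ξ * p + ζ * r) else 0 := rfl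
  have htor : ∀ R : QData k, torM S R ψ Φ (u, v, a, ⟨D, hD⟩) (u', v', b, ⟨D', hD'⟩) =
      ∑ ξ : kˣ, ∑ ζ : kˣ, ψ (-((ξ : k) * (u - u') + (ζ : k) * (v - v'))) *
        R.dbl ψ F (ξ * ζ) D D' a b := fun R => rfl
  simp only [Matrix.add_apply, Matrix.smul_apply, smul_eq_mul]
  rw [hker, hlow, htor, htor]
  generalize (∑ ξ : k, ∑ ζ : k, if ξ * ζ = 0 then
        ψ (-(ξ * (u - u') + ζ * (v - v'))) *
          ∑ p : k, ∑ r : k, g p r * ψ (ξ * p + ζ * r) else 0) = L at hinv ⊢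
  generalize (∑ ξ : kˣ, ∑ ζ : kˣ, ψ (-((ξ : k) * (u - u') + (ζ : k) * (v - v'))) *
        (splitQ k).dbl ψ F (ξ * ζ) D D' a b) = T1 at hinv ⊢
  generalize (∑ ξ : kˣ, ∑ ζ : kˣ, ψ (-((ξ : k) * (u - u') + (ζ : k) * (v - v'))) *
        Q.dbl ψ F (ξ * ζ) D D' a b) = T2 at hinv ⊢
  generalize g (u - u') (v - v') = W at hinv ⊢
  field_simp
  linear_combination 2 * hinv

end MP0775d3.Sl2
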