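import Pool.Agent.Lib.MP_0775d3_lc.Sl2.Defs

/-! The two quadratic étale algebras `k × k` and `𝔽_{q²}` over a finite field `k = 𝔽_q`. -/

set_option linter.unusedSectionVars false

namespace MP0775d3.Sl2

variable (k : Type) [Field k] [Fintype k] [DecidableEq k]

/-- The split algebra `k × k`, with trace `s + t` and norm `s t`. -/
def splitQ : QData k where
  E := k × k
  alg := (RingHom.id k).prod (RingHom.id k)
  tr := AddMonoidHom.fst k k + AddMonoidHom.snd k k
  nm := MonoidHom.fst k k * MonoidHom.snd k k
  card_E := by rw [Fintype.card_prod, sq]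
  tr_mul := by
    intro a x
    simp [mul_add]
  nm_lin := by
    intro a b x
    simp
    ring
  isUnit_of_nm := by
    intro x hx
    have h1 : x.1 * x.2 ≠ 0 := hx
    rw [Prod.isUnit_iff]
    exact ⟨isUnit_iff_ne_zero.2 (left_ne_zero_of_mul h1),
      isUnit_iff_ne_zero.2 (right_ne_zero_of_mul h1)⟩

theorem splitQ_kl (ψ : AddChar k ℂ) (m : k) :
    (splitQ k).kl ψ m = ∑ x ∈ Finset.univ.filter (fun x : k × k => x.1 * x.2 = m),
      ψ (x.1 + x.2) := by
  rfl

section nonsplit

variable (p : ℕ) [Fact p.Prime] [CharP k p]

private theorem quad_tr (x : FiniteField.Extension k p 2) :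
    algebraMap k _ (Algebra.trace k (FiniteField.Extension k p 2) x) =
      x + FiniteField.Extension.frob k p 2 x := by
  rw [FiniteField.algebraMap_trace_eq_sum_pow, FiniteField.finrank_extension,
    Finset.sum_range_succ, Finset.sum_range_one, FiniteField.Extension.frob_apply]
  simp

private theorem quad_nm (x : FiniteField.Extension k p 2) :
    algebraMap k _ (Algebra.norm k x) = x * FiniteField.Extension.frob k p 2 x := by
  rw [FiniteField.algebraMap_norm_eq_prod_pow, FiniteField.finrank_extension,
    Finset.prod_range_succ, Finset.prod_range_one, FiniteField.Extension.frob_apply]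
  simp

private theorem quad_inj : Function.Injective (algebraMap k (FiniteField.Extension k p 2)) :=
  (algebraMap k (FiniteField.Extension k p 2)).injective

/-- The data of the field with `q²` elements. -/
private noncomputable def quadField : QData k where
  E := FiniteField.Extension k p 2
  ring := inferInstance
  fin := Fintype.ofFinite _
  dec := Classical.decEq _
  alg := algebraMap k _
  tr := (Algebra.trace k (FiniteField.Extension k p 2)).toAddMonoidHom
  nm := Algebra.norm k
  card_E := by
    let _ := Fintype.ofFinite (FiniteField.Extension k p 2)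
    rw [Fintype.card_eq_nat_card, FiniteField.natCard_extension, Fintype.card_eq_nat_card]
  tr_mul := by
    intro a x
    rw [← Algebra.smul_def]
    exact (Algebra.trace k (FiniteField.Extension k p 2)).map_smul a x
  nm_lin := by
    intro a b x
    apply quad_inj k p
    rw [quad_nm]
    simp only [map_sub, map_mul, AlgEquiv.commutes, map_add, map_pow]
    have h1 := quad_nm k p x
    have h2 := quad_tr k p x
    have h3 : algebraMap k (FiniteField.Extension k p 2)
        ((Algebra.trace k (FiniteField.Extension k p 2)).toAddMonoidHom x) =
        x + FiniteField.Extension.frob k p 2 x := h2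
    rw [h1, h3]
    ring
  isUnit_of_nm := by
    intro x hx
    rw [isUnit_iff_ne_zero]
    rintro rfl
    apply hx
    exact Algebra.norm_zero

private theorem quad_frob (a : k) :
    FiniteField.Extension.frob k p 2 (algebraMap k _ a) = algebraMap k _ a :=
  AlgEquiv.commutes _ a

private theorem quad_mem {t m : k} {x : FiniteField.Extension k p 2} :
    ((quadField k p).tr x = t ∧ (quadField k p).nm x = m) ↔
      (x + FiniteField.Extension.frob k p 2 x = algebraMap k _ t ∧
        x * FiniteField.Extension.frob k p 2 x = algebraMap k _ m) := by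
  have h1 := quad_tr k p x
  have h2 := quad_nm k p x
  rw [← h1, ← h2]
  constructor
  · rintro ⟨h3, h4⟩
    exact ⟨congrArg _ h3, congrArg _ h4⟩
  · rintro ⟨h3, h4⟩
    exact ⟨quad_inj k p h3, quad_inj k p h4⟩

private theorem quad_le_aux (t m : k) (A : Finset (k × k))
    (B : Finset (FiniteField.Extension k p 2))
    (memA : ∀ x : k × k, x ∈ A ↔ x.1 + x.2 = t ∧ x.1 * x.2 = m)
    (memB : ∀ x : FiniteField.Extension k p 2, x ∈ B ↔
      (x + FiniteField.Extension.frob k p 2 x = algebraMap k _ t ∧
        x * FiniteField.Extension.frob k p 2 x = algebraMap k _ m)) :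
    A.card + B.card ≤ 2 := by
  classical
  have hinj := quad_inj k p
  rcases A.eq_empty_or_nonempty with hAe | ⟨⟨s, u⟩, hsu⟩
  · rw [hAe, Finset.card_empty, zero_add]
    rcases B.eq_empty_or_nonempty with hBe | ⟨x, hx⟩
    · rw [hBe, Finset.card_empty]
      omega
    · have hsub : B ⊆ ({x, FiniteField.Extension.frob k p 2 x} :
          Finset (FiniteField.Extension k p 2)) := by
        intro y hy
        obtain ⟨h1, h2⟩ := (memB x).1 hx
        obtain ⟨h3, h4⟩ := (memB y).1 hy
        have h5 : (y - x) * (y - FiniteField.Extension.frob k p 2 x) = 0 := by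
          linear_combination (-y) * (h1 - h3) + (h2 - h4)
        rcases mul_eq_zero.1 h5 with h6 | h6
        · rw [Finset.mem_insert]
          left
          exact sub_eq_zero.1 h6
        · rw [Finset.mem_insert, Finset.mem_singleton]
          right
          exact sub_eq_zero.1 h6
      exact (Finset.card_le_card hsub).trans Finset.card_le_two
  · obtain ⟨h1, h2⟩ := (memA _).1 hsu
    have hAs : A ⊆ ({(s, u), (u, s)} : Finset (k × k)) := by
      rintro ⟨a, b⟩ hab
      obtain ⟨h3, h4⟩ := (memA _).1 hab
      simp only at h1 h2 h3 h4
      have h5 : (a - s) * (a - u) = 0 := by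
        linear_combination (-a) * (h1 - h3) + (h2 - h4)
      rcases mul_eq_zero.1 h5 with h6 | h6
      · have h7 : a = s := sub_eq_zero.1 h6
        have h8 : b = u := by
          subst h7
          exact add_left_cancel (h3.trans h1.symm)
        rw [h7, h8]
        exact Finset.mem_insert_self _ _
      · have h7 : a = u := sub_eq_zero.1 h6
        have h8 : b = s := by
          subst h7
          rw [add_comm] at h1
          exact add_left_cancel (h3.trans h1.symm)
        rw [h7, h8]
        exact Finset.mem_insert_of_mem (Finset.mem_singleton_self _)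
    have hBs : ∀ x ∈ B, s = u ∧ x = algebraMap k _ s := by
      intro x hx
      obtain ⟨h3, h4⟩ := (memB x).1 hx
      simp only at h1 h2
      have h5 : (x - algebraMap k _ s) * (x - algebraMap k _ u) = 0 := by
        have e1 : algebraMap k (FiniteField.Extension k p 2) s + algebraMap k _ u =
            algebraMap k _ t := by rw [← map_add, h1]
        have e2 : algebraMap k (FiniteField.Extension k p 2) s * algebraMap k _ u =
            algebraMap k _ m := by rw [← map_mul, h2]
        linear_combination (-x) * (e1 - h3) + (e2 - h4)
      rcases mul_eq_zero.1 h5 with h6 | h6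
      · have h7 : x = algebraMap k _ s := sub_eq_zero.1 h6
        rw [h7, quad_frob] at h3
        have h8 : s + s = t := by
          apply hinj
          rw [map_add]
          exact h3
        have h9 : s = u := add_left_cancel (h8.trans h1.symm)
        exact ⟨h9, h7⟩
      · have h7 : x = algebraMap k _ u := sub_eq_zero.1 h6
        rw [h7, quad_frob] at h3
        have h8 : u + u = t := by
          apply hinj
          rw [map_add]
          exact h3
        have h9 : s = u := add_right_cancel (h1.trans h8.symm)
        exact ⟨h9, by rw [h9]; exact h7⟩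
    by_cases hsu' : s = u
    · have hA1 : A.card ≤ 1 := by
        refine (Finset.card_le_card hAs).trans ?_
        rw [hsu']
        simp
      have hB1 : B.card ≤ 1 := by
        rw [Finset.card_le_one]
        intro x hx y hy
        rw [(hBs x hx).2, (hBs y hy).2]
      omega
    · have hBe : B = ∅ := by
        rw [Finset.eq_empty_iff_forall_notMem]
        intro x hx
        exact hsu' (hBs x hx).1
      rw [hBe, Finset.card_empty, add_zero]
      exact (Finset.card_le_card hAs).trans Finset.card_le_two

private theorem mem_cnt (Q : QData k) (t m : k) (x : Q.E) :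
    x ∈ (Finset.univ.filter fun x : Q.E => Q.tr x = t ∧ Q.nm x = m) ↔
      (Q.tr x = t ∧ Q.nm x = m) := by
  rw [Finset.mem_filter]
  exact ⟨fun h => h.2, fun h => ⟨Finset.mem_univ _, h⟩⟩

private theorem quad_le (t m : k) : (splitQ k).cnt t m + (quadField k p).cnt t m ≤ 2 := by
  unfold QData.cnt
  refine quad_le_aux k p t m _ _ (fun x => ?_) (fun x => ?_)
  · exact mem_cnt k (splitQ k) t m x
  · exact (mem_cnt k (quadField k p) t m x).trans (quad_mem k p)

private theorem cnt_sum (Q : QData k) :
    ∑ z : k × k, Q.cnt z.1 z.2 = Fintype.card k ^ 2 := by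
  rw [← Q.card_E, ← Finset.card_univ]
  rw [Finset.card_eq_sum_card_fiberwise (f := fun x : Q.E => (Q.tr x, Q.nm x))
    (t := Finset.univ) (fun x _ => Finset.mem_univ _)]
  apply Finset.sum_congr rfl
  rintro ⟨a, b⟩ -
  unfold QData.cnt
  congr 1
  ext x
  simp only [Finset.mem_filter, Finset.mem_univ, true_and, Prod.mk.injEq]

end nonsplit

/-- The field with `q²` elements, with its trace and norm. The number of elements of trace `t` and
norm `m` in the two algebras is the number of roots of `X² - t X + m` in `k` plus the number of
its roots `x` in the field with `x + x^q = t`, `x * x^q = m`, which is 2 in all cases (two distinct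
roots in `k`; a double root, counted once on each side; no root in `k`). -/
theorem exists_nonsplit : ∃ Q : QData k, (∀ t m : k, (splitQ k).cnt t m + Q.cnt t m = 2) ∧
    ∀ w : Q.E, Q.nm w = 0 → w = 0 := by
  obtain ⟨p, hp⟩ := CharP.exists k
  have : Fact p.Prime := ⟨CharP.char_is_prime k p⟩
  refine ⟨quadField k p, ?_, ?_⟩
  · have h1 := cnt_sum k (splitQ k)
    have h2 := cnt_sum k (quadField k p)
    have h3 : ∑ z : k × k, ((splitQ k).cnt z.1 z.2 + (quadField k p).cnt z.1 z.2) =
        ∑ _z : k × k, 2 := by
      rw [Finset.sum_add_distrib, h1, h2, Finset.sum_const, Finset.card_univ, Fintype.card_prod,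
        smul_eq_mul]
      ring
    have h4 := (Finset.sum_eq_sum_iff_of_le (fun z _ => quad_le k p z.1 z.2)).1 h3
    intro t m
    exact h4 (t, m) (Finset.mem_univ _)
  · intro w hw
    exact (Algebra.norm_eq_zero_iff (R := k) (S := FiniteField.Extension k p 2)).1 hw

end MP0775d3.Sl2
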