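import Pool.Agent.Lib.MP_0775d3_lc.Sl2.Defs

/-! Binary quadratic forms over finite fields. -/

set_option linter.unusedSectionVars false

namespace MP0775d3.Sl2

open Matrix

variable {k : Type} [Field k] [Fintype k] [DecidableEq k]

/-- A binary quadratic form `x² + t x y + D y²` of nonzero discriminant over a finite field
represents every nonzero element; in characteristic two this needs no condition. -/
theorem represents (t D c : k) (h : t ^ 2 - 4 * D ≠ 0 ∨ ringChar k = 2) :
    ∃ x y : k, x ^ 2 + t * x * y + D * y ^ 2 = c := by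
  by_cases h2 : ringChar k = 2
  · obtain ⟨x, hx⟩ := FiniteField.isSquare_of_char_two h2 c
    exact ⟨x, 0, by rw [hx]; ring⟩
  · have hd : t ^ 2 - 4 * D ≠ 0 := h.resolve_right h2
    have h2k : (2 : k) ≠ 0 := Ring.two_ne_zero h2
    have hodd : Fintype.card k % 2 = 1 := FiniteField.odd_card_of_char_ne_two h2
    -- `u² - (t² - 4 D) y² = 4 c`
    have hf : (Polynomial.C (1 : k) * Polynomial.X ^ 2 + Polynomial.C 0 * Polynomial.X +
        Polynomial.C (-(4 * c))).degree = 2 := Polynomial.degree_quadratic one_ne_zero
    have hg : (Polynomial.C (-(t ^ 2 - 4 * D)) * Polynomial.X ^ 2 + Polynomial.C 0 * Polynomial.X +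
        Polynomial.C 0).degree = 2 := Polynomial.degree_quadratic (neg_ne_zero.mpr hd)
    obtain ⟨u, y, huy⟩ := FiniteField.exists_root_sum_quadratic hf hg hodd
    simp only [Polynomial.eval_add, Polynomial.eval_mul, Polynomial.eval_C, Polynomial.eval_pow,
      Polynomial.eval_X] at huy
    refine ⟨(u - t * y) / 2, y, ?_⟩
    have h4 : (4 : k) ≠ 0 := by
      have : (4 : k) = 2 * 2 := by norm_num
      rw [this]
      exact mul_ne_zero h2k h2k
    have e : 4 * (((u - t * y) / 2) ^ 2 + t * ((u - t * y) / 2) * y + D * y ^ 2) = 4 * c := by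
      field_simp
      linear_combination huy
    exact mul_left_cancel₀ h4 e

end MP0775d3.Sl2
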