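import Pool.Agent.Lib.MP_0775d3_lc.Sl2.Quad

/-! Kloosterman sums of the two quadratic algebras. -/

set_option linter.unusedSectionVars false

namespace MP0775d3.Sl2

variable {k : Type} [Field k] [Fintype k] [DecidableEq k]

private theorem kl_eq_sum (Q : QData k) (ψ : AddChar k ℂ) (m : k) :
    Q.kl ψ m = ∑ t : k, (Q.cnt t m : ℂ) * ψ t := by
  unfold QData.kl
  rw [← Finset.sum_fiberwise (Finset.univ.filter fun x : Q.E => Q.nm x = m) (fun x => Q.tr x)
    (fun x => ψ (Q.tr x))]
  apply Finset.sum_congr rfl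
  intro t _
  have h1 : ∀ x ∈ (Finset.univ.filter fun x : Q.E => Q.nm x = m).filter (fun x => Q.tr x = t),
      ψ (Q.tr x) = ψ t := by
    intro x hx
    rw [Finset.mem_filter] at hx
    rw [hx.2]
  rw [Finset.sum_congr rfl h1, Finset.sum_const, nsmul_eq_mul]
  congr 2
  unfold QData.cnt
  rw [Finset.filter_filter]
  congr 1
  ext x
  simp only [Finset.mem_filter, Finset.mem_univ, true_and]
  exact and_comm

private theorem sum_char (ψ : AddChar k ℂ) (hψ : ψ ≠ 1) : ∑ t : k, ψ t = 0 :=
  AddChar.sum_eq_zero_of_ne_one hψ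

/-- The two Kloosterman sums are opposite for all arguments. -/
theorem kl_add (Q₁ Q₂ : QData k) (hc : ∀ t m : k, Q₁.cnt t m + Q₂.cnt t m = 2)
    (ψ : AddChar k ℂ) (hψ : ψ ≠ 1) (m : k) : Q₁.kl ψ m + Q₂.kl ψ m = 0 := by
  rw [kl_eq_sum, kl_eq_sum, ← Finset.sum_add_distrib]
  have h1 : ∀ t ∈ (Finset.univ : Finset k), (Q₁.cnt t m : ℂ) * ψ t + (Q₂.cnt t m : ℂ) * ψ t =
      2 * ψ t := by
    intro t _
    rw [← add_mul, ← Nat.cast_add, hc]
    norm_num
  rw [Finset.sum_congr rfl h1, ← Finset.mul_sum, sum_char ψ hψ, mul_zero]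

/-- A sum over the hyperbola `s t = c` is a sum over `s ≠ 0`. -/
private theorem sum_hyp (c : k) (hc : c ≠ 0) (f : k × k → ℂ) :
    ∑ x ∈ Finset.univ.filter (fun x : k × k => x.1 * x.2 = c), f x =
      ∑ s ∈ Finset.univ.filter (fun s : k => s ≠ 0), f (s, c / s) := by
  symm
  apply Finset.sum_bij (fun s _ => ((s, c / s) : k × k))
  · intro s hs
    rw [Finset.mem_filter] at hs ⊢
    exact ⟨Finset.mem_univ _, mul_div_cancel₀ c hs.2⟩
  · intro s _ t _ h
    exact congrArg Prod.fst h
  · rintro ⟨s, t⟩ h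
    rw [Finset.mem_filter] at h
    have h2 : s * t = c := h.2
    have hs : s ≠ 0 := by
      rintro rfl
      rw [zero_mul] at h2
      exact hc h2.symm
    refine ⟨s, ?_, ?_⟩
    · rw [Finset.mem_filter]
      exact ⟨Finset.mem_univ _, hs⟩
    · rw [← h2]
      exact Prod.ext rfl (mul_div_cancel_left₀ t hs)
  · intro s _
    rfl

private theorem sum_ne_zero_char (ψ : AddChar k ℂ) (hψ : ψ ≠ 1) :
    ∑ s ∈ Finset.univ.filter (fun s : k => s ≠ 0), ψ s = -1 := by
  have h1 := sum_char ψ hψ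
  rw [← Finset.sum_filter_add_sum_filter_not Finset.univ (fun s : k => s ≠ 0) (fun s => ψ s)] at h1
  have h2 : (Finset.univ.filter fun s : k => ¬ s ≠ 0) = {0} := by
    ext s
    simp
  rw [h2, Finset.sum_singleton, AddChar.map_zero_eq_one] at h1
  exact eq_neg_of_add_eq_zero_left h1

private theorem sum_ne_zero_mul (ψ : AddChar k ℂ) (hψ : ψ ≠ 1) (w : k) (hw : w ≠ 0) :
    ∑ s ∈ Finset.univ.filter (fun s : k => s ≠ 0), ψ (s * w) = -1 := by
  rw [← sum_ne_zero_char ψ hψ]
  apply Finset.sum_bij (fun s _ => s * w)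
  · intro s hs
    rw [Finset.mem_filter] at hs ⊢
    exact ⟨Finset.mem_univ _, mul_ne_zero hs.2 hw⟩
  · intro s _ t _ h
    exact mul_right_cancel₀ hw h
  · intro s hs
    rw [Finset.mem_filter] at hs
    refine ⟨s / w, ?_, div_mul_cancel₀ s hw⟩
    rw [Finset.mem_filter]
    exact ⟨Finset.mem_univ _, div_ne_zero hs.2 hw⟩
  · intro s _
    rfl

private theorem splitQ_kl_zero (ψ : AddChar k ℂ) (hψ : ψ ≠ 1) : (splitQ k).kl ψ 0 = -1 := by
  rw [splitQ_kl]
  have h1 : (Finset.univ.filter fun x : k × k => x.1 * x.2 = 0) =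
      (Finset.univ.filter fun s : k => s ≠ 0).image (fun s => ((s, 0) : k × k)) ∪
        Finset.univ.image (fun t : k => ((0, t) : k × k)) := by
    ext ⟨s, t⟩
    simp only [Finset.mem_filter, Finset.mem_univ, true_and, Finset.mem_union, Finset.mem_image,
      Prod.mk.injEq, mul_eq_zero]
    constructor
    · rintro (h | h)
      · exact Or.inr ⟨t, h.symm, rfl⟩
      · by_cases hs : s = 0
        · exact Or.inr ⟨t, hs.symm, rfl⟩
        · exact Or.inl ⟨s, hs, rfl, h.symm⟩
    · rintro (⟨a, _, _, h⟩ | ⟨a, h, _⟩)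
      · exact Or.inr h.symm
      · exact Or.inl h.symm
  have h2 : Disjoint ((Finset.univ.filter fun s : k => s ≠ 0).image (fun s => ((s, 0) : k × k)))
      (Finset.univ.image (fun t : k => ((0, t) : k × k))) := by
    rw [Finset.disjoint_left]
    rintro ⟨s, t⟩ h3 h4
    rw [Finset.mem_image] at h3 h4
    obtain ⟨a, ha, h5⟩ := h3
    obtain ⟨b, _, h6⟩ := h4
    rw [Finset.mem_filter] at ha
    have h7 : a = s := congrArg Prod.fst h5
    have h8 : (0 : k) = s := congrArg Prod.fst h6
    exact ha.2 (h7.trans h8.symm)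
  rw [h1, Finset.sum_union h2, Finset.sum_image, Finset.sum_image]
  · simp only [add_zero, zero_add]
    rw [sum_char ψ hψ, sum_ne_zero_char ψ hψ, add_zero]
  · intro a _ b _ h
    exact congrArg Prod.snd h
  · intro a _ b _ h
    exact congrArg Prod.fst h

private theorem card_ne_zero : ((Finset.univ.filter fun s : k => s ≠ 0).card : ℂ) =
    (Fintype.card k : ℂ) - 1 := by
  have h1 : (Finset.univ.filter fun s : k => s ≠ 0) = Finset.univ.erase 0 := by
    ext s
    simp
  rw [h1, Finset.card_erase_of_mem (Finset.mem_univ _), Finset.card_univ,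
    Nat.cast_sub Fintype.card_pos, Nat.cast_one]

private theorem splitQ_shift_aux (ψ : AddChar k ℂ) (hψ : ψ ≠ 1) (c : k) (hc : c ≠ 0)
    (w₁ w₂ : k) :
    ∑ x ∈ Finset.univ.filter (fun x : k × k => x.1 * x.2 = c), ψ (x.1 * w₁ + x.2 * w₂) =
      (splitQ k).kl ψ (c * (w₁ * w₂)) +
        (if w₁ = 0 ∧ w₂ = 0 then (Fintype.card k : ℂ) else 0) := by
  by_cases h1 : w₁ = 0
  · by_cases h2 : w₂ = 0
    · subst h1 h2
      simp only [mul_zero, add_zero, AddChar.map_zero_eq_one, and_self, if_true]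
      rw [splitQ_kl_zero ψ hψ, sum_hyp c hc, Finset.sum_const, nsmul_eq_mul, mul_one,
        card_ne_zero]
      ring
    · subst h1
      have h3 : ¬ ((0 : k) = 0 ∧ w₂ = 0) := fun h => h2 h.2
      rw [if_neg h3, zero_mul, mul_zero, splitQ_kl_zero ψ hψ, add_zero]
      simp only [mul_zero, zero_add]
      rw [← sum_ne_zero_mul ψ hψ w₂ h2]
      apply Finset.sum_bij (fun (x : k × k) _ => x.2)
      · intro x hx
        rw [Finset.mem_filter] at hx ⊢
        refine ⟨Finset.mem_univ _, ?_⟩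
        intro h4
        apply hc
        rw [← hx.2, h4, mul_zero]
      · rintro ⟨s, t⟩ hx ⟨s', t'⟩ hx' h
        rw [Finset.mem_filter] at hx hx'
        have e1 : s * t = c := hx.2
        have e2 : s' * t' = c := hx'.2
        have e3 : t = t' := h
        have ht : t' ≠ 0 := by
          rintro rfl
          rw [mul_zero] at e2
          exact hc e2.symm
        subst e3
        have e4 : s = s' := mul_right_cancel₀ ht (e1.trans e2.symm)
        rw [e4]
      · intro t ht
        rw [Finset.mem_filter] at ht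
        refine ⟨(c / t, t), ?_, rfl⟩
        rw [Finset.mem_filter]
        exact ⟨Finset.mem_univ _, div_mul_cancel₀ c ht.2⟩
      · intro x _
        rfl
  · by_cases h2 : w₂ = 0
    · subst h2
      have h3 : ¬ (w₁ = 0 ∧ (0 : k) = 0) := fun h => h1 h.1
      rw [if_neg h3, mul_zero, mul_zero, splitQ_kl_zero ψ hψ, add_zero]
      simp only [mul_zero, add_zero]
      rw [sum_hyp c hc]
      exact sum_ne_zero_mul ψ hψ w₁ h1
    · have h3 : ¬ (w₁ = 0 ∧ w₂ = 0) := fun h => h1 h.1
      rw [if_neg h3, add_zero, splitQ_kl]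
      apply Finset.sum_bij (fun (x : k × k) _ => ((x.1 * w₁, x.2 * w₂) : k × k))
      · intro x hx
        rw [Finset.mem_filter] at hx ⊢
        refine ⟨Finset.mem_univ _, ?_⟩
        rw [← hx.2]
        ring
      · rintro ⟨s, t⟩ _ ⟨s', t'⟩ _ h
        rw [Prod.mk.injEq] at h
        exact Prod.ext (mul_right_cancel₀ h1 h.1) (mul_right_cancel₀ h2 h.2)
      · rintro ⟨s, t⟩ hx
        rw [Finset.mem_filter] at hx
        have e1 : s * t = c * (w₁ * w₂) := hx.2
        refine ⟨(s / w₁, t / w₂), ?_, ?_⟩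
        · rw [Finset.mem_filter]
          refine ⟨Finset.mem_univ _, ?_⟩
          show s / w₁ * (t / w₂) = c
          field_simp
          rw [e1]
          ring
        · exact Prod.ext (div_mul_cancel₀ s h1) (div_mul_cancel₀ t h2)
      · intro x _
        rfl

theorem splitQ_shift (ψ : AddChar k ℂ) (hψ : ψ ≠ 1) : (splitQ k).Shift ψ := by
  intro c w hc
  obtain ⟨w₁, w₂⟩ := w
  have h1 := splitQ_shift_aux ψ hψ c hc w₁ w₂
  have h2 : (splitQ k).nm ((w₁, w₂) : k × k) = w₁ * w₂ := rfl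
  have h3 : (((w₁, w₂) : k × k) = 0) ↔ (w₁ = 0 ∧ w₂ = 0) := Prod.mk_eq_zero
  have h4 : (if ((w₁, w₂) : k × k) = 0 then (Fintype.card k : ℂ) else 0) =
      (if w₁ = 0 ∧ w₂ = 0 then (Fintype.card k : ℂ) else 0) := by
    by_cases h : w₁ = 0 ∧ w₂ = 0
    · rw [if_pos h, if_pos (h3.2 h)]
    · rw [if_neg h, if_neg (fun h' => h (h3.1 h'))]
  rw [h2]
  refine Eq.trans ?_ (h1.trans ?_)
  · rfl
  · exact congrArg₂ (· + ·) rfl h4.symm

private theorem nm_zero (Q : QData k) : Q.nm 0 = 0 := by
  have h := Q.nm_lin 0 0 0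
  simpa using h

private theorem card_norm (Q : QData k) (c : k) :
    ∑ t : k, Q.cnt t c = (Finset.univ.filter fun x : Q.E => Q.nm x = c).card := by
  rw [Finset.card_eq_sum_card_fiberwise (f := fun x : Q.E => Q.tr x) (t := Finset.univ)
    (fun x _ => Finset.mem_univ _)]
  apply Finset.sum_congr rfl
  intro t _
  unfold QData.cnt
  rw [Finset.filter_filter]
  congr 1
  ext x
  simp only [Finset.mem_filter, Finset.mem_univ, true_and]
  exact and_comm

private theorem card_hyp (c : k) (hc : c ≠ 0) :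
    ((Finset.univ.filter fun x : k × k => x.1 * x.2 = c).card : ℂ) =
      (Fintype.card k : ℂ) - 1 := by
  have h := sum_hyp c hc (fun _ => 1)
  rw [Finset.sum_const, Finset.sum_const, nsmul_eq_mul, nsmul_eq_mul, mul_one, mul_one] at h
  rw [h, card_ne_zero]

theorem nonsplit_shift (Q : QData k) (hc : ∀ t m : k, (splitQ k).cnt t m + Q.cnt t m = 2)
    (hQ : ∀ w : Q.E, Q.nm w = 0 → w = 0) (ψ : AddChar k ℂ) (hψ : ψ ≠ 1) : Q.Shift ψ := by
  intro c w hc0
  by_cases hw : w = 0
  · subst hw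
    rw [if_pos rfl, nm_zero, mul_zero]
    have h1 : Q.kl ψ 0 = 1 := by
      unfold QData.kl
      have h2 : (Finset.univ.filter fun x : Q.E => Q.nm x = 0) = {0} := by
        ext x
        simp only [Finset.mem_filter, Finset.mem_univ, true_and, Finset.mem_singleton]
        constructor
        · exact hQ x
        · rintro rfl
          exact nm_zero Q
      rw [h2, Finset.sum_singleton, map_zero, AddChar.map_zero_eq_one]
    rw [h1]
    simp only [mul_zero, map_zero, AddChar.map_zero_eq_one]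
    rw [Finset.sum_const, nsmul_eq_mul, mul_one, ← card_norm]
    have h3 : (∑ t : k, (splitQ k).cnt t c) + ∑ t : k, Q.cnt t c = 2 * Fintype.card k := by
      rw [← Finset.sum_add_distrib, Finset.sum_congr rfl (fun t _ => hc t c), Finset.sum_const,
        Finset.card_univ, smul_eq_mul, mul_comm]
    rw [card_norm] at h3
    have h4 := card_hyp c hc0
    have h5 : ((Finset.univ.filter fun x : (splitQ k).E => (splitQ k).nm x = c).card : ℂ) =
        (Fintype.card k : ℂ) - 1 := h4
    have h6 : ((Finset.univ.filter fun x : (splitQ k).E => (splitQ k).nm x = c).card : ℂ) +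
        ((∑ t : k, Q.cnt t c : ℕ) : ℂ) = 2 * (Fintype.card k : ℂ) := by
      exact_mod_cast h3
    rw [h5] at h6
    linear_combination h6
  · rw [if_neg hw, add_zero]
    have hnw : Q.nm w ≠ 0 := fun h => hw (hQ w h)
    obtain ⟨u, hu⟩ := Q.isUnit_of_nm w hnw
    unfold QData.kl
    apply Finset.sum_bij (fun x _ => x * w)
    · intro x hx
      rw [Finset.mem_filter] at hx ⊢
      refine ⟨Finset.mem_univ _, ?_⟩
      rw [map_mul, hx.2]
    · intro x _ y _ h
      rw [← hu] at h
      exact u.isUnit.mul_right_cancel h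
    · intro y hy
      rw [Finset.mem_filter] at hy
      refine ⟨y * (u⁻¹ : Q.Eˣ), ?_, ?_⟩
      · rw [Finset.mem_filter]
        refine ⟨Finset.mem_univ _, ?_⟩
        have h1 : Q.nm (y * (u⁻¹ : Q.Eˣ)) * Q.nm w = c * Q.nm w := by
          rw [← map_mul, ← hu, mul_assoc, Units.inv_mul, mul_one, hy.2, hu]
        exact mul_right_cancel₀ hnw h1
      · rw [← hu, mul_assoc, Units.inv_mul, mul_one]
    · intro x _
      rfl

end MP0775d3.Sl2
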