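import Pool.Agent.Lib.MP_0775d3_lc.Sl2.TorDefs

/-! The factorisation. -/

set_option linter.unusedSectionVars false

namespace MP0775d3.Sl2

open Matrix

variable {k : Type} [Field k] [Fintype k] [DecidableEq k]

private theorem toreq_sum_inner (S : Setup k) (Q : QData k) (d : {d : kˣ // d ∈ S.T})
    (g : Inner S Q → ℂ) :
    ∑ z : Inner S Q, (if d = z.2.1 then g z else 0) = ∑ ξ : kˣ, ∑ τ : Q.Eˣ, g (ξ, d, τ) := by
  rw [Fintype.sum_prod_type]
  refine Finset.sum_congr rfl fun ξ _ => ?_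
  rw [Fintype.sum_prod_type]
  rw [Finset.sum_eq_single d]
  · refine Finset.sum_congr rfl fun τ _ => ?_
    rw [if_pos rfl]
  · intro b _ hb
    refine Finset.sum_eq_zero fun τ _ => ?_
    rw [if_neg]
    intro h
    exact hb h.symm
  · intro h
    exact absurd (Finset.mem_univ _) h

private theorem toreq_cond (Q : QData k) (τ : Q.Eˣ) (ξ ζ D : kˣ) :
    Q.nm (τ : Q.E) = ((ξ * ζ : kˣ) : k) * D ↔ ζ = nmU Q τ / (ξ * D) := by
  rw [eq_div_iff_mul_eq']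
  constructor
  · intro h
    refine Units.ext ?_
    push_cast at h ⊢
    rw [show ((nmU Q τ : kˣ) : k) = Q.nm (τ : Q.E) from rfl, h]
    ring
  · intro h
    have h2 := congrArg Units.val h
    push_cast at h2 ⊢
    rw [show ((nmU Q τ : kˣ) : k) = Q.nm (τ : Q.E) from rfl] at h2
    rw [← h2]
    ring

theorem torM_eq (S : Setup k) (Q : QData k) (ψ : AddChar k ℂ) (Φ : k → kˣ → ℂ) :
    torM S Q ψ Φ = torA S Q ψ * torC S Q Φ * torB S Q ψ := by
  classical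
  ext x y
  set D : kˣ := x.2.2.2.1 with hD
  set D' : kˣ := y.2.2.2.1 with hD'
  have hD'0 : (D' : k) ≠ 0 := D'.ne_zero
  -- the common value
  have hL : torM S Q ψ Φ x y = ∑ ξ : kˣ, ∑ τ : Q.Eˣ, ∑ τ' : Q.Eˣ,
      if nmU Q τ / (ξ * D) = nmU Q τ' / (ξ * D') then
        ψ (-(ξ * (x.1 - y.1) + (nmU Q τ / (ξ * D) : kˣ) * (x.2.1 - y.2.1))) *
          (Φ (Q.tr ((τ * τ'⁻¹ : Q.Eˣ) : Q.E)) (D / D') *
            ψ (x.2.2.1 * Q.tr (τ : Q.E) - y.2.2.1 * Q.tr (τ' : Q.E))) else 0 := by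
    unfold torM
    rw [Matrix.of_apply]
    refine Finset.sum_congr rfl fun ξ _ => ?_
    unfold QData.dbl
    simp only [Finset.mul_sum]
    rw [Finset.sum_comm]
    refine Finset.sum_congr rfl fun τ _ => ?_
    rw [Finset.sum_comm]
    refine Finset.sum_congr rfl fun τ' _ => ?_
    rw [Finset.sum_eq_single (nmU Q τ / (ξ * D))]
    · by_cases h : nmU Q τ / (ξ * D) = nmU Q τ' / (ξ * D')
      · rw [if_pos ⟨(toreq_cond Q τ ξ _ _).mpr rfl, (toreq_cond Q τ' ξ _ _).mpr h⟩, if_pos h,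
          mul_div_cancel_left₀ _ hD'0]
      · rw [if_neg h, if_neg (fun h2 => h ((toreq_cond Q τ' ξ _ _).mp h2.2)), mul_zero]
    · intro ζ _ hζ
      rw [if_neg (fun h2 => hζ ((toreq_cond Q τ ξ _ _).mp h2.1)), mul_zero]
    · intro h
      exact absurd (Finset.mem_univ _) h
  rw [hL, Matrix.mul_apply]
  simp only [Matrix.mul_apply, torA, torB, torC, Matrix.of_apply, ite_mul, zero_mul, mul_ite,
    mul_zero]
  rw [toreq_sum_inner S Q y.2.2.2]
  have hR : ∀ (ξ' : kˣ) (τ' : Q.Eˣ), (∑ z : Inner S Q,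
      if z.1 = ξ' ∧ nmU Q (z.2.2 / τ') = z.2.1.1 / y.2.2.2.1 then
        if x.2.2.2 = z.2.1 then
          ψ (-(z.1 * x.1 + (nmU Q z.2.2 / (z.1 * z.2.1.1) : kˣ) * x.2.1) +
            x.2.2.1 * Q.tr (z.2.2 : Q.E)) *
            Φ (Q.tr ((z.2.2 / τ' : Q.Eˣ) : Q.E)) (z.2.1.1 / y.2.2.2.1)
        else 0
      else 0) = ∑ τ : Q.Eˣ, if nmU Q (τ / τ') = D / D' then
        ψ (-(ξ' * x.1 + (nmU Q τ / (ξ' * D) : kˣ) * x.2.1) + x.2.2.1 * Q.tr (τ : Q.E)) *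
          Φ (Q.tr ((τ / τ' : Q.Eˣ) : Q.E)) (D / D') else 0 := by
    intro ξ' τ'
    have h1 : ∀ z : Inner S Q, (if z.1 = ξ' ∧ nmU Q (z.2.2 / τ') = z.2.1.1 / y.2.2.2.1 then
        if x.2.2.2 = z.2.1 then
          ψ (-(z.1 * x.1 + (nmU Q z.2.2 / (z.1 * z.2.1.1) : kˣ) * x.2.1) +
            x.2.2.1 * Q.tr (z.2.2 : Q.E)) *
            Φ (Q.tr ((z.2.2 / τ' : Q.Eˣ) : Q.E)) (z.2.1.1 / y.2.2.2.1)
        else 0
      else 0) = if x.2.2.2 = z.2.1 then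
        (if z.1 = ξ' ∧ nmU Q (z.2.2 / τ') = z.2.1.1 / y.2.2.2.1 then
          ψ (-(z.1 * x.1 + (nmU Q z.2.2 / (z.1 * z.2.1.1) : kˣ) * x.2.1) +
            x.2.2.1 * Q.tr (z.2.2 : Q.E)) *
            Φ (Q.tr ((z.2.2 / τ' : Q.Eˣ) : Q.E)) (z.2.1.1 / y.2.2.2.1)
        else 0) else 0 := by
      intro z
      split_ifs <;> rfl
    rw [Finset.sum_congr rfl fun z _ => h1 z]
    rw [toreq_sum_inner S Q x.2.2.2 (fun z =>
      if z.1 = ξ' ∧ nmU Q (z.2.2 / τ') = z.2.1.1 / y.2.2.2.1 then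
          ψ (-(z.1 * x.1 + (nmU Q z.2.2 / (z.1 * z.2.1.1) : kˣ) * x.2.1) +
            x.2.2.1 * Q.tr (z.2.2 : Q.E)) *
            Φ (Q.tr ((z.2.2 / τ' : Q.Eˣ) : Q.E)) (z.2.1.1 / y.2.2.2.1)
        else 0)]
    rw [Finset.sum_eq_single ξ']
    · refine Finset.sum_congr rfl fun τ _ => ?_
      simp only [true_and]
      rfl
    · intro ξ _ hξ
      refine Finset.sum_eq_zero fun τ _ => ?_
      rw [if_neg (fun h2 => hξ h2.1)]
    · intro h
      exact absurd (Finset.mem_univ _) h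
  refine Finset.sum_congr rfl fun ξ _ => ?_
  rw [Finset.sum_comm]
  refine Finset.sum_congr rfl fun τ' _ => ?_
  rw [hR ξ τ', Finset.sum_mul]
  refine Finset.sum_congr rfl fun τ _ => ?_
  have hc : nmU Q τ / (ξ * D) = nmU Q τ' / (ξ * D') ↔ nmU Q (τ / τ') = D / D' := by
    have h1 : nmU Q (τ / τ') = nmU Q τ / nmU Q τ' := by
      unfold nmU
      rw [map_div]
    rw [h1, div_eq_div_iff_mul_eq_mul, div_eq_div_iff_mul_eq_mul]
    constructor
    · intro h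
      have h2 : ξ * (nmU Q τ * D') = ξ * (D * nmU Q τ') := by
        rw [mul_left_comm ξ, h]
        rw [mul_comm (nmU Q τ'), mul_assoc]
      exact mul_left_cancel h2
    · intro h
      rw [mul_left_comm, h, mul_comm (nmU Q τ'), mul_assoc]
  by_cases h : nmU Q τ / (ξ * D) = nmU Q τ' / (ξ * D')
  · rw [if_pos h, if_pos (hc.mp h)]
    rw [show (y.2.2.2.1 : kˣ) = D' from rfl, ← h]
    rw [div_eq_mul_inv τ τ']
    rw [mul_comm (Φ _ _) (ψ _), ← mul_assoc, ← AddChar.map_add_eq_mul]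
    rw [mul_assoc (ψ _) (Φ _ _), mul_comm (Φ _ _) (ψ _), ← mul_assoc, ← AddChar.map_add_eq_mul]
    congr 2
    ring
  · rw [if_neg h, if_neg (fun h2 => h (hc.mpr h2)), zero_mul]

end MP0775d3.Sl2
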